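import Pool.Agent.MP_242484_co.cert.Desc

/-!
The descent with the bounds that the box gives for all forms.
-/

set_option autoImplicit false

namespace Pool.Agent.MP_242484_co.On

def B1 (lo : ℕ) (ex : Bool) (n : ℕ) : Prop := lo ≤ n ∧ (ex = true → n = lo)

def BoxV (lo : V) (ex : W) (n : V) : Prop :=
  B1 lo.v0 ex.b0 n.v0 ∧ B1 lo.v1 ex.b1 n.v1 ∧ B1 lo.v2 ex.b2 n.v2 ∧ B1 lo.v3 ex.b3 n.v3 ∧
    B1 lo.v4 ex.b4 n.v4 ∧ B1 lo.v5 ex.b5 n.v5

/-- the lower bounds after the move -/
def vmv (lo dp dn : V) : V :=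
  ⟨Nat.sub (Nat.add lo.v0 dn.v0) dp.v0, Nat.sub (Nat.add lo.v1 dn.v1) dp.v1,
    Nat.sub (Nat.add lo.v2 dn.v2) dp.v2, Nat.sub (Nat.add lo.v3 dn.v3) dp.v3,
    Nat.sub (Nat.add lo.v4 dn.v4) dp.v4, Nat.sub (Nat.add lo.v5 dn.v5) dp.v5⟩

/-- `1` for the atoms that are not exact -/
noncomputable def nex (ex : W) : V :=
  ⟨cd ex.b0 0 1, cd ex.b1 0 1, cd ex.b2 0 1, cd ex.b3 0 1, cd ex.b4 0 1, cd ex.b5 0 1⟩

/-- `127` in the lanes of the forms that the box does not bound -/
noncomputable def opn (ex : W) : ℕ := Nat.mul 127 (nz (cmb (nex ex)))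

def ubox1 (a o : ℕ) : ℕ := Nat.lor (clp (Nat.sub (Nat.add K136L a) (swp a))) o

/-- upper vector of a box -/
noncomputable def ubox (lo : V) (ex : W) : ℕ := ubox1 (cmb lo) (opn ex)

/-- lanewise minimum -/
def umin (a b : ℕ) : ℕ :=
  Nat.xor a (Nat.land (Nat.xor a b)
    (Nat.mul 127 (Nat.shiftRight (Nat.land (Nat.sub a (Nat.land b K127)) H8) 7)))

def full1 (v : ℕ) : Bool :=
  Nat.beq (Nat.land (Nat.add (Nat.land (Nat.shiftRight (Nat.add (Nat.add v (swp v)) O1) 1) K127)
    K120) H8) H8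

/-- no interval is empty -/
def full (u : ℕ) : Bool := full1 (Nat.land u K127)

theorem K136L_eq : K136L = 136 * O1 := by decide +kernel
theorem K120_eq : K120 = 120 * O1 := by decide +kernel

theorem or127 : ∀ a < 256, 128 ≤ a → a ||| 127 = 255 := by decide +kernel
theorem xor_sel : ∀ a < 256, 128 ≤ a → ∀ b < 256, 128 ≤ b → a ^^^ ((a ^^^ b) &&& 127) = b := by
  intro a ha ha' b hb hb'
  have e : (a ^^^ b) &&& 127 = a ^^^ b := by
    rw [and127]
    refine Nat.mod_eq_of_lt ?_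
    have h1 : (a ^^^ b) / 2 ^ 7 = 0 := by
      rw [Nat.xor_div_two_pow, show a / 2 ^ 7 = 1 by omega, show b / 2 ^ 7 = 1 by omega]; rfl
    omega
  rw [e, Nat.xor_xor_cancel_left]

theorem BoxV.mv {lo : V} {ex : W} {dp dn n m : V} (h : BoxV lo ex n) (hs : ShiftN dp dn n m) :
    BoxV (vmv lo dp dn) ex m := by
  have t : ∀ {a x y d e : ℕ} {b : Bool}, B1 a b x → y + d = x + e →
      B1 (Nat.sub (Nat.add a e) d) b y := by
    intro a x y d e b h1 h2
    unfold B1 at *
    simp only [Nat.sub_eq, Nat.add_eq]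
    exact ⟨by omega, fun k => by have := h1.2 k; omega⟩
  exact ⟨t h.1 hs.1, t h.2.1 hs.2.1, t h.2.2.1 hs.2.2.1, t h.2.2.2.1 hs.2.2.2.1,
    t h.2.2.2.2.1 hs.2.2.2.2.1, t h.2.2.2.2.2 hs.2.2.2.2.2⟩

theorem pos_mono {lo : V} {ex : W} {n : V} (h : BoxV lo ex n) (k : ℕ) : pos k lo ≤ pos k n := by
  have h0 := Nat.mul_le_mul_left (ln 8 C0 k) h.1.1
  have h1 := Nat.mul_le_mul_left (ln 8 C1 k) h.2.1.1
  have h2 := Nat.mul_le_mul_left (ln 8 C2 k) h.2.2.1.1
  have h3 := Nat.mul_le_mul_left (ln 8 C3 k) h.2.2.2.1.1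
  have h4 := Nat.mul_le_mul_left (ln 8 C4 k) h.2.2.2.2.1.1
  have h5 := Nat.mul_le_mul_left (ln 8 C5 k) h.2.2.2.2.2.1
  unfold pos; omega

theorem pos_exact {lo : V} {ex : W} {n : V} (h : BoxV lo ex n) {k : ℕ} (z : pos k (nex ex) = 0) :
    pos k n = pos k lo := by
  have t : ∀ {c a x : ℕ} {b : Bool}, B1 a b x → c * cd b 0 1 = 0 → c * x = c * a := by
    intro c a x b h1 h2
    cases b
    · have : c = 0 := by simpa using h2
      rw [this, Nat.zero_mul, Nat.zero_mul]
    · rw [h1.2 rfl]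
  unfold pos nex at z
  dsimp only at z
  unfold pos
  rw [t h.1 (by omega), t h.2.1 (by omega), t h.2.2.1 (by omega), t h.2.2.2.1 (by omega),
    t h.2.2.2.2.1 (by omega), t h.2.2.2.2.2 (by omega)]

theorem nex_le (ex : W) : vsum (nex ex) ≤ 6 := by
  have t : ∀ b : Bool, cd b 0 1 ≤ 1 := fun b => by cases b <;> simp
  have := t ex.b0; have := t ex.b1; have := t ex.b2; have := t ex.b3; have := t ex.b4
  have := t ex.b5
  rw [vsum_eq]; unfold nex; dsimp only; omega

theorem opn_ln (ex : W) (k : ℕ) : ln 8 (opn ex) k = if pos k (nex ex) = 0 then 0 else 127 := by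
  have h := nex_le ex
  have s : Sm 128 (cmb (nex ex)) := (cmb_sm (by omega)).mono (by omega)
  show ln 8 (127 * nz (cmb (nex ex))) k = _
  rw [ln_mul (fun j => by rw [nz_ln s]; split <;> omega), nz_ln s, cmb_ln (by omega)]
  split <;> omega

theorem Ub.of {u : ℕ} {n : V} (h1 : ∀ k, ¬ k < 2 * NF → ln 8 u k = 0)
    (h2 : ∀ k < 2 * NF, 128 ≤ ln 8 u k ∧
      (143 ≤ ln 8 u k ∨ 136 + pos k n ≤ ln 8 u k + pos (bar k) n)) : Ub u n :=
  ⟨by
    rw [show 16 * NF = 8 * (2 * NF) by omega]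
    exact lt_of_ln (by decide) (fun k hk => h1 k (by omega)), h2⟩

theorem Ub.hi {u : ℕ} {n : V} (h : Ub u n) {k : ℕ} (hk : ¬ k < 2 * NF) : ln 8 u k = 0 :=
  ln_hi (m := 2 * NF) (by rw [show 8 * (2 * NF) = 16 * NF by omega]; exact h.1) (by omega)

theorem ubox_ub {lo : V} {ex : W} {n : V} (h : BoxV lo ex n) (hs : vsum lo ≤ 39) :
    Ub (ubox lo ex) n := by
  have s : Sm 118 (cmb lo) := (cmb_sm (by omega)).mono (by omega)
  have s' := swp_sm s
  have t1 : ∀ j, ln 8 (K136L + cmb lo) j = ln 8 (cmb lo) j + if j < 2 * NF then 136 else 0 := by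
    intro j
    rw [Nat.add_comm, K136L_eq, addc_ln s (by decide)]
  have t2 := ln_sub (w := 8) (by decide) (A := K136L + cmb lo) (B := swp (cmb lo)) (fun j => by
    have := s' j
    rw [t1]; split at this
    · rw [if_pos ‹_›]; omega
    · omega)
  have e : ∀ j, ln 8 (ubox lo ex) j =
      ln 8 (clp (K136L + cmb lo - swp (cmb lo))) j ||| ln 8 (opn ex) j := fun j => ln_or _ _ _ _
  refine Ub.of (fun k hk => ?_) (fun k hk => ?_)
  · rw [e, clp_ln, if_neg hk, opn_ln, if_pos (pos_hi hk _)]; rfl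
  · have b := ln8_lt (clp (K136L + cmb lo - swp (cmb lo))) k
    have c : ln 8 (clp (K136L + cmb lo - swp (cmb lo))) k =
        max 128 (pos k lo + 136 - pos (bar k) lo) := by
      rw [clp_ln, if_pos hk, t2, t1, if_pos hk, swp_ln s, if_pos hk, cmb_ln (by omega),
        cmb_ln (by omega)]
    rw [e, opn_ln]
    split
    · rename_i z
      have := pos_exact h z
      have := pos_mono h (bar k)
      rw [Nat.or_zero, c]
      omega
    · rw [or127 _ b (by omega)]; omega

theorem umin_ub {a b : ℕ} {n : V} (ha : Ub a n) (hb : Ub b n) : Ub (umin a b) n := by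
  have t1 : ∀ j, ln 8 (b &&& K127) j = if j < 2 * NF then ln 8 b j % 128 else 0 := by
    intro j
    rw [ln_and, K127_eq, cst_ln (by decide)]
    split
    · exact and127 _
    · exact Nat.and_zero _
  have t2 := ln_sub (w := 8) (by decide) (A := a) (B := b &&& K127) (fun j => by
    rw [t1]; split
    · have := (ha.2 j ‹_›).1; omega
    · omega)
  have t3 : ∀ j, ln 8 (127 * Nat.shiftRight (Nat.land (a - (b &&& K127)) H8) 7) j =
      if j < 2 * NF then 127 * (ln 8 (a - (b &&& K127)) j / 128) else 0 := by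
    intro j
    rw [ln_mul (fun i => by
      have := ln8_lt (a - (b &&& K127)) i; rw [flag_ln]; split <;> omega), flag_ln]
    split <;> omega
  have e : ∀ j, ln 8 (umin a b) j = ln 8 a j ^^^ ((ln 8 a j ^^^ ln 8 b j) &&&
      ln 8 (127 * Nat.shiftRight (Nat.land (a - (b &&& K127)) H8) 7) j) := by
    intro j
    rw [← ln_xor, ← ln_and, ← ln_xor]; rfl
  refine Ub.of (fun k hk => ?_) (fun k hk => ?_)
  · rw [e, t3, if_neg hk, ha.hi hk, Nat.and_zero]; rfl
  · rw [e, t3, if_pos hk]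
    have := ln8_lt (a - (b &&& K127)) k
    by_cases z : ln 8 (a - (b &&& K127)) k < 128
    · rw [show ln 8 (a - (b &&& K127)) k / 128 = 0 by omega, Nat.mul_zero, Nat.and_zero,
        Nat.xor_zero]
      exact ha.2 k hk
    · rw [show ln 8 (a - (b &&& K127)) k / 128 = 1 by omega, Nat.mul_one,
        xor_sel _ (ln8_lt _ _) (ha.2 k hk).1 _ (ln8_lt _ _) (hb.2 k hk).1]
      exact hb.2 k hk

theorem ln_shr1 (x k : ℕ) : ln 8 (x / 2) k % 128 = ln 8 x k / 2 := by
  rw [ln_eq, ln_eq, Nat.div_div_eq_div_mul, Nat.mul_comm 2, ← Nat.div_div_eq_div_mul]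
  omega

theorem full_of {u : ℕ} {n : V} (h : Ub u n) : full u = true := by
  have t1 : ∀ j, ln 8 (u &&& K127) j = if j < 2 * NF then ln 8 u j % 128 else 0 := by
    intro j
    rw [ln_and, K127_eq, cst_ln (by decide)]
    split
    · exact and127 _
    · exact Nat.and_zero _
  have s : Sm 127 (u &&& K127) := fun j => by rw [t1]; split <;> omega
  have s' := swp_sm s
  generalize hv : u &&& K127 = v at t1 s s'
  have t2 := ln_add (w := 8) (A := v) (B := swp v)
    (fun j => by have := s.le j; have := s'.le j; omega)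
  have s2 : Sm 254 (v + swp v) := fun j => by
    have a := s j; have b := s' j
    rw [t2]; split at a
    · rw [if_pos ‹_›] at b ⊢; omega
    · rw [if_neg ‹_›] at b ⊢; omega
  have t3 := addc_ln (c := 1) s2 (by decide)
  rw [Nat.one_mul] at t3
  have t4 : ∀ j, ln 8 (((v + swp v + O1) / 2) &&& K127) j =
      if j < 2 * NF then ln 8 (v + swp v + O1) j / 2 else 0 := by
    intro j
    rw [ln_and, K127_eq, cst_ln (by decide)]
    split
    · rw [and127, ln_shr1]
    · exact Nat.and_zero _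
  have s4 : Sm 127 (((v + swp v + O1) / 2) &&& K127) := fun j => by
    have := ln8_lt (v + swp v + O1) j
    rw [t4]; split <;> omega
  have e : ((((v + swp v + O1) / 2) &&& K127) + K120) &&& H8 = H8 :=
    eq_of_ln (w := 8) (by decide) (fun j => by
      rw [andH8_ln, H8_eq, cst_ln (by decide), K120_eq, addc_ln s4 (by decide), t4, t3, t2,
        swp_ln s, t1, t1]
      split
      · rename_i hj
        have a := h.2 j hj
        have b := h.2 (bar j) (bar_lt j)
        have := ln8_lt u j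
        have := ln8_lt u (bar j)
        rw [bar_bar hj] at b
        rw [if_pos (bar_lt j)]
        omega
      · rfl)
  have e' : Nat.shiftRight (v + swp v + O1) 1 = (v + swp v + O1) / 2 :=
    Nat.shiftRight_eq_div_pow _ 1
  have e2 : Nat.land (Nat.add (Nat.land (Nat.shiftRight (Nat.add (Nat.add v (swp v)) O1) 1) K127)
      K120) H8 = H8 := by rw [← e'] at e; exact e
  have e3 : full1 v = true := Nat.beq_eq ▸ e2
  rw [← hv] at e3
  exact e3

end Pool.Agent.MP_242484_co.On
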