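import Pool.Agent.MP_242484_co.cert.Lab

/-!
The cover pass: the tree covers all sizes.
-/

set_option autoImplicit false

namespace Pool.Agent.MP_242484_co.On

theorem upd_ln {c a : ℕ} (ha : a < 256) (k j : ℕ) :
    ln 8 (upd c k a) j = if j = k then max a (ln 8 c k) else ln 8 c j := by
  have t : ∀ i, ln 8 ((a - ln 8 c k) * 2 ^ (8 * k)) i = if i = k then a - ln 8 c k else 0 := by
    intro i
    rw [ln_shl]
    by_cases h1 : i < k
    · rw [if_pos h1, if_neg (by omega)]
    rw [if_neg h1]
    by_cases h2 : i = k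
    · rw [if_pos h2, h2, Nat.sub_self, ln_at0]; exact Nat.mod_eq_of_lt (by omega)
    · rw [if_neg h2]; exact ln_hi (m := 1) (by omega) (by omega)
  show ln 8 (c + (a - ln 8 c k) <<< (8 * k)) j = _
  rw [Nat.shiftLeft_eq, ln_add (fun i => by
    have := ln8_lt c i
    rw [t]; split
    · subst i; omega
    · omega), t]
  split
  · subst j; omega
  · rfl

/-- a context of the cover pass that holds at `n` -/
def CtxOK (c : ℕ) (n : V) : Prop := Sm 15 c ∧ SatL c n

theorem CtxOK.upd {c k a : ℕ} {n : V} (h : CtxOK c n) (hk : k < 2 * NF) (ha : a ≤ 15)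
    (hs : a = 0 ∨ a + pos (bar k) n ≤ 8 + pos k n) : CtxOK (upd c k a) n := by
  refine ⟨fun j => ?_, fun j hj => ?_⟩
  · rw [upd_ln (by omega)]
    have := h.1 j
    have := h.1.le k
    by_cases e : j = k
    · rw [if_pos e, if_pos (by omega)]; omega
    · rwa [if_neg e]
  · rw [upd_ln (by omega)]
    have := h.2 j hj
    split
    · subst j; omega
    · exact this

theorem min15_le (a : ℕ) : min15 a ≤ 15 ∧ min15 a ≤ a := by
  unfold min15
  cases e : Nat.ble a 15
  · have : ¬ a ≤ 15 := by rw [← Nat.ble_eq, e]; simp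
    show 15 ≤ 15 ∧ 15 ≤ a
    omega
  · have : a ≤ 15 := by rwa [← Nat.ble_eq]
    show a ≤ 15 ∧ a ≤ a
    omega

/-- weighted sum over the terms of a circuit -/
def tsum (f : ℕ → ℕ) : List (ℕ × ℕ) → ℕ
  | [] => 0
  | t :: r => t.2 * f t.1 + tsum f r

theorem der_spec (c : ℕ) (ts : List (ℕ × ℕ)) (acc : ℕ) : der c ts acc = 0 ∨
    (der c ts acc = acc + tsum (ln 8 c) ts ∧ ∀ t ∈ ts, ln 8 c t.1 ≠ 0) := by
  induction ts generalizing acc with
  | nil => exact Or.inr ⟨rfl, fun t ht => by cases ht⟩
  | cons t r ih =>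
    have e : der c (t :: r) acc = Bool.rec (der c r (acc + t.2 * ln 8 c t.1)) 0
      (Nat.beq (ln 8 c t.1) 0) := rfl
    rw [e]
    cases z : Nat.beq (ln 8 c t.1) 0
    · rcases ih (acc + t.2 * ln 8 c t.1) with h | h
      · exact Or.inl h
      · refine Or.inr ⟨by rw [show (Bool.rec _ 0 false : ℕ) = der c r _ from rfl, h.1, tsum]; omega,
          fun u hu => ?_⟩
        rcases List.mem_cons.1 hu with rfl | hu
        · exact Nat.ne_of_beq_eq_false z
        · exact h.2 u hu
    · exact Or.inl rfl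

theorem tsum_sat {c : ℕ} {n : V} (h : SatL c n) {ts : List (ℕ × ℕ)}
    (h1 : ∀ t ∈ ts, t.1 < 2 * NF) (h2 : ∀ t ∈ ts, ln 8 c t.1 ≠ 0) :
    tsum (ln 8 c) ts + tsum (fun i => pos (bar i) n) ts ≤
      8 * tsum (fun _ => 1) ts + tsum (fun i => pos i n) ts := by
  induction ts with
  | nil => simp [tsum]
  | cons t r ih =>
    have a := ih (fun u hu => h1 u (List.mem_cons_of_mem _ hu))
      (fun u hu => h2 u (List.mem_cons_of_mem _ hu))
    have b := (h t.1 (h1 t List.mem_cons_self)).resolve_left (h2 t List.mem_cons_self)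
    have b' := Nat.mul_le_mul_left t.2 b
    simp only [tsum, Nat.mul_add] at b' ⊢
    omega

theorem tsum_pos (g : ℕ → ℕ) (n : V) (ts : List (ℕ × ℕ)) : tsum (fun i => pos (g i) n) ts =
    tsum (fun i => ln 8 C0 (g i)) ts * n.v0 + tsum (fun i => ln 8 C1 (g i)) ts * n.v1 +
    tsum (fun i => ln 8 C2 (g i)) ts * n.v2 + tsum (fun i => ln 8 C3 (g i)) ts * n.v3 +
    tsum (fun i => ln 8 C4 (g i)) ts * n.v4 + tsum (fun i => ln 8 C5 (g i)) ts * n.v5 := by
  induction ts with
  | nil => simp [tsum]
  | cons t r ih => simp only [tsum, ih]; unfold pos; ring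

theorem rec_tsum (b : ℕ) (f : ℕ → ℕ) (ts : List (ℕ × ℕ)) :
    (List.rec b (fun t _ ih => Nat.add (Nat.mul t.2 (f t.1)) ih) ts : ℕ) = b + tsum f ts := by
  induction ts with
  | nil => rfl
  | cons t r ih =>
    show t.2 * f t.1 + _ = _
    rw [ih, tsum]; omega

theorem rec_tsum1 (ts : List (ℕ × ℕ)) :
    (List.rec 0 (fun t _ ih => Nat.add t.2 ih) ts : ℕ) = tsum (fun _ => 1) ts := by
  induction ts with
  | nil => rfl
  | cons t r ih =>
    show t.2 + _ = _
    rw [ih, tsum]; omega

theorem cok1_spec {C k mu : ℕ} {ts : List (ℕ × ℕ)} (h : cok1 C k mu ts = true) (x : ℕ) :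
    mu * (ln 8 C (bar k) * x) + tsum (fun i => ln 8 C i) ts * x ≤
      mu * (ln 8 C k * x) + tsum (fun i => ln 8 C (bar i)) ts * x := by
  unfold cok1 at h
  rw [Nat.ble_eq, rec_tsum _ (fun i => ln 8 C i), rec_tsum _ (fun i => ln 8 C (bar i))] at h
  have := Nat.mul_le_mul_right x h
  simp only [Nat.mul_eq, Nat.add_mul, Nat.mul_assoc] at this
  exact this

theorem app_ok {cb : Cb} (hcb : cbOK cb = true) (id : ℕ) {c : ℕ} {n : V} (h : CtxOK c n) :
    CtxOK (app cb id c) n := by
  induction cb with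
  | z => exact h
  | n q k mu la ts a b ia ib =>
    have e : cbOK (Cb.n q k mu la ts a b) =
      an (an (an (Nat.ble (Nat.succ k) (Nat.mul 2 NF)) (Nat.ble 1 mu))
        (an (allL (fun t => Nat.ble (Nat.succ t.1) (Nat.mul 2 NF)) ts)
          (Nat.beq la (List.rec 0 (fun t _ ih => Nat.add t.2 ih) ts))))
      (an (an (an (cok1 C0 k mu ts) (cok1 C1 k mu ts)) (an (cok1 C2 k mu ts) (cok1 C3 k mu ts)))
        (an (an (cok1 C4 k mu ts) (cok1 C5 k mu ts)) (an (cbOK a) (cbOK b)))) := rfl
    rw [e] at hcb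
    simp only [an_iff, Nat.ble_eq, Nat.beq_eq] at hcb
    obtain ⟨⟨⟨hk, hmu⟩, hts, hla⟩, ⟨⟨k0, k1⟩, k2, k3⟩, ⟨k4, k5⟩, ha, hb⟩ := hcb
    have e2 : app (Cb.n q k mu la ts a b) id c =
      Bool.rec (Bool.rec (app b id c) (app a id c) (Nat.ble id q))
        (upd c k (min15 ((der c ts (Nat.pred (9 * mu)) - 8 * la) / mu))) (Nat.beq id q) := rfl
    rw [e2]
    cases Nat.beq id q
    · cases Nat.ble id q
      · exact ib hb
      · exact ia ha
    refine h.upd hk (min15_le _).1 ?_
    have m := (min15_le ((der c ts (Nat.pred (9 * mu)) - 8 * la) / mu)).2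
    rcases der_spec c ts (Nat.pred (9 * mu)) with d | d
    · rw [d, Nat.zero_sub, Nat.zero_div] at m ⊢
      exact Or.inl (by omega)
    rcases Nat.eq_zero_or_pos ((der c ts (Nat.pred (9 * mu)) - 8 * la) / mu) with hr | hr
    · exact Or.inl (by omega)
    refine Or.inr (le_trans (Nat.add_le_add_right m _) ?_)
    have s := tsum_sat h.2 (fun t ht => by
      have := allL_imp hts t ht
      rwa [Nat.ble_eq] at this) d.2
    rw [rec_tsum1] at hla
    rw [← hla, tsum_pos bar, tsum_pos (fun i => i)] at s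
    have j0 := cok1_spec k0 n.v0
    have j1 := cok1_spec k1 n.v1
    have j2 := cok1_spec k2 n.v2
    have j3 := cok1_spec k3 n.v3
    have j4 := cok1_spec k4 n.v4
    have j5 := cok1_spec k5 n.v5
    have p1 : mu * pos k n = mu * (ln 8 C0 k * n.v0) + mu * (ln 8 C1 k * n.v1) +
        mu * (ln 8 C2 k * n.v2) + mu * (ln 8 C3 k * n.v3) + mu * (ln 8 C4 k * n.v4) +
        mu * (ln 8 C5 k * n.v5) := by unfold pos; ring
    have p2 : mu * pos (bar k) n = mu * (ln 8 C0 (bar k) * n.v0) + mu * (ln 8 C1 (bar k) * n.v1) +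
        mu * (ln 8 C2 (bar k) * n.v2) + mu * (ln 8 C3 (bar k) * n.v3) +
        mu * (ln 8 C4 (bar k) * n.v4) + mu * (ln 8 C5 (bar k) * n.v5) := by unfold pos; ring
    have key : tsum (ln 8 c) ts + mu * pos (bar k) n ≤ 8 * la + mu * pos k n := by omega
    rw [d.1] at hr ⊢
    have q1 := Nat.mul_div_le (Nat.pred (9 * mu) + tsum (ln 8 c) ts - 8 * la) mu
    generalize (Nat.pred (9 * mu) + tsum (ln 8 c) ts - 8 * la) / mu = r at q1 hr ⊢
    rw [Nat.pred_eq_sub_one] at q1
    by_contra z
    have z' : 9 + pos k n ≤ r + pos (bar k) n := by omega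
    have := Nat.mul_le_mul_left mu z'
    simp only [Nat.mul_add] at this
    have : mu ≤ mu * r := Nat.le_mul_of_pos_right mu hr
    omega

theorem tgc_ok {c : ℕ} {n : V} (h : CtxOK c n) : CtxOK (tgc c (par n)) n := by
  have s := tig_sm h.1 (par n)
  have t : ∀ j, ln 8 ((tig c (par n) / 16) &&& O1) j =
      if j < 2 * NF then ln 8 (tig c (par n)) j / 16 else 0 := by
    intro j
    rw [ln_and, O1_ln]
    split
    · have := s.le j
      rw [and1, ln_eq, ln_eq, Nat.div_div_eq_div_mul, Nat.mul_comm 16, ← Nat.div_div_eq_div_mul]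
      rw [ln_eq] at this
      omega
    · exact Nat.and_zero _
  have e : ∀ j, ln 8 (tgc c (par n)) j = ln 8 (tig c (par n)) j -
      if j < 2 * NF then ln 8 (tig c (par n)) j / 16 else 0 := by
    intro j
    show ln 8 (tig c (par n) - ((tig c (par n) >>> 4) &&& O1)) j = _
    rw [Nat.shiftRight_eq_div_pow, ln_sub (by decide) (fun i => by rw [t]; split <;> omega), t]
  refine ⟨fun k => ?_, fun k hk => ?_⟩
  · have := s k
    rw [e]; split <;> simp_all <;> omega
  · have a := h.2 k hk
    have b := h.1.le k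
    rw [e, if_pos hk, tig_ln h.1, pv_ln n hk]
    split <;> omega

/-- `p` is the parity of `n`, or it is not known -/
def ParIs (p : ℕ) (n : V) : Prop := p ≤ 63 → par n = p

theorem steps_ok {cb : Cb} (hcb : cbOK cb = true) {p : ℕ} (x : ℕ) {c : ℕ} {n : V} (hp : ParIs p n)
    (h : CtxOK c n) : CtxOK (steps cb p x c) n := by
  unfold steps
  generalize 900 = f
  induction f generalizing x c with
  | zero => exact h
  | succ f ih =>
    show CtxOK (Bool.rec _ c (Nat.beq x 0)) n
    cases Nat.beq x 0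
    · refine ih _ ?_
      cases Nat.beq (Nat.mod x 1048576) 1
      · exact app_ok hcb _ h
      · cases e : Nat.ble p 63
        · exact h
        · rw [← hp (Nat.le_of_ble_eq_true e)]; exact tgc_ok h
    · exact h

theorem pair_ln {c a : ℕ} (h : Sm 15 c) (ha : a ≤ 200) (k : ℕ) : ln 8 (c + swp c + a * O1) k =
    if k < 2 * NF then ln 8 c k + ln 8 c (bar k) + a else 0 := by
  have hs := swp_sm h
  have t := ln_add (w := 8) (A := c) (B := swp c)
    (fun j => by have := h.le j; have := hs.le j; omega)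
  have u : Sm 30 (c + swp c) := fun j => by
    have := h j; have := hs j
    rw [t]; split <;> simp_all <;> omega
  rw [addc_ln u (by omega), t, swp_ln h]
  split
  · rfl
  · exact h.hi ‹_›

theorem contra_spec {c : ℕ} {n : V} (h : CtxOK c n) : contra c = false := by
  have e : (c + swp c + K111) &&& H8 = 0 := eq_of_ln (w := 8) (by decide) (fun j => by
    rw [andH8_ln, ln_zero, K111_eq, pair_ln h.1 (by decide)]
    split
    · rename_i hj
      have a := h.2 j hj
      have b := h.2 (bar j) (bar_lt j)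
      have := h.1.le j
      have := h.1.le (bar j)
      rw [bar_bar hj] at b
      omega
    · rfl)
  have e' : Nat.land (Nat.add (Nat.add c (swp c)) K111) H8 = 0 := e
  unfold contra
  rw [e']; rfl

theorem noclash {c : ℕ} {n : V} (h : CtxOK c n) : (c ^^^ pv (par n)) &&& exa c = 0 := by
  refine eq_of_ln (w := 8) (by decide) (fun j => ?_)
  rw [ln_and, ln_xor, ln_zero]
  unfold exa
  rw [flag_ln]
  split
  · rename_i hj
    show _ &&& ln 8 (c + swp c + K112) j / 128 = 0
    rw [K112_eq, pair_ln h.1 (by decide), if_pos hj]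
    have a := h.2 j hj
    have b := h.2 (bar j) (bar_lt j)
    have a' := h.1.le j
    have b' := h.1.le (bar j)
    rw [bar_bar hj] at b
    by_cases e : ln 8 c j + ln 8 c (bar j) < 16
    · rw [show (ln 8 c j + ln 8 c (bar j) + 112) / 128 = 0 by omega, Nat.and_zero]
    · rw [show (ln 8 c j + ln 8 c (bar j) + 112) / 128 = 1 by omega, and1,
        xor1 _ (ln8_lt _ _) _ (pv_lt _ _), pv_ln n hj]
      omega
  · exact Nat.and_zero _

theorem parOK_spec {c : ℕ} {tb : Tb} {n : V} (h : CtxOK c n) (hp : parOK c (exa c) tb = true) :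
    alive (look (par n) tb) = true := by
  have hn := par_lt n
  unfold parOK at hp
  generalize 64 = f at hp hn
  induction f with
  | zero => omega
  | succ f ih =>
    have hp' : an (Bool.rec true (alive (look f tb))
      (Nat.beq ((c ^^^ pv f) &&& exa c) 0)) _ = true := hp
    rw [an_iff] at hp'
    by_cases e : par n = f
    · have a := hp'.1
      rw [← e, noclash h] at a
      exact a
    · exact ih hp'.2 (by omega)

theorem tst_le {c l : ℕ} {n : V} (h : CtxOK c n) (hl : LOK l) (ht : tst (c + H8) l = true) :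
    SatL l n := by
  have e : (c + H8 - l) &&& H8 = H8 := Nat.eq_of_beq_eq_true ht
  have t : ∀ j, ln 8 (c + H8) j = ln 8 c j + if j < 2 * NF then 128 else 0 := fun j => by
    rw [H8_eq, addc_ln h.1 (by decide)]
  intro k hk
  have a := congrArg (fun x => ln 8 x k) e
  rw [andH8_ln, ln_sub (by decide) (fun j => by
    have := hl.sm j
    rw [t]; split <;> simp_all <;> omega), t, H8_eq, cst_ln (by decide)] at a
  simp only [if_pos hk] at a
  have := h.2 k hk
  have := hl.sm.le k
  have := h.1.le k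
  omega

theorem cov3_spec {cb : Cb} (hcb : cbOK cb = true) {p l x k a c : ℕ} {is ir : ℕ → Bool} {n : V}
    (hp : ParIs p n) (hk : k < 2 * NF) (ha : a < 16) (h : CtxOK c n)
    (hc : cov3 cb p l x k a is ir c = true) :
    (LOK l ∧ SatL l n ∧ ∃ c', CtxOK c' n ∧ is c' = true) ∨ ∃ c', CtxOK c' n ∧ ir c' = true := by
  unfold cov3 cov1 at hc
  rw [an_iff, oo_iff, an_iff, an_iff] at hc
  by_cases e : a = 0 ∨ a + pos (bar k) n ≤ 8 + pos k n
  · have h2 := steps_ok hcb x hp (h.upd hk (by omega) e)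
    have hl : LOK l := Nat.eq_of_beq_eq_true hc.1.1
    exact Or.inl ⟨hl, tst_le h2 hl hc.1.2.1, _, h2, hc.1.2.2⟩
  · rcases hc.2 with z | z
    · exact absurd (Or.inl (Nat.eq_of_beq_eq_true z)) e
    · refine Or.inr ⟨_, h.upd (bar_lt k) (min15_le _).1 (Or.inr ?_), z⟩
      have := (min15_le (Nat.sub 17 a)).2
      rw [bar_bar hk]
      simp only [Nat.sub_eq] at this ⊢
      omega

theorem cov2_spec {cb : Cb} (hcb : cbOK cb = true) {p l ce c : ℕ} {is ir : ℕ → Bool} {n : V}
    (hp : ParIs p n) (h : CtxOK c n) (hc : cov2 cb p l ce is ir c = true) :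
    (LOK l ∧ SatL l n ∧ ∃ c', CtxOK c' n ∧ is c' = true) ∨ ∃ c', CtxOK c' n ∧ ir c' = true :=
  cov3_spec hcb hp (Nat.mod_lt _ (by have := NF_ge; show 0 < 2 * NF; omega))
    (Nat.mod_lt _ (by decide)) h hc

theorem tbOK_spec {p c : ℕ} {tb : Tb} {n : V} (hp : ParIs p n) (h : CtxOK c n)
    (ht : tbOK p c tb = true) : alive (look (par n) tb) = true := by
  unfold tbOK at ht
  cases e : Nat.ble p 63
  · rw [e] at ht; exact parOK_spec h ht
  · rw [e] at ht; rw [hp (Nat.le_of_ble_eq_true e)]; exact ht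

theorem upto_imp {N : ℕ} {p : ℕ → Bool} (h : upto N p = true) : ∀ n < N, p n = true := by
  induction N with
  | zero => intro n hn; omega
  | succ M ih =>
    have h' : an (upto M p) (p M) = true := h
    rw [an_iff] at h'
    intro n hn
    by_cases e : n = M
    · rw [e]; exact h'.2
    · exact ih h'.1 n (by omega)

theorem cov_spec {cb : Cb} (hcb : cbOK cb = true) {n : V} (t : T) :
    ∀ p c, ParIs p n → CtxOK c n → cov cb t p c = true → Tot n t := by
  induction t with
  | nil =>
    intro p c _ h hc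
    have : contra c = true := hc
    rw [contra_spec h] at this
    cases this
  | top => intro _ _ _ _ _; trivial
  | co l ce tb s r is ir =>
    intro p c hp h hc
    rcases cov2_spec hcb (is := fun c => an (tbOK p c tb) (cov cb s p c)) (ir := cov cb r p)
      hp h hc with ⟨a, b, c', h', e⟩ | ⟨c', h', e⟩
    · rw [an_iff] at e
      exact Or.inl ⟨a, b, tbOK_spec hp h' e.1, is p c' hp h' e.2⟩
    · exact Or.inr (ir p c' hp h' e)
  | br l ce s r is ir =>
    intro p c hp h hc
    rcases cov2_spec hcb (is := cov cb s p) (ir := cov cb r p) hp h hc with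
      ⟨a, b, c', h', e⟩ | ⟨c', h', e⟩
    · exact Or.inl ⟨a, b, is p c' hp h' e⟩
    · exact Or.inr (ir p c' hp h' e)
  | pn q s x y is ia ib =>
    intro p c hp h hc
    have key : ∀ c, CtxOK c n → covP q (cov cb s) (cov cb x) (cov cb y) (par n) c = true →
        Tot n (.pn q s x y) := by
      intro c h k
      have hq : ParIs (par n) n := fun _ => rfl
      unfold covP at k
      unfold Tot
      cases e : Nat.beq (par n) q
      · rw [e, cd_false] at k
        rw [if_neg (Nat.ne_of_beq_eq_false e)]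
        cases e2 : Nat.ble (par n) q
        · rw [e2, cd_false] at k
          rw [if_neg (by rw [← Nat.ble_eq, e2]; decide)]
          exact ib _ _ hq h k
        · rw [e2, cd_true] at k
          rw [if_pos (Nat.le_of_ble_eq_true e2)]
          exact ia _ _ hq h k
      · rw [e, cd_true] at k
        rw [if_pos (Nat.eq_of_beq_eq_true e)]
        exact is _ _ hq h k
    have hc' : cd (Nat.ble p 63) (covP q (cov cb s) (cov cb x) (cov cb y) p c)
      (upto 64 fun p => covP q (cov cb s) (cov cb x) (cov cb y) p (tgc c p)) = true := hc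
    cases e : Nat.ble p 63
    · rw [e, cd_false] at hc'
      exact key _ (tgc_ok h) (upto_imp hc' _ (par_lt n))
    · rw [e, cd_true, ← hp (Nat.le_of_ble_eq_true e)] at hc'
      exact key _ h hc'
  | mi l ce bl br r ir =>
    intro p c hp h hc
    rcases cov2_spec hcb (is := fun _ => true) (ir := cov cb r p) hp h hc with
      ⟨a, b, -⟩ | ⟨c', h', e⟩
    · exact Or.inl ⟨a, b⟩
    · exact Or.inr (ir p c' hp h' e)

theorem c0_ok (n : V) : CtxOK c0 n := by
  have hN := NF_ge
  refine ⟨fun k => ?_, fun k hk => ?_⟩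
  · rw [c0_ln]; split_ifs <;> omega
  · rw [c0_ln]
    split
    · rename_i h
      rw [bar_eq hk, if_pos (by omega), (pos_atom h n).2]
      omega
    · exact Or.inl rfl

theorem parIs64 (n : V) : ParIs 64 n := fun h => absurd h (by decide)

theorem cov_sound {cb : Cb} {t : T} (hcb : cbOK cb = true) (h : cov cb t 64 c0 = true) (n : V) :
    Tot n t := cov_spec hcb t 64 c0 (parIs64 n) (c0_ok n) h

end Pool.Agent.MP_242484_co.On
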