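import Pool.Agent.MP_242484_co.cert.Box
import Pool.Agent.MP_242484_co.cert.Cover

/-!
Mirror images: the descent goes on in the mirror image of a region.
-/

set_option autoImplicit false

namespace Pool.Agent.MP_242484_co.On

/-- positive part of the signed form `k` as a vector -/
def col (k : ℕ) : V := ⟨ln 8 C0 k, ln 8 C1 k, ln 8 C2 k, ln 8 C3 k, ln 8 C4 k, ln 8 C5 k⟩

def V.sw (a : V) (bl br : Bool) : V := (a.sl bl).sr br

noncomputable def V.beq (a b : V) : Bool :=
  an (Nat.beq a.v0 b.v0) (an (Nat.beq a.v1 b.v1) (an (Nat.beq a.v2 b.v2) (an (Nat.beq a.v3 b.v3)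
    (an (Nat.beq a.v4 b.v4) (Nat.beq a.v5 b.v5)))))

theorem V.beq_imp {a b : V} (h : a.beq b = true) : a = b := by
  simp only [V.beq, an_iff, Nat.beq_eq] at h
  cases a; cases b
  simp only [V.mk.injEq]
  exact h

/-- lane `k` of `π` is the number of the form `k` read at the mirrored sizes -/
noncomputable def permOK (bl br : Bool) (π : ℕ) : Bool :=
  upto (Nat.mul 2 NF) fun k => an (Nat.ble (Nat.succ (ln 8 π k)) (Nat.mul 2 NF))
    (an (((col k).sw bl br).beq (col (ln 8 π k)))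
      (((col (bar k)).sw bl br).beq (col (bar (ln 8 π k)))))

theorem pos_sw {k j : ℕ} {bl br : Bool} (h : (col k).sw bl br = col j) (n : V) :
    pos k (n.sw bl br) = pos j n := by
  have e : ∀ i m, pos i m = (col i).v0 * m.v0 + (col i).v1 * m.v1 + (col i).v2 * m.v2 +
    (col i).v3 * m.v3 + (col i).v4 * m.v4 + (col i).v5 * m.v5 := fun _ _ => rfl
  rw [e, e, ← h]
  generalize col k = a
  cases bl <;> cases br <;> simp only [V.sw, V.sl, V.sr, cond_true, cond_false] <;> omega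

theorem par_sw (n : V) (bl br : Bool) : par (n.sw bl br) = par ((bits (par n)).sw bl br) := by
  rw [bits_par]
  cases bl <;> cases br <;> simp only [V.sw, V.sl, V.sr, cond_true, cond_false, par, Nat.mod_mod]

/-! ### permutation of the lanes -/

/-- groups of lanes (mask `M`) that move up by `a` and down by `b` lanes -/
inductive Gr where
  | z : Gr
  | n (M a b : ℕ) (r : Gr) : Gr

noncomputable def prm1 (G : Gr) (x : ℕ) : ℕ :=
  @Gr.rec (fun _ => ℕ) 0 (fun M a b _ ih => Nat.lor ih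
    (Nat.shiftRight (Nat.shiftLeft (Nat.land x M) (Nat.mul 8 a)) (Nat.mul 8 b))) G

noncomputable def prm (G : Gr) (x : ℕ) : ℕ := Nat.land (prm1 G x) K255

noncomputable def grHit (M a b k j : ℕ) : Bool :=
  an (Nat.beq (Nat.add j a) (Nat.add k b)) (Nat.beq (ln 8 M j) 255)

/-- each group puts nothing or lane `j` into lane `k` -/
noncomputable def grAll (G : Gr) (k j : ℕ) : Bool :=
  @Gr.rec (fun _ => Bool) true (fun M a b _ ih => an ih (oo (grHit M a b k j)
    (oo (Nat.ble (Nat.succ (Nat.add k b)) a) (Nat.beq (ln 8 M (Nat.sub (Nat.add k b) a)) 0)))) G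

noncomputable def grAny (G : Gr) (k j : ℕ) : Bool :=
  @Gr.rec (fun _ => Bool) false (fun M a b _ ih => oo ih (grHit M a b k j)) G

theorem gr_ln (x M a b k : ℕ) :
    ln 8 (Nat.shiftRight (Nat.shiftLeft (Nat.land x M) (Nat.mul 8 a)) (Nat.mul 8 b)) k =
      if k + b < a then 0 else ln 8 x (k + b - a) &&& ln 8 M (k + b - a) := by
  show ln 8 (((x &&& M) <<< (8 * a)) >>> (8 * b)) k = _
  rw [Nat.shiftRight_eq_div_pow, Nat.shiftLeft_eq, ln_div, ln_shl, ln_and]

theorem grHit_ln {M a b k j : ℕ} (h : grHit M a b k j = true) (x : ℕ) :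
    ln 8 (Nat.shiftRight (Nat.shiftLeft (Nat.land x M) (Nat.mul 8 a)) (Nat.mul 8 b)) k =
      ln 8 x j := by
  simp only [grHit, an_iff, Nat.beq_eq, Nat.add_eq] at h
  rw [gr_ln, if_neg (by omega), show k + b - a = j by omega, h.2, and255,
    Nat.mod_eq_of_lt (ln8_lt _ _)]

theorem prm1_ln {G : Gr} {k j : ℕ} (x : ℕ) (h : grAll G k j = true) :
    (ln 8 (prm1 G x) k = 0 ∨ ln 8 (prm1 G x) k = ln 8 x j) ∧
      (grAny G k j = true → ln 8 (prm1 G x) k = ln 8 x j) := by
  induction G with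
  | z => exact ⟨Or.inl (ln_zero _ _), fun e => by cases e⟩
  | n M a b r ih =>
    have h' : an (grAll r k j) (oo (grHit M a b k j) (oo (Nat.ble (Nat.succ (Nat.add k b)) a)
      (Nat.beq (ln 8 M (Nat.sub (Nat.add k b) a)) 0))) = true := h
    obtain ⟨h1, h2⟩ := an_iff.1 h'
    obtain ⟨i1, i2⟩ := ih h1
    have e : ln 8 (prm1 (.n M a b r) x) k = ln 8 (prm1 r x) k ||| ln 8 (Nat.shiftRight
      (Nat.shiftLeft (Nat.land x M) (Nat.mul 8 a)) (Nat.mul 8 b)) k := ln_or _ _ _ _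
    have any : grAny (.n M a b r) k j = oo (grAny r k j) (grHit M a b k j) := rfl
    rw [e, any]
    cases z : grHit M a b k j
    · rw [z] at h2
      have e0 : ln 8 (Nat.shiftRight (Nat.shiftLeft (Nat.land x M) (Nat.mul 8 a))
          (Nat.mul 8 b)) k = 0 := by
        rw [gr_ln]
        split
        · rfl
        · simp only [oo_iff, Nat.ble_eq, Nat.beq_eq, Nat.add_eq, Nat.sub_eq, reduceCtorEq,
            false_or] at h2
          rw [h2.resolve_left (by omega), Nat.and_zero]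
      rw [e0, Nat.or_zero]
      exact ⟨i1, fun k => i2 ((oo_iff.1 k).resolve_right (by decide))⟩
    · rw [grHit_ln z]
      have : ln 8 (prm1 r x) k ||| ln 8 x j = ln 8 x j := by
        rcases i1 with i | i <;> rw [i]
        · exact Nat.zero_or _
        · exact Nat.or_self _
      exact ⟨Or.inr this, fun _ => this⟩

noncomputable def grOK (G : Gr) (π : ℕ) : Bool :=
  upto (Nat.mul 2 NF) fun k => an (grAll G k (ln 8 π k)) (grAny G k (ln 8 π k))

theorem prm_ub {bl br : Bool} {G : Gr} {π u : ℕ} {n : V} (h1 : permOK bl br π = true)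
    (h2 : grOK G π = true) (hu : Ub u n) : Ub (prm G u) (n.sw bl br) := by
  have e : ∀ k, ln 8 (prm G u) k = ln 8 (prm1 G u) k &&& ln 8 K255 k := fun k => ln_and _ _ _ _
  refine Ub.of (fun k hk => ?_) (fun k hk => ?_)
  · rw [e, K255_eq, cst_ln (by decide), if_neg hk, Nat.and_zero]
  · have a := upto_imp h1 k hk
    have b := an_iff.1 (upto_imp h2 k hk)
    simp only [an_iff, Nat.ble_eq] at a
    rw [e, K255_eq, cst_ln (by decide), if_pos hk, and255, Nat.mod_eq_of_lt (ln8_lt _ _),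
      (prm1_ln u b.1).2 b.2, pos_sw (V.beq_imp a.2.1), pos_sw (V.beq_imp a.2.2)]
    exact hu.2 _ a.1

/-- the lane permutations of the mirror maps -/
structure Mr where
  pm : Bool → Bool → ℕ
  pg : Bool → Bool → Gr

noncomputable def Mr.ok1 (M : Mr) (bl br : Bool) : Bool :=
  an (permOK bl br (M.pm bl br)) (grOK (M.pg bl br) (M.pm bl br))

noncomputable def Mr.ok (M : Mr) : Bool :=
  an (an (M.ok1 false false) (M.ok1 false true)) (an (M.ok1 true false) (M.ok1 true true))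

theorem Mr.ub {M : Mr} (h : M.ok = true) (bl br : Bool) {u : ℕ} {n : V} (hu : Ub u n) :
    Ub (prm (M.pg bl br) u) (n.sw bl br) := by
  have k : M.ok1 bl br = true := by
    simp only [Mr.ok, an_iff] at h
    cases bl <;> cases br
    exacts [h.1.1, h.1.2, h.2.1, h.2.2]
  exact prm_ub (an_iff.1 k).1 (an_iff.1 k).2 hu

/-! ### mirrored generators -/

theorem fld_pack {a b c d e f : ℕ} (ha : a ≤ 15) (hb : b ≤ 15) (hc : c ≤ 15) (hd : d ≤ 15)
    (he : e ≤ 15) (hf : f ≤ 15) :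
    fld (pack a b c d e f) 0 = a ∧ fld (pack a b c d e f) 6 = b ∧ fld (pack a b c d e f) 12 = c ∧
      fld (pack a b c d e f) 18 = d ∧ fld (pack a b c d e f) 24 = e ∧
      fld (pack a b c d e f) 30 = f := by
  simp only [fld_eq, pack, Nat.add_eq, Nat.mul_eq]
  refine ⟨?_, ?_, ?_, ?_, ?_, ?_⟩ <;> omega

/-- six fields, mirrored and packed -/
noncomputable def swf (bl br : Bool) (f : ℕ → ℕ) : ℕ :=
  cd bl
    (cd br (pack (f 12) (f 18) (f 0) (f 6) (f 30) (f 24))
      (pack (f 12) (f 18) (f 0) (f 6) (f 24) (f 30)))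
    (cd br (pack (f 0) (f 6) (f 12) (f 18) (f 30) (f 24))
      (pack (f 0) (f 6) (f 12) (f 18) (f 24) (f 30)))

/-- the mirrored generator -/
noncomputable def swg (bl br : Bool) (g : ℕ) : ℕ := swf bl br (fld g)

/-- the mirrored target constant -/
noncomputable def swK (bl br : Bool) (K : ℕ) : ℕ :=
  swf bl br fun sh => Nat.mod (Nat.shiftRight K sh) 64

theorem swK_eq (bl br : Bool) (K : ℕ) : swK bl br K = swf bl br (kf K) := by
  unfold swK
  congr 1
  funext sh
  unfold kf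
  rw [← Nat.shiftRight_eq_div_pow]; rfl

theorem KOK.sw {K : ℕ} (h : KOK K) (bl br : Bool) : KOK (swK bl br K) := by
  obtain ⟨a, b, c, d, e, f, ha, hb, hc, hd, he, hf, rfl⟩ := h
  obtain ⟨e0, e1, e2, e3, e4, e5⟩ := kf_pack (a := a) (b := b) (c := c) (d := d) (e := e) (f := f)
    (by omega) (by omega) (by omega) (by omega) (by omega) (by omega)
  rw [swK_eq]
  unfold swf
  rw [e0, e1, e2, e3, e4, e5]
  cases bl <;> cases br
  exacts [⟨_, _, _, _, _, _, ha, hb, hc, hd, he, hf, rfl⟩,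
    ⟨_, _, _, _, _, _, ha, hb, hc, hd, hf, he, rfl⟩, ⟨_, _, _, _, _, _, hc, hd, ha, hb, he, hf, rfl⟩,
    ⟨_, _, _, _, _, _, hc, hd, ha, hb, hf, he, rfl⟩]

theorem Le.sw {y q K : ℕ} {bl br : Bool} (h : Le y (swg bl br q) (swK bl br K)) :
    Le (swg bl br y) q K := by
  have b := fld_le q
  have c := fld_le y
  have d : ∀ s, kf K s < 64 := fun s => Nat.mod_lt _ (by decide)
  rw [swK_eq] at h
  cases bl <;> cases br <;>
    simp only [Le, swg, swf, cd_true, cd_false, fld_pack (b _) (b _) (b _) (b _) (b _) (b _),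
      fld_pack (c _) (c _) (c _) (c _) (c _) (c _),
      kf_pack (d _) (d _) (d _) (d _) (d _) (d _)] at h ⊢ <;> omega

noncomputable def mapL (f : ℕ → ℕ) (l : List ℕ) : List ℕ :=
  @List.rec ℕ (fun _ => List ℕ) [] (fun a _ ih => f a :: ih) l

theorem mapL_eq (f : ℕ → ℕ) (l : List ℕ) : mapL f l = l.map f := by
  induction l with
  | nil => rfl
  | cons a t ih => exact congrArg (List.cons (f a)) ih

noncomputable def hitM (g : List ℕ) (m K1 K2 : ℕ) (bl br : Bool) : ℕ → ℕ :=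
  hitf (mapL (swg bl br) g) m (swK bl br K1) (swK bl br K2)

noncomputable def hitM1 (g : List ℕ) (m K : ℕ) (bl br : Bool) : ℕ → ℕ :=
  hitf1 (mapL (swg bl br) g) m (swK bl br K)

theorem hitM_spec {g : List ℕ} {K1 K2 x i : ℕ} {bl br : Bool} (h1 : KOK K1) (h2 : KOK K2)
    (hi : i < g.length) (h : Nat.testBit (hitM g g.length K1 K2 bl br x) (RW * i + 44 * QQ) = true)
    (tl : List ℕ) : ∃ y ∈ unp x tl, Le (swg bl br y) g[i] K1 ∨ Le (swg bl br y) g[i] K2 := by
  unfold hitM at h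
  rw [mapL_eq, ← List.length_map (swg bl br)] at h
  obtain ⟨y, hy, k⟩ := hit_spec (h1.sw bl br) (h2.sw bl br) (by rwa [List.length_map]) h tl
  rw [List.getElem_map] at k
  exact ⟨y, hy, k.imp Le.sw Le.sw⟩

theorem hitM1_spec {g : List ℕ} {K x i : ℕ} {bl br : Bool} (h1 : KOK K)
    (hi : i < g.length) (h : Nat.testBit (hitM1 g g.length K bl br x) (RW * i + 44 * QQ) = true)
    (tl : List ℕ) : ∃ y ∈ unp x tl, Le (swg bl br y) g[i] K := by
  unfold hitM1 at h
  rw [hitf1_eq] at h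
  exact (hitM_spec h1 h1 hi h tl).imp fun _ k => ⟨k.1, k.2.elim id id⟩

theorem hit1_spec {g : List ℕ} {K x i : ℕ} (h1 : KOK K) (hi : i < g.length)
    (h : Nat.testBit (hitf1 g g.length K x) (RW * i + 44 * QQ) = true) (tl : List ℕ) :
    ∃ y ∈ unp x tl, Le y g[i] K := by
  rw [hitf1_eq] at h
  exact (hit_spec h1 h1 hi h tl).imp fun _ k => ⟨k.1, k.2.elim id id⟩

/-! ### the descent -/

/-- `g` is a generator of a key of `n`, or the image of a generator of a key of an image of `n` -/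
def LaneS (t : T) (n : V) (g : ℕ) : Prop :=
  LaneN t n g ∨ ∃ bl br y, LaneN t (n.sw bl br) y ∧ g = swg bl br y

/-- descent in `t'` with the upper vector `u`; mirror regions go on in `t` -/
noncomputable def goT (M : Mr) (t : T) (h0 : ℕ → ℕ) (hs : Bool → Bool → ℕ → ℕ) (p u : ℕ) (t' : T)
    (nd : ℕ) : Bool :=
  cd (full u) (go h0 (fun l bl br nd => force (par ((bits p).sw bl br)) fun p' =>
    go (hs bl br) (fun _ _ _ _ => false) p' (prm (M.pg bl br) u)
      (prune (prm (M.pg bl br) (shf (usrc l) V.z V.z)) t T.nil) nd) p u t' nd) true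

theorem lane_of {t : T} {n : V} {Q : ℕ → Prop}
    (h : t.Ex (fun l tb => SatL l n ∧ ∃ y ∈ gens (look (par n) tb), Q y)) :
    ∃ y, LaneN t n y ∧ Q y := by
  obtain ⟨y, hy⟩ := T.Ex.ex (P := fun y l tb => (SatL l n ∧ y ∈ gens (look (par n) tb)) ∧ Q y)
    (h.imp fun _ _ ⟨a, y, b, c⟩ => ⟨y, ⟨a, b⟩, c⟩)
  exact ⟨y, hy.const⟩

theorem goT_spec {M : Mr} (hM : M.ok = true) {t : T} (ht : ∀ n, Tot n t) {h0 : ℕ → ℕ}
    {hs : Bool → Bool → ℕ → ℕ} {b : ℕ} (hb : 64 ≤ b) {Q : ℕ → Prop}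
    (hh : ∀ x, Nat.testBit (h0 x) b = true → ∀ tl, ∃ y ∈ unp x tl, Q y)
    (hk : ∀ bl br x, Nat.testBit (hs bl br x) b = true → ∀ tl, ∃ y ∈ unp x tl, Q (swg bl br y))
    {u nd : ℕ} {n : V} (hu : Ub u n) {t' : T} (ht' : Tot n t')
    (hex : ∀ P : ℕ → Tb → Prop, t'.Ex P → t.Ex P)
    (H : goT M t h0 hs (par n) u t' nd = true) (hn : Nat.testBit nd b = true) :
    ∃ y, LaneS t n y ∧ Q y := by
  unfold goT at H
  rw [full_of hu, cd_true] at H
  refine (go_spec hb hh (R := ∃ y, LaneS t n y ∧ Q y) (fun l bl br nd hl hsat k kn => ?_)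
    (fun _ a b => tst_of hu b a) ht' nd H hn).elim (fun k => ?_) id
  · rw [force_eq, ← par_sw] at k
    have u1 := Mr.ub hM bl br hu
    have u2 := Mr.ub hM bl br (ub_prune (dp := V.z) (dn := V.z) (m := n) hl hsat
      ⟨rfl, rfl, rfl, rfl, rfl, rfl⟩ (by decide +kernel))
    have k2 := (go_spec hb (hk bl br) (R := False) (fun _ _ _ _ _ _ z _ => by cases z)
      (fun _ a b => tst_of u1 b a)
      (prune_tot (fun _ a b => tst_of u2 b a) t _ (Or.inl (ht _))) nd k kn).resolve_right id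
    obtain ⟨y, y1, y2⟩ := lane_of ((prune_ex t _ k2).resolve_right id)
    exact ⟨_, Or.inr ⟨bl, br, y, y1, rfl⟩, y2⟩
  · exact (lane_of (hex _ k)).imp fun _ a => ⟨Or.inl a.1, a.2⟩

end Pool.Agent.MP_242484_co.On
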