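import Pool.Agent.MP_242484_co.cert.Sem
import Pool.Agent.MP_242484_co.cert.Mir

/-!
A plan and a context are compiled to a program that contains only the steps depending on the key
and on the generators. The compiled program is a closed term, so the kernel computes it once.
-/

set_option autoImplicit false

namespace Pool.Agent.MP_242484_co.On

def St.szv (s : St) : V := ⟨s.f, s.c, s.g, s.e, s.x, s.y⟩

theorem boxV_of {lo : V} {ex : W} {s : St} (h : Bx lo ex s) : BoxV lo ex s.szv :=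
  ⟨⟨h.1.1, h.1.2.2⟩, ⟨h.2.1.1, h.2.1.2.2⟩, ⟨h.2.2.1.1, h.2.2.1.2.2⟩,
    ⟨h.2.2.2.1.1, h.2.2.2.1.2.2⟩, ⟨h.2.2.2.2.1.1, h.2.2.2.2.1.2.2⟩,
    ⟨h.2.2.2.2.2.1, h.2.2.2.2.2.2.2⟩⟩

/-! ### programs -/

noncomputable def forceB {α : Type} (b : Bool) (k : Bool → α) : α := cd b (k true) (k false)

theorem forceB_eq {α : Type} (b : Bool) (k : Bool → α) : forceB b k = k b := by cases b <;> rfl

noncomputable def forceI {α : Type} (Z : Ix) (k : Ix → α) : α :=
  Z.sel (k .i0) (k .i1) (k .i2) (k .i3) (k .i4) (k .i5)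

theorem forceI_eq {α : Type} (Z : Ix) (k : Ix → α) : forceI Z k = k Z := by cases Z <;> rfl

noncomputable def forceV {α : Type} (a : V) (k : V → α) : α :=
  force a.v0 fun x0 => force a.v1 fun x1 => force a.v2 fun x2 => force a.v3 fun x3 =>
    force a.v4 fun x4 => force a.v5 fun x5 => k ⟨x0, x1, x2, x3, x4, x5⟩

theorem forceV_eq {α : Type} (a : V) (k : V → α) : forceV a k = k a := by
  simp only [forceV, force_eq]

/-- `kvec` with the arguments of `k1` exposed -/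
noncomputable def kvecF (c : Ctx) (dp dn χ : V) : ℕ :=
  @Ctx.rec (fun _ => ℕ) (fun lo ex la lw lev _ _ =>
  @V.rec (fun _ => ℕ) (fun l0 l1 l2 l3 l4 l5 => @W.rec (fun _ => ℕ) (fun e0 e1 e2 e3 e4 e5 =>
  @V.rec (fun _ => ℕ) (fun t0 t1 t2 t3 t4 t5 => @V.rec (fun _ => ℕ) (fun p0 p1 p2 p3 p4 p5 =>
  @V.rec (fun _ => ℕ) (fun n0 n1 n2 n3 n4 n5 => @V.rec (fun _ => ℕ) (fun x0 x1 x2 x3 x4 x5 =>
  force (k1 e0 l0 t0 p0 n0 x0) fun a0 =>
  force (k1 (an e0 e1) (mx la (Nat.add l0 l1)) t1 (Nat.add p0 p1) (Nat.add n0 n1) x1) fun a1 =>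
  force (k1 e2 l2 t2 p2 n2 x2) fun a2 =>
  force (k1 (an e2 e3) (mx lw (Nat.add l2 l3)) t3 (Nat.add p2 p3) (Nat.add n2 n3) x3) fun a3 =>
  force (k1 e4 l4 t4 p4 n4 x4) fun a4 =>
  force (k1 e5 l5 t5 p5 n5 x5) fun a5 =>
  cd (Nat.beq (Nat.mul a0 (Nat.mul a1 (Nat.mul a2 (Nat.mul a3 (Nat.mul a4 a5))))) 0) K16
    (pack a0 a1 a2 a3 a4 a5)) χ) dn) dp) lev) ex) lo) c

theorem kvecF_eq (c : Ctx) (dp dn χ : V) : kvecF c dp dn χ = kvec c dp dn χ := rfl

/-- a coin that marks an empty atom -/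
noncomputable def blockedF (c : Ctx) (m : V) : Bool :=
  @Ctx.rec (fun _ => Bool) (fun lo ex _ _ _ _ _ =>
  @V.rec (fun _ => Bool) (fun l0 l1 l2 l3 l4 l5 => @W.rec (fun _ => Bool) (fun e0 e1 e2 e3 e4 e5 =>
  @V.rec (fun _ => Bool) (fun m0 m1 m2 m3 m4 m5 =>
  oo (an e0 (Nat.ble (Nat.succ l0) m0)) (oo (an e1 (Nat.ble (Nat.succ l1) m1))
    (oo (an e2 (Nat.ble (Nat.succ l2) m2)) (oo (an e3 (Nat.ble (Nat.succ l3) m3))
      (oo (an e4 (Nat.ble (Nat.succ l4) m4)) (an e5 (Nat.ble (Nat.succ l5) m5))))))) m) ex) lo) c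

theorem blockedF_eq (c : Ctx) (m : V) : blockedF c m = blocked c.lo c.ex m := rfl

noncomputable def fitsF (c : Ctx) (dp dn : V) : Bool :=
  @Ctx.rec (fun _ => Bool) (fun lo _ _ _ _ _ _ =>
  @V.rec (fun _ => Bool) (fun l0 l1 l2 l3 l4 l5 => @V.rec (fun _ => Bool) (fun p0 p1 p2 p3 p4 p5 =>
  @V.rec (fun _ => Bool) (fun n0 n1 n2 n3 n4 n5 =>
  an (Nat.ble p0 (Nat.add l0 n0)) (an (Nat.ble p1 (Nat.add l1 n1))
    (an (Nat.ble p2 (Nat.add l2 n2)) (an (Nat.ble p3 (Nat.add l3 n3))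
      (an (Nat.ble p4 (Nat.add l4 n4)) (Nat.ble p5 (Nat.add l5 n5))))))) dn) dp) lo) c

theorem fitsF_eq (c : Ctx) (dp dn : V) : fitsF c dp dn = fits c.lo dp dn := rfl

/-- the upper vector of the box after the move -/
noncomputable def boxF {α : Type} (c : Ctx) (dp dn : V) (z : α) (k : ℕ → α) : α :=
  @Ctx.rec (fun _ => α) (fun lo ex _ _ _ _ _ => forceV (vmv lo dp dn) fun v =>
    cd (an (mvOK dp dn) (Nat.ble (vsum v) 39))
      (force (ubox v ex) k) z) c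

theorem boxF_eq {α : Type} (c : Ctx) (dp dn : V) (z : α) (k : ℕ → α) :
    boxF c dp dn z k = cd (an (mvOK dp dn)
      (Nat.ble (vsum (vmv c.lo dp dn)) 39)) (k (ubox (vmv c.lo dp dn) c.ex)) z := by
  cases c
  simp only [boxF, force_eq, forceV_eq]

def Cnd.triv : Cnd := ⟨0, V.z, 0, V.z⟩

def Cnd.bot : Cnd := ⟨1, V.z, 0, V.z⟩

inductive Pg where
  | tt : Pg
  | ff : Pg
  | and (a b : Pg) : Pg
  | or (a b : Pg) : Pg
  | dyn (k : List ℕ → ℕ → Pg) : Pg
  | mask (M : ℕ) (a b : Pg) : Pg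
  | pick (a : Pg) : Pg
  | runs (k : ℕ → Pg) : Pg
  | ge (Z : Ix) (θ : ℕ) (a : Pg) : Pg
  | lt (Z : Ix) (θ : ℕ) (a : Pg) : Pg
  | lane (i v : ℕ) (a : Pg) : Pg
  | unl (i v : ℕ) (a : Pg) : Pg
  | ref (pr : Bool) (ub dq : ℕ) (dp : V) : Pg
  | dsc (pr : Bool) (ub dq : ℕ) (dp dn : V) (K1 K2 : ℕ) : Pg
  | ds1 (pr : Bool) (ub dq : ℕ) (dp dn : V) (K : ℕ) : Pg

/-- what a program says about the state `s` and the generator `q` -/
def PS (t : T) (s : St) (q : ℕ) : Pg → Prop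
  | .tt => True
  | .ff => False
  | .and a b => PS t s q a ∧ PS t s q b
  | .or a b => PS t s q a ∨ PS t s q b
  | .dyn k => ∃ g nd, PS t s q (k g nd)
  | .mask _ a b => PS t s q a ∨ PS t s q b
  | .pick a => PS t s q a
  | .runs k => ∃ i, PS t s q (k i)
  | .ge Z θ a => θ ≤ fld q Z.sh → PS t s q a
  | .lt Z θ a => fld q Z.sh < θ → PS t s q a
  | .lane i v a => (i < 2 * NF → 1 ≤ v → Cnd.holds ⟨v, col (bar i), 8, col i⟩ s) ∧ PS t s q a
  | .unl i v a => (i < 2 * NF → 1 ≤ v → Cnd.holds ⟨v, col (bar i), 8, col i⟩ s) ∨ PS t s q a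
  | .ref _ ub dq dp => dq = dpar dp V.z → mvOK dp V.z = true →
      ∀ u, ShiftN dp V.z s.szv u → ¬ Ub ub u
  | .dsc _ ub dq dp dn K1 K2 => dq = dpar dp dn → mvOK dp dn = true → KOK K1 → KOK K2 →
      ∀ u, ShiftN dp dn s.szv u → Ub ub u → ∃ l, LaneS t u l ∧ (Le l q K1 ∨ Le l q K2)
  | .ds1 _ ub dq dp dn K => dq = dpar dp dn → mvOK dp dn = true → KOK K →
      ∀ u, ShiftN dp dn s.szv u → Ub ub u → ∃ l, LaneS t u l ∧ Le l q K

noncomputable def enumP (lf : ℕ) (xf : Bool) (lc : ℕ) (xc : Bool) (v : ℕ) (k : ℕ → ℕ → Pg) : Pg :=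
  cd (Nat.ble (Nat.succ v) (Nat.add lf lc)) .tt
    (cd xf (cd (an xc (Nat.ble (Nat.succ (Nat.add lf lc)) v)) .tt (force (Nat.sub v lf) (k lf)))
      (cd xc (force (Nat.sub v lc) (fun i => k i lc))
        (@Nat.rec (fun _ => Pg) .tt
          (fun n ih => .and ih (force (Nat.add lf (Nat.mul 2 n)) fun i =>
            force (Nat.sub v i) (k i)))
          (Nat.succ (Nat.div (Nat.sub v (Nat.add lf lc)) 2)))))

noncomputable def mkD (pf : V → V → ℕ → Bool) (c : Ctx) (dp dn : V) (K1 K2 : ℕ) : Pg :=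
  forceB (pf dp dn K2) fun pr => boxF c dp dn .ff fun a =>
    force (dpar dp dn) fun dq => cd (Nat.beq K2 K16) (.ds1 pr a dq dp dn K1)
      (cd (Nat.beq K1 K16) (.ds1 pr a dq dp dn K2) (.dsc pr a dq dp dn K1 K2))

/-- the value of lane `i` that the condition `k` needs (not trusted) -/
def need (lo : V) (k : Cnd) (i : ℕ) : ℕ :=
  mx 1 (Nat.sub (Nat.add (Nat.add k.l 8) ((k.neg.add (col i)).ip lo))
    (Nat.add k.r ((k.pos.add (col (bar i))).ip lo)))

/-- each condition follows from the box, or from the box and the lane given by its hint -/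
noncomputable def cnds (lo : V) (ex : W) (a : Pg) (cs : List Cnd) : List ℕ → Pg :=
  @List.rec Cnd (fun _ => List ℕ → Pg) (fun _ => a)
    (fun k _ ih hs => @List.rec ℕ (fun _ => Pg) .ff
      (fun i r _ => cd (cchk lo ex k Cnd.triv) (ih r) (force i fun i => force (need lo k i) fun v =>
        cd (an (an (Nat.ble (Nat.succ i) (Nat.mul 2 NF)) (Nat.ble 1 v))
          (cchk lo ex k ⟨v, col (bar i), 8, col i⟩)) (.lane i v (ih r)) .ff)) hs) cs

noncomputable def comp {τ : Type} (sn : τ → Snap) (pf : V → V → ℕ → Bool) (p : Plan τ) :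
    Ctx → Option V → Pg :=
  @Plan.rec τ (fun _ => Ctx → Option V → Pg)
    (fun _ _ => .ff)
    (fun _ _ p q c gl => .or (p c gl) (q c gl))
    (fun _ k c gl => .dyn fun g nd => k c g nd c gl)
    (fun _ k c gl => k c c gl)
    (fun M _ _ p q c gl => .mask M (p c gl) (q c gl))
    (fun _ p c gl => .pick (p c gl))
    (fun _ k c gl => .runs fun i => k i c gl)
    (fun j _ _ p q c gl => @Ctx.rec (fun _ => Pg) (fun lo ex la lw lev uz ut =>
      .and (ex.onK j fun ex' => p ⟨lo, ex', la, lw, lev, uz, ut⟩ gl)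
        (cd (ex.get j) .tt (force (Nat.add (lo.get j) 2) fun v => lo.setK j v fun lo' =>
          q ⟨lo', ex, la, lw, lev, uz, ut⟩ gl))) c)
    (fun _ _ p q c gl => force c.lbA fun v => @Ctx.rec (fun _ => Pg) (fun lo ex _ lw lev uz ut =>
      @V.rec (fun _ => Pg) (fun l0 l1 l2 l3 l4 l5 => @W.rec (fun _ => Pg) (fun e0 e1 e2 e3 e4 e5 =>
        .and (enumP l0 e0 l1 e1 v fun i k =>
            p ⟨⟨i, k, l2, l3, l4, l5⟩, ⟨true, true, e2, e3, e4, e5⟩, v, lw, lev, uz, ut⟩ gl)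
          (cd (an e0 e1) .tt (force (Nat.add v 2) fun v' =>
            q ⟨lo, ex, v', lw, lev, uz, ut⟩ gl))) ex) lo) c)
    (fun _ _ p q c gl => force c.lbW fun v => @Ctx.rec (fun _ => Pg) (fun lo ex la _ lev uz ut =>
      @V.rec (fun _ => Pg) (fun l0 l1 l2 l3 l4 l5 => @W.rec (fun _ => Pg) (fun e0 e1 e2 e3 e4 e5 =>
        .and (enumP l2 e2 l3 e3 v fun i k =>
            p ⟨⟨l0, l1, i, k, l4, l5⟩, ⟨e0, e1, true, true, e4, e5⟩, la, v, lev, uz, ut⟩ gl)
          (cd (an e2 e3) .tt (force (Nat.add v 2) fun v' =>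
            q ⟨lo, ex, la, v', lev, uz, ut⟩ gl))) ex) lo) c)
    (fun Z t _ _ p q c gl => force t fun t => @Ctx.rec (fun _ => Pg) (fun lo ex la lw lev uz ut =>
      .and (p ⟨lo, ex, la, lw, lev, Z, t⟩ gl)
        (lev.setK Z t fun lev' => q ⟨lo, ex, la, lw, lev', uz, ut⟩ gl)) c)
    (fun Z _ p c gl => force (thSk c Z) fun θ => cd (Nat.beq θ 0) (p c gl)
      (forceI Z fun Z => .ge Z θ (p c gl)))
    (fun _ p c gl => cd (Nat.beq c.ut 0) (p c gl) (force (thUp c) fun θ =>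
      cd (Nat.beq θ 0) .tt (forceI c.uz fun Z => .lt Z θ (p c gl))))
    (fun i _ p c gl => force i fun i => @Ctx.rec (fun _ => Pg) (fun lo ex _ _ _ _ _ =>
      force (need lo Cnd.bot i) fun v =>
        cd (an (an (Nat.ble (Nat.succ i) (Nat.mul 2 NF)) (Nat.ble 1 v))
          (cchk lo ex Cnd.bot ⟨v, col (bar i), 8, col i⟩)) (.unl i v (p c gl)) (p c gl)) c)
    (fun dp c _ => forceV dp fun dp => cd (fitsF c dp V.z)
      (forceB (pf dp V.z K16) fun pr => boxF c dp V.z .ff fun a => force (dpar dp V.z) fun dq =>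
        .ref pr a dq dp) .ff)
    (fun t dp dn χ hs c _ => forceV dp fun dp => forceV dn fun dn =>
      cd (an (fitsF c dp dn) (an (redOK c (sn t).gam (sn t).kap dp dn χ) (muOK dp dn χ)))
        (force (kvecF c dp dn χ) fun K => @Ctx.rec (fun _ => Pg) (fun lo ex _ _ _ _ _ =>
          cnds lo ex (mkD pf c dp dn K K16) (sn t).cs hs) c) .ff)
    (fun _ k c _ => @List.rec V (fun _ => Pg) .tt
      (fun m _ ih => cd (blockedF c m) ih (.and (k m c (some m)) ih)) coinL)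
    (fun c gl => @Option.rec V (fun _ => Pg) .ff (fun m => cd (fitsF c m V.z)
      (@V.rec (fun _ => Pg) (fun m0 m1 m2 m3 m4 m5 =>
        force (kvecF c m V.z ⟨0, 0, 0, 0, m4, m5⟩) fun KL =>
          force (kvecF c m V.z ⟨m0, Nat.add m0 m1, m2, Nat.add m2 m3, 0, 0⟩) fun KR =>
            mkD pf c m V.z KL KR) m) .ff) gl)
    p

section eqs

variable {τ : Type} (sn : τ → Snap) (pf : V → V → ℕ → Bool) (c : Ctx) (gl : Option V)

theorem comp_splitA (p r : Plan τ) : comp sn pf (.splitA p r) c gl = force c.lbA fun v =>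
    .and (enumP c.lo.v0 c.ex.b0 c.lo.v1 c.ex.b1 v fun i k =>
      comp sn pf p ⟨⟨i, k, c.lo.v2, c.lo.v3, c.lo.v4, c.lo.v5⟩,
        ⟨true, true, c.ex.b2, c.ex.b3, c.ex.b4, c.ex.b5⟩, v, c.lw, c.lev, c.uz, c.ut⟩ gl)
      (cd (an c.ex.b0 c.ex.b1) .tt (force (Nat.add v 2) fun v' =>
        comp sn pf r ⟨c.lo, c.ex, v', c.lw, c.lev, c.uz, c.ut⟩ gl)) := rfl

theorem comp_splitW (p r : Plan τ) : comp sn pf (.splitW p r) c gl = force c.lbW fun v =>
    .and (enumP c.lo.v2 c.ex.b2 c.lo.v3 c.ex.b3 v fun i k =>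
      comp sn pf p ⟨⟨c.lo.v0, c.lo.v1, i, k, c.lo.v4, c.lo.v5⟩,
        ⟨c.ex.b0, c.ex.b1, true, true, c.ex.b4, c.ex.b5⟩, c.la, v, c.lev, c.uz, c.ut⟩ gl)
      (cd (an c.ex.b2 c.ex.b3) .tt (force (Nat.add v 2) fun v' =>
        comp sn pf r ⟨c.lo, c.ex, c.la, v', c.lev, c.uz, c.ut⟩ gl)) := rfl

theorem comp_raise (Z : Ix) (n : ℕ) (p r : Plan τ) : comp sn pf (.raise Z n p r) c gl =
    force n fun n => .and (comp sn pf p ⟨c.lo, c.ex, c.la, c.lw, c.lev, Z, n⟩ gl)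
      (c.lev.setK Z n fun lev' =>
        comp sn pf r ⟨c.lo, c.ex, c.la, c.lw, lev', c.uz, c.ut⟩ gl) := rfl

theorem comp_skip (Z : Ix) (p : Plan τ) : comp sn pf (.skip Z p) c gl =
    force (thSk c Z) fun θ => cd (Nat.beq θ 0) (comp sn pf p c gl)
      (forceI Z fun Z => .ge Z θ (comp sn pf p c gl)) := rfl

theorem comp_skipUp (p : Plan τ) : comp sn pf (.skipUp p) c gl =
    cd (Nat.beq c.ut 0) (comp sn pf p c gl) (force (thUp c) fun θ =>
      cd (Nat.beq θ 0) .tt (forceI c.uz fun Z => .lt Z θ (comp sn pf p c gl))) := rfl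

theorem comp_unl (i : ℕ) (p : Plan τ) : comp sn pf (.unl i p) c gl =
    force i fun i => force (need c.lo Cnd.bot i) fun v =>
      cd (an (an (Nat.ble (Nat.succ i) (Nat.mul 2 NF)) (Nat.ble 1 v))
        (cchk c.lo c.ex Cnd.bot ⟨v, col (bar i), 8, col i⟩)) (.unl i v (comp sn pf p c gl))
        (comp sn pf p c gl) := rfl

theorem comp_refute (dp : V) : comp sn pf (.refute dp) c gl = forceV dp fun dp =>
    cd (fits c.lo dp V.z)
      (forceB (pf dp V.z K16) fun pr => boxF c dp V.z .ff fun a => force (dpar dp V.z) fun dq =>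
        .ref pr a dq dp) .ff := rfl

theorem comp_act (i : τ) (dp dn χ : V) (hs : List ℕ) : comp sn pf (.act i dp dn χ hs) c gl =
    forceV dp fun dp => forceV dn fun dn =>
      cd (an (fits c.lo dp dn) (an (redOK c (sn i).gam (sn i).kap dp dn χ) (muOK dp dn χ)))
        (force (kvec c dp dn χ) fun K => cnds c.lo c.ex (mkD pf c dp dn K K16) (sn i).cs hs)
        .ff := rfl

theorem comp_tgt (m : V) : comp sn pf .tgt c (some m) = cd (fits c.lo m V.z)
    (force (kvec c m V.z ⟨0, 0, 0, 0, m.v4, m.v5⟩) fun KL =>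
      force (kvec c m V.z ⟨m.v0, Nat.add m.v0 m.v1, m.v2, Nat.add m.v2 m.v3, 0, 0⟩) fun KR =>
        mkD pf c m V.z KL KR) .ff := rfl

end eqs

def Lane (t : T) (u : St) (g : ℕ) : Prop := LaneS t u.szv g

section sound

variable {t : T} {s : St} {q : ℕ}

theorem PS_cd {b : Bool} {x y : Pg} (h : PS t s q (cd b x y)) :
    (b = true ∧ PS t s q x) ∨ (b = false ∧ PS t s q y) := by
  cases b
  · exact Or.inr ⟨rfl, h⟩
  · exact Or.inl ⟨rfl, h⟩

theorem PS_ff {b : Bool} {x : Pg} (h : PS t s q (cd b x .ff)) : b = true ∧ PS t s q x :=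
  (PS_cd h).resolve_right fun k => k.2

theorem PS_rec {f : ℕ → Pg} {N : ℕ}
    (h : PS t s q (@Nat.rec (fun _ => Pg) .tt (fun n ih => .and ih (f n)) N)) :
    ∀ n < N, PS t s q (f n) := by
  induction N with
  | zero => intro n hn; omega
  | succ M ih =>
    intro n hn
    by_cases e : n = M
    · rw [e]; exact h.2
    · exact ih h.1 n (by omega)

theorem PS_enum {lf lc v f c : ℕ} {xf xc : Bool} {k : ℕ → ℕ → Pg}
    (h : PS t s q (enumP lf xf lc xc v k)) (hf : A1 lf xf f) (hc : A1 lc xc c) (hv : f + c = v) :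
    PS t s q (k f c) := by
  unfold A1 at hf hc
  unfold enumP at h
  rcases PS_cd h with ⟨h, -⟩ | ⟨-, h⟩
  · simp only [Nat.ble_eq, Nat.add_eq] at h; omega
  cases xf
  · cases xc
    · have := PS_rec (f := fun n => force (Nat.add lf (Nat.mul 2 n)) fun i =>
          force (Nat.sub v i) (k i)) h ((f - lf) / 2) (by
        show _ < (v - (lf + lc)) / 2 + 1
        omega)
      simp only [force_eq, Nat.add_eq, Nat.mul_eq, Nat.sub_eq] at this
      rwa [show lf + 2 * ((f - lf) / 2) = f by omega, show v - f = c by omega] at this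
    · have e := hc.2.2 rfl
      simp only [cd_true, cd_false, force_eq, Nat.sub_eq] at h
      rwa [show v - lc = f by omega, ← e] at h
  · have e := hf.2.2 rfl
    rw [cd_true] at h
    rcases PS_cd h with ⟨h, -⟩ | ⟨-, h⟩
    · simp only [an_iff, Nat.ble_eq, Nat.add_eq] at h
      have := hc.2.2 h.1
      omega
    · simp only [force_eq, Nat.sub_eq] at h
      rwa [show v - lf = c by omega, ← e] at h

theorem PS_mkD {pf : V → V → ℕ → Bool} {c : Ctx} {dp dn : V} {K1 K2 : ℕ}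
    (h : PS t s q (mkD pf c dp dn K1 K2)) (h1 : KOK K1) (h2 : KOK K2) (hb : Bx c.lo c.ex s)
    {u : St} (hd : Shift dp dn s u) : ∃ l, Lane t u l ∧ (Le l q K1 ∨ Le l q K2) := by
  unfold mkD at h
  rw [forceB_eq, boxF_eq, force_eq] at h
  obtain ⟨e, h⟩ := PS_ff h
  obtain ⟨e1, e2⟩ := an_iff.1 e
  have a1 := e1
  have a2 : Ub (ubox (vmv c.lo dp dn) c.ex) u.szv :=
    ubox_ub ((boxV_of hb).mv (m := u.szv) hd) (Nat.le_of_ble_eq_true e2)
  rcases PS_cd h with ⟨-, h⟩ | ⟨-, h⟩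
  · exact (h rfl a1 h1 u.szv hd a2).imp fun _ k => ⟨k.1, Or.inl k.2⟩
  rcases PS_cd h with ⟨-, h⟩ | ⟨-, h⟩
  · exact (h rfl a1 h2 u.szv hd a2).imp fun _ k => ⟨k.1, Or.inr k.2⟩
  · exact h rfl a1 h1 h2 u.szv hd a2

theorem PS_cnds {lo : V} {ex : W} {a : Pg} (hb : Bx lo ex s) {cs : List Cnd} :
    ∀ {hs : List ℕ}, PS t s q (cnds lo ex a cs hs) → (∀ k ∈ cs, k.holds s) ∧ PS t s q a := by
  induction cs with
  | nil => intro hs h; exact ⟨fun k hk => (by cases hk), h⟩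
  | cons k cs ih =>
    intro hs h
    cases hs with
    | nil => cases h
    | cons i r =>
      have h' : PS t s q (cd (cchk lo ex k Cnd.triv) (cnds lo ex a cs r) (force i fun i =>
        force (need lo k i) fun v =>
          cd (an (an (Nat.ble (Nat.succ i) (Nat.mul 2 NF)) (Nat.ble 1 v))
            (cchk lo ex k ⟨v, col (bar i), 8, col i⟩)) (.lane i v (cnds lo ex a cs r)) .ff)) := h
      have fin : k.holds s → PS t s q (cnds lo ex a cs r) →
          (∀ x ∈ k :: cs, x.holds s) ∧ PS t s q a := fun a1 a2 =>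
        ⟨fun x hx => (List.mem_cons.1 hx).elim (fun e => e ▸ a1) ((ih a2).1 x), (ih a2).2⟩
      rcases PS_cd h' with ⟨e, h'⟩ | ⟨-, h'⟩
      · exact fin (cchk_spec e hb le_rfl) h'
      · rw [force_eq, force_eq] at h'
        obtain ⟨e, h'⟩ := PS_ff h'
        obtain ⟨e1, e2⟩ := an_iff.1 e
        obtain ⟨e0, e1⟩ := an_iff.1 e1
        exact fin (cchk_spec e2 hb (h'.1 (Nat.le_of_ble_eq_true e0) (Nat.le_of_ble_eq_true e1)))
          h'.2

theorem PS_coins {c : Ctx} {f : V → Pg} {l : List V}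
    (h : PS t s q (@List.rec V (fun _ => Pg) .tt
      (fun m _ ih => cd (blockedF c m) ih (.and (f m) ih)) l)) :
    ∀ m ∈ l, blocked c.lo c.ex m = true ∨ PS t s q (f m) := by
  induction l with
  | nil => intro m hm; cases hm
  | cons a r ih =>
    intro m hm
    rcases PS_cd h with ⟨e, h⟩ | ⟨-, h⟩
    · rcases List.mem_cons.1 hm with rfl | hm
      · exact Or.inl e
      · exact ih h m hm
    · rcases List.mem_cons.1 hm with rfl | hm
      · exact Or.inr h.1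
      · exact ih h.2 m hm

theorem comp_sound {τ : Type} {sn : τ → Snap} (hsn : ∀ i, (sn i).Valid)
    {pf : V → V → ℕ → Bool} (IH : ∀ u, mu u < mu s → InvS (Lane t) u → LW u) (hs : Sat s q)
    (p : Plan τ) : ∀ c gl, PS t s q (comp sn pf p c gl) → c.ok s q → Goal gl s := by
  induction p with
  | fail => intro c gl h; cases h
  | orE p r ip ir => intro c gl h hc; exact h.elim (ip c gl · hc) (ir c gl · hc)
  | look k ik => rintro c gl ⟨g, nd, h⟩ hc; exact ik c g nd c gl h hc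
  | see k ik => intro c gl h hc; exact ik c c gl h hc
  | mask M p r ip ir => intro c gl h hc; exact h.elim (ip c gl · hc) (ir c gl · hc)
  | pick p ip => intro c gl h hc; exact ip c gl h hc
  | runs k ik => rintro c gl ⟨i, h⟩ hc; exact ik i c gl h hc
  | split j p r ip ir =>
    rintro c gl ⟨h1, h2⟩ hc
    rw [W.onK_eq] at h1
    rcases PS_cd h2 with ⟨e, -⟩ | ⟨-, h2⟩
    · exact ip _ gl h1 ⟨hc.1.on j e, hc.2⟩
    rw [force_eq, V.setK_eq] at h2
    rcases hc.1.split j with k | k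
    · exact ip _ gl h1 ⟨k, hc.2⟩
    · exact ir _ gl h2 ⟨k, hc.2⟩
  | splitA p r ip ir =>
    intro c gl h hc
    rw [comp_splitA, force_eq] at h
    obtain ⟨h1, h2⟩ := h
    have z : A1 c.lbA (an c.ex.b0 c.ex.b1) (s.f + s.c) := hc.set .i1
    obtain ⟨⟨b0, b1, b⟩, ha, hr⟩ := hc
    rcases z.split with k | k
    · exact ip _ gl (PS_enum h1 b0 b1 (k.2.2 rfl))
        ⟨⟨⟨le_rfl, rfl, fun _ => rfl⟩, ⟨le_rfl, rfl, fun _ => rfl⟩, b⟩,
          ⟨k.1, k.2.1, fun e => by cases e⟩, hr⟩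
    · rcases PS_cd h2 with ⟨e, -⟩ | ⟨-, e⟩
      · have := k.2.2 e
        have := z.2.2 e
        simp only [Nat.add_eq] at *
        omega
      · rw [force_eq] at e
        exact ir _ gl e ⟨⟨b0, b1, b⟩, ⟨k.1, k.2.1, fun e => by cases e⟩, hr⟩
  | splitW p r ip ir =>
    intro c gl h hc
    rw [comp_splitW, force_eq] at h
    obtain ⟨h1, h2⟩ := h
    have z : A1 c.lbW (an c.ex.b2 c.ex.b3) (s.g + s.e) := hc.set .i3
    obtain ⟨⟨a0, a1, b0, b1, b⟩, ha, hw, hr⟩ := hc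
    rcases z.split with k | k
    · exact ip _ gl (PS_enum h1 b0 b1 (k.2.2 rfl))
        ⟨⟨a0, a1, ⟨le_rfl, rfl, fun _ => rfl⟩, ⟨le_rfl, rfl, fun _ => rfl⟩, b⟩, ha,
          ⟨k.1, k.2.1, fun e => by cases e⟩, hr⟩
    · rcases PS_cd h2 with ⟨e, -⟩ | ⟨-, e⟩
      · have := k.2.2 e
        have := z.2.2 e
        simp only [Nat.add_eq] at *
        omega
      · rw [force_eq] at e
        exact ir _ gl e ⟨⟨a0, a1, b0, b1, b⟩, ha, ⟨k.1, k.2.1, fun e => by cases e⟩, hr⟩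
  | raise Z r p p' ip ir =>
    intro c gl h hc
    rw [comp_raise, force_eq, V.setK_eq] at h
    obtain ⟨h1, h2⟩ := h
    obtain ⟨b, ha, hw, hl, hu⟩ := hc
    by_cases k : L1 r (s.sz Z) (fld q Z.sh)
    · exact ir _ gl h2 ⟨b, ha, hw, hl.set Z k, hu⟩
    · exact ip _ gl h1 ⟨b, ha, hw, hl, Or.inr k⟩
  | skip Z p ip =>
    intro c gl h hc
    rw [comp_skip, force_eq, forceI_eq] at h
    rcases PS_cd h with ⟨-, h⟩ | ⟨-, h⟩
    · exact ip c gl h hc
    · exact ip c gl (h (thSk_le hc Z)) hc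
  | skipUp p ip =>
    intro c gl h hc
    rw [comp_skipUp, force_eq, forceI_eq] at h
    rcases PS_cd h with ⟨-, h⟩ | ⟨e, h⟩
    · exact ip c gl h hc
    have k := lt_thUp hc (Nat.ne_of_beq_eq_false e)
    rcases PS_cd h with ⟨e2, -⟩ | ⟨-, h⟩
    · have := Nat.eq_of_beq_eq_true e2
      omega
    · exact ip c gl (h k) hc
  | unl i p ip =>
    intro c gl h hc
    rw [comp_unl, force_eq, force_eq] at h
    rcases PS_cd h with ⟨e, h⟩ | ⟨-, h⟩
    · obtain ⟨e1, e2⟩ := an_iff.1 e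
      obtain ⟨e0, e1⟩ := an_iff.1 e1
      rcases h with h | h
      · have k := cchk_spec e2 hc.1 (h (Nat.le_of_ble_eq_true e0) (Nat.le_of_ble_eq_true e1))
        simp [Cnd.holds, Cnd.bot, V.dot, V.z] at k
      · exact ip c gl h hc
    · exact ip c gl h hc
  | refute dp =>
    intro c gl h hc
    rw [comp_refute, forceV_eq] at h
    obtain ⟨e, h⟩ := PS_ff h
    rw [forceB_eq, boxF_eq, force_eq] at h
    obtain ⟨e', h⟩ := PS_ff h
    obtain ⟨e1, e2⟩ := an_iff.1 e'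
    have sh : ShiftN dp V.z s.szv (s.mv dp V.z V.z).szv := fits_shift e hc.1 V.z
    exact absurd (ubox_ub ((boxV_of hc.1).mv sh) (Nat.le_of_ble_eq_true e2))
      (h rfl e1 (s.mv dp V.z V.z).szv sh)
  | act i dp dn χ hs' =>
    intro c gl h hc
    rw [comp_act, forceV_eq, forceV_eq] at h
    obtain ⟨e, h⟩ := PS_ff h
    obtain ⟨h1, e⟩ := an_iff.1 e
    obtain ⟨h2, h3⟩ := an_iff.1 e
    rw [force_eq] at h
    have h := PS_cnds hc.1 h
    have sh := fits_shift h1 hc.1 χ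
    obtain ⟨kk, st⟩ := kvec_spec hc hs sh
    obtain ⟨l, hl, k | k⟩ := PS_mkD h.2 kk KOK16 hc.1 sh
    · obtain ⟨pd, st⟩ := st l k
      exact Goal.of (hsn i s _ h.1 (redOK_spec h2 hc pd sh)
        (IH _ (muOK_spec h3 pd sh) ⟨l, hl, st⟩))
    · exact absurd k (not_Le16 _ _)
  | coins k ik =>
    intro c gl h hc
    refine Goal.of (LW.intro fun m hk => ?_)
    rcases PS_coins (f := fun m => comp sn pf (k m) c (some m)) h _ (coin_mem hk) with e | e
    · exact absurd hk (blocked_spec e hc.1)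
    · exact ik _ c _ e hc hk
  | tgt =>
    intro c gl h hc
    cases gl with
    | none => cases h
    | some m =>
      rw [comp_tgt] at h
      obtain ⟨h1, h⟩ := PS_ff h
      rw [force_eq, force_eq] at h
      intro hk
      have hk' := hk
      obtain ⟨⟨-, -, -, -, f0, f1, f2, f3, f4, f5⟩, -, f6⟩ := hk'
      simp only [V.coin] at f0 f1 f2 f3 f4 f5 f6
      have shL := fits_shift h1 hc.1 ⟨0, 0, 0, 0, m.v4, m.v5⟩
      have shR := fits_shift h1 hc.1 ⟨m.v0, Nat.add m.v0 m.v1, m.v2, Nat.add m.v2 m.v3, 0, 0⟩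
      obtain ⟨kL, sL⟩ := kvec_spec hc hs shL
      obtain ⟨kR, sR⟩ := kvec_spec hc hs shR
      obtain ⟨l, hl, k | k⟩ := PS_mkD h kL kR hc.1 shL
      · obtain ⟨pd, st⟩ := sL l k
        refine Or.inl ⟨⟨pd.2.2.2.2.1, pd.2.2.2.2.2⟩, IH _ ?_ ⟨l, hl, st⟩⟩
        simp only [mu, St.goL, V.coin]
        omega
      · obtain ⟨pd, st⟩ := sR l k
        refine Or.inr ⟨⟨pd.1, pd.2.1, pd.2.2.1, pd.2.2.2.1⟩, IH _ ?_ ⟨l, hl, st⟩⟩
        simp only [mu, St.goR, V.coin]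
        omega

end sound

end Pool.Agent.MP_242484_co.On
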