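import Pool.Agent.MP_242484_co.cert.Lane

/-!
The test of all generators of a source against all generators of a target.
-/

set_option autoImplicit false

namespace Pool.Agent.MP_242484_co.On

theorem RW_eq : RW = 44 * (QQ + 1) := by decide
theorem LM_eq : LM = 2 ^ 44 := by decide +kernel
theorem NB_eq : NB = 2 ^ (44 * QQ) := by decide +kernel
theorem OQ_lo : ∀ j < QQ + 1, ln 44 OQ j = 1 := by decide +kernel
theorem OQ_lt : OQ < 2 ^ RW := by decide +kernel
theorem FM_lo : ∀ j < QQ, ln 44 FM j = MM + 2 ^ 36 := by decide +kernel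
theorem FM_lt : FM < 2 ^ (44 * QQ) := by decide +kernel
theorem top_lt : TL * OQ + RK < 2 ^ RW := by decide +kernel
theorem RK_bit : Nat.testBit RK (44 * QQ) = false := by decide +kernel

theorem OQ_ln (j : ℕ) : ln 44 OQ j = if j < QQ + 1 then 1 else 0 := by
  split
  · exact OQ_lo j ‹_›
  · exact ln_hi (m := QQ + 1) (by rw [← RW_eq]; exact OQ_lt) (by omega)

theorem ln_cons {w a M : ℕ} (h : a < 2 ^ w) (i : ℕ) :
    ln w (a + M * 2 ^ w) i = if i = 0 then a else ln w M (i - 1) := by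
  cases i with
  | zero => rw [ln_at0, Nat.add_mul_mod_self_right, if_pos rfl, Nat.mod_eq_of_lt h]
  | succ i =>
    rw [ln_succ, Nat.add_mul_div_right _ _ (Nat.two_pow_pos w), Nat.div_eq_of_lt h, Nat.zero_add,
      if_neg (Nat.succ_ne_zero i), Nat.add_sub_cancel]

theorem one_lt_row : 1 < 2 ^ RW := Nat.one_lt_two_pow (by decide)

theorem rep_ln (m i : ℕ) : ln RW (rep m) i = if i < m then 1 else 0 := by
  induction m generalizing i with
  | zero => exact ln_zero _ _
  | succ m ih =>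
    have e : rep (m + 1) = 1 + rep m * 2 ^ RW := by
      show (rep m) <<< RW + 1 = _
      rw [Nat.shiftLeft_eq, Nat.add_comm]
    rw [e, ln_cons one_lt_row, ih]
    split_ifs <;> omega

theorem mulrep_ln {x : ℕ} (h : x < 2 ^ RW) (m i : ℕ) :
    ln RW (x * rep m) i = if i < m then x else 0 := by
  rw [ln_mul (fun j => by
    rw [rep_ln]; split
    · rwa [Nat.mul_one]
    · rw [Nat.mul_zero]; exact Nat.two_pow_pos _), rep_ln]
  split
  · exact Nat.mul_one x
  · exact Nat.mul_zero x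

theorem lane_row (N k : ℕ) : ln 44 N k = ln 44 (ln RW N (k / (QQ + 1))) (k % (QQ + 1)) := by
  rw [RW_eq, ln_ln (Nat.mod_lt _ (Nat.succ_pos _)), Nat.div_add_mod]

theorem mulOQ_ln {c : ℕ} (h : c < 2 ^ 44) (j : ℕ) :
    ln 44 (c * OQ) j = if j < QQ + 1 then c else 0 := by
  rw [ln_mul (fun j => by rw [OQ_ln]; split <;> omega), OQ_ln]
  split <;> omega

theorem mulOQ_lt {c : ℕ} (h : c < 2 ^ 44) : c * OQ < 2 ^ RW := by
  rw [RW_eq]
  exact lt_of_ln (by decide) (fun k hk => by rw [mulOQ_ln h, if_neg (by omega)])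

theorem cful_ln {c : ℕ} (h : c < 2 ^ 44) (m k : ℕ) :
    ln 44 (c * ful m) k = if k / (QQ + 1) < m then c else 0 := by
  have e : c * ful m = (c * OQ) * rep m := (Nat.mul_assoc c OQ (rep m)).symm
  rw [e, lane_row, mulrep_ln (mulOQ_lt h)]
  split
  · rw [mulOQ_ln h, if_pos (Nat.mod_lt _ (Nat.succ_pos _))]
  · exact ln_zero _ _

theorem and_MM_le (q : ℕ) : q &&& MM ≤ 16361780175 := Nat.and_le_right

theorem spr_ln (g : List ℕ) (i : ℕ) : ln RW (spr g) i = g.getD i 0 &&& MM := by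
  induction g generalizing i with
  | nil => show ln RW 0 i = _; rw [ln_zero]; simp
  | cons q t ih =>
    have e : spr (q :: t) = (q &&& MM) + spr t * 2 ^ RW := by
      show (q &&& MM) + (spr t) <<< RW = _
      rw [Nat.shiftLeft_eq]
    have h : q &&& MM < 2 ^ RW :=
      lt_of_le_of_lt (and_MM_le q) (by decide +kernel)
    rw [e, ln_cons h]
    cases i with
    | zero => simp
    | succ i => rw [if_neg (Nat.succ_ne_zero i), Nat.add_sub_cancel, ih]; simp

theorem sprOQ_ln (g : List ℕ) (k : ℕ) :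
    ln 44 (spr g * OQ) k = g.getD (k / (QQ + 1)) 0 &&& MM := by
  have h : ∀ q, q &&& MM < 2 ^ 44 := fun q => lt_of_le_of_lt (and_MM_le q) (by decide)
  rw [lane_row, Nat.mul_comm, ln_mul (fun j => by
    rw [spr_ln, Nat.mul_comm]; exact mulOQ_lt (h _)), spr_ln, Nat.mul_comm, mulOQ_ln (h _),
    if_pos (Nat.mod_lt _ (Nat.succ_pos _))]

theorem KOK.bd {K : ℕ} (h : KOK K) : 17452565520 ≤ K ∧ K ≤ 52357696560 := by
  obtain ⟨a, b, c, d, e, f, h0, h1, h2, h3, h4, h5, rfl⟩ := h
  simp only [pack, Nat.add_eq, Nat.mul_eq]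
  omega

theorem arow_ln {g : List ℕ} {K : ℕ} (hK : KOK K) (k : ℕ) :
    ln 44 (arow g g.length K) k = if k / (QQ + 1) < g.length then
      (g.getD (k / (QQ + 1)) 0 &&& MM) + K + 2 ^ 37 else 0 := by
  have hb := hK.bd
  have hc : K + B37 < 2 ^ 44 := by unfold B37; omega
  show ln 44 (spr g * OQ + (K + B37) * ful g.length) k = _
  rw [ln_add (fun j => by
    have := and_MM_le (g.getD (j / (QQ + 1)) 0)
    rw [sprOQ_ln, cful_ln hc]; unfold B37; split <;> omega), sprOQ_ln, cful_ln hc]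
  split
  · unfold B37; omega
  · rw [List.getD_eq_default _ _ (by omega), Nat.zero_and]

theorem tgt_ln (x m k : ℕ) : ln 44 ((x &&& FM) * rep m) k =
    if k / (QQ + 1) < m ∧ k % (QQ + 1) < QQ then ln 44 x (k % (QQ + 1)) &&& (MM + 2 ^ 36)
    else 0 := by
  have h : x &&& FM < 2 ^ RW := by
    refine lt_of_le_of_lt Nat.and_le_right (lt_of_lt_of_le FM_lt ?_)
    exact Nat.pow_le_pow_right (by decide) (by rw [RW_eq]; omega)
  rw [lane_row, mulrep_ln h]
  by_cases h1 : k / (QQ + 1) < m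
  · rw [if_pos h1, ln_and]
    by_cases h2 : k % (QQ + 1) < QQ
    · rw [if_pos ⟨h1, h2⟩, FM_lo _ h2]
    · rw [if_neg (fun e => h2 e.2), ln_hi FM_lt (by omega), Nat.and_zero]
  · rw [if_neg h1, if_neg (fun e => h1 e.1), ln_zero]

theorem and_valid (y : ℕ) :
    y &&& (MM + 2 ^ 36) = (y &&& MM) + 2 ^ 36 * (y / 2 ^ 36 % 2) := by
  have h1 : (y &&& (MM + 2 ^ 36)) % 2 ^ 36 = y &&& MM := by
    rw [Nat.and_mod_two_pow, show (MM + 2 ^ 36) % 2 ^ 36 = MM % 2 ^ 36 by decide,
      ← Nat.and_mod_two_pow]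
    exact Nat.mod_eq_of_lt (lt_of_le_of_lt (and_MM_le y) (by decide))
  have h2 : (y &&& (MM + 2 ^ 36)) / 2 ^ 36 = y / 2 ^ 36 % 2 := by
    rw [Nat.and_div_two_pow, show (MM + 2 ^ 36) / 2 ^ 36 = 2 ^ 1 - 1 by decide,
      Nat.and_two_pow_sub_one_eq_mod]
  have := Nat.div_add_mod (y &&& (MM + 2 ^ 36)) (2 ^ 36)
  omega

/-- one lane of the test -/
theorem lane_hit {q K y r : ℕ} (hK : KOK K) (hr : r = 0 ∨ r = y &&& (MM + 2 ^ 36))
    (h : 2 ^ 43 ≤ (((q &&& MM) + K + 2 ^ 37 - r) &&& HL) + KL) :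
    r ≠ 0 ∧ Le y q K := by
  have hb := hK.bd
  have hq := and_MM_le q
  have hy := and_MM_le y
  have h1 : ((q &&& MM) + K + 2 ^ 37 - r) &&& HL = HL := by
    have : ((q &&& MM) + K + 2 ^ 37 - r) &&& HL ≤ HL := Nat.and_le_right
    unfold HL KL at *
    omega
  have h2 := land_bit h1 36 (by decide +kernel)
  rcases hr with rfl | hr
  · omega
  rw [and_valid] at hr
  have h3 : y / 2 ^ 36 % 2 = 1 := by omega
  refine ⟨by omega, hit_le hK ?_⟩
  have h4 := congrArg (fun z => z % 2 ^ 36) h1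
  simp only [Nat.and_mod_two_pow] at h4
  rwa [show HL % 2 ^ 36 = GG by decide,
    show ((q &&& MM) + K + 2 ^ 37 - r) % 2 ^ 36 = (q &&& MM) + K - (y &&& MM) by omega] at h4

theorem mem_unp (tl : List ℕ) {x j : ℕ} (hj : j < QQ) (h : ln 44 x j ≠ 0) :
    ln 44 x j ∈ unp x tl := by
  unfold unp
  generalize QQ = f at hj
  induction f generalizing x j with
  | zero => omega
  | succ f ih =>
    have hx : Nat.beq x 0 = false := by
      cases x with
      | zero => exact absurd (ln_zero _ _) h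
      | succ x => rfl
    show ln 44 x j ∈ (Bool.rec (Nat.mod x LM :: _) tl (Nat.beq x 0) : List ℕ)
    rw [hx]
    cases j with
    | zero =>
      rw [ln_at0, LM_eq]
      exact List.mem_cons_self
    | succ j =>
      rw [ln_succ] at h ⊢
      have e : Nat.shiftRight x 44 = x / 2 ^ 44 := Nat.shiftRight_eq_div_pow x 44
      refine List.mem_cons_of_mem _ ?_
      rw [e]
      exact ih h (by omega)

theorem bit_row (N i : ℕ) :
    Nat.testBit N (RW * i + 44 * QQ) = Nat.testBit (ln RW N i) (44 * QQ) := by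
  rw [ln_eq, Nat.testBit_mod_two_pow, Nat.testBit_div_two_pow, Nat.add_comm,
    decide_eq_true (by rw [RW_eq]; omega : 44 * QQ < RW), Bool.true_and]

theorem need_bit {m i : ℕ} (h : i < m) :
    Nat.testBit (Nat.mul NB (rep m)) (RW * i + 44 * QQ) = true := by
  show Nat.testBit (NB * rep m) _ = true
  rw [bit_row, mulrep_ln (by decide +kernel), if_pos h, NB_eq, Nat.testBit_two_pow_self]

theorem side_ln {g : List ℕ} {K : ℕ} (hK : KOK K) (x k : ℕ) :
    ln 44 (((arow g g.length K - (x &&& FM) * rep g.length) &&& (HL * ful g.length)) +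
      KL * ful g.length) k = if k / (QQ + 1) < g.length then
      (((g.getD (k / (QQ + 1)) 0 &&& MM) + K + 2 ^ 37 - ln 44 ((x &&& FM) * rep g.length) k) &&& HL)
        + KL else 0 := by
  have hH : HL < 2 ^ 44 := by decide
  have hL : KL < 2 ^ 44 := by decide
  have t := ln_sub (w := 44) (by decide) (A := arow g g.length K)
    (B := (x &&& FM) * rep g.length) (fun j => by
      rw [arow_ln hK, tgt_ln]
      split
      · rename_i h
        have : ln 44 x (j % (QQ + 1)) &&& (MM + 2 ^ 36) ≤ MM + 2 ^ 36 := Nat.and_le_right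
        rw [if_pos h.1]
        unfold MM at *
        omega
      · exact Nat.zero_le _)
  rw [ln_add (fun j => by
    have : ln 44 (arow g g.length K - (x &&& FM) * rep g.length) j &&&
      ln 44 (HL * ful g.length) j ≤ ln 44 (HL * ful g.length) j := Nat.and_le_right
    rw [ln_and]
    rw [cful_ln hH] at this ⊢
    rw [cful_ln hL]
    unfold HL KL at *
    split <;> simp_all <;> omega), ln_and, t, arow_ln hK, cful_ln hH, cful_ln hL]
  split
  · rfl
  · rw [Nat.and_zero]

theorem hit_spec {g : List ℕ} {K1 K2 x i : ℕ} (h1 : KOK K1) (h2 : KOK K2) (hi : i < g.length)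
    (h : Nat.testBit (hitf g g.length K1 K2 x) (RW * i + 44 * QQ) = true) (tl : List ℕ) :
    ∃ y ∈ unp x tl, Le y g[i] K1 ∨ Le y g[i] K2 := by
  have hT : TL < 2 ^ 44 := by decide
  obtain ⟨X1, e1⟩ : ∃ X, X = ((arow g g.length K1 - (x &&& FM) * rep g.length) &&&
    (HL * ful g.length)) + KL * ful g.length := ⟨_, rfl⟩
  obtain ⟨X2, e2⟩ : ∃ X, X = ((arow g g.length K2 - (x &&& FM) * rep g.length) &&&
    (HL * ful g.length)) + KL * ful g.length := ⟨_, rfl⟩
  have e : hitf g g.length K1 K2 x = ((X1 ||| X2) &&& (TL * ful g.length)) + RK * rep g.length := by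
    rw [e1, e2]; rfl
  have hRK : RK < 2 ^ RW := lt_of_le_of_lt (Nat.le_add_left _ _) top_lt
  have eT : TL * ful g.length = (TL * OQ) * rep g.length := (Nat.mul_assoc _ _ _).symm
  rw [e, bit_row, ln_add (fun j => by
    have a : ln RW (X1 ||| X2) j &&& ln RW (TL * ful g.length) j ≤ ln RW (TL * ful g.length) j :=
      Nat.and_le_right
    have b := top_lt
    rw [ln_and, mulrep_ln hRK]
    rw [eT, mulrep_ln (mulOQ_lt hT)] at a ⊢
    have c := Nat.two_pow_pos RW
    generalize 2 ^ RW = B at *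
    split <;> simp_all <;> omega), mulrep_ln hRK, if_pos hi] at h
  have hne : ln RW ((X1 ||| X2) &&& (TL * ful g.length)) i ≠ 0 := by
    intro z
    rw [z, Nat.zero_add, RK_bit] at h
    cases h
  have hex : ∃ j, ln 44 (ln RW ((X1 ||| X2) &&& (TL * ful g.length)) i) j ≠ 0 := by
    by_contra z
    refine hne (eq_of_ln (w := 44) (by decide) (fun j => ?_))
    rw [ln_zero]
    by_contra z'
    exact z ⟨j, z'⟩
  obtain ⟨j, hj⟩ := hex
  have hjQ : j < QQ + 1 := by
    by_contra z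
    exact hj (ln_hi (m := QQ + 1) (by rw [← RW_eq]; exact ln_lt _ _ _) (by omega))
  rw [RW_eq, ln_ln hjQ] at hj
  have d1 : ((QQ + 1) * i + j) / (QQ + 1) = i := by
    rw [Nat.mul_add_div (Nat.succ_pos _), Nat.div_eq_of_lt hjQ, Nat.add_zero]
  have d2 : ((QQ + 1) * i + j) % (QQ + 1) = j := by
    rw [Nat.mul_add_mod, Nat.mod_eq_of_lt hjQ]
  rw [ln_and, ln_or, cful_ln hT, d1, if_pos hi] at hj
  have hb : Nat.testBit (ln 44 X1 ((QQ + 1) * i + j) ||| ln 44 X2 ((QQ + 1) * i + j)) 43 = true := by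
    by_contra z
    refine hj ?_
    rw [show TL = 2 ^ 43 by decide, Nat.and_two_pow, Bool.eq_false_iff.2 z]
    rfl
  have hr : ln 44 ((x &&& FM) * rep g.length) ((QQ + 1) * i + j) = 0 ∨
      ln 44 ((x &&& FM) * rep g.length) ((QQ + 1) * i + j) = ln 44 x j &&& (MM + 2 ^ 36) := by
    rw [tgt_ln, d2]
    split
    · exact Or.inr rfl
    · exact Or.inl rfl
  have hm : ln 44 ((x &&& FM) * rep g.length) ((QQ + 1) * i + j) ≠ 0 → ln 44 x j ∈ unp x tl := by
    intro z
    rw [tgt_ln, d2] at z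
    split at z
    · rename_i c
      refine mem_unp tl c.2 (fun z' => z ?_)
      rw [z', Nat.zero_and]
    · exact absurd rfl z
  have hg : g.getD i 0 = g[i] := List.getD_eq_getElem _ _ hi
  rw [Nat.testBit_or, Bool.or_eq_true] at hb
  rcases hb with hb | hb
  · have := Nat.ge_two_pow_of_testBit hb
    rw [e1, side_ln h1, d1, if_pos hi, hg] at this
    obtain ⟨a, b⟩ := lane_hit h1 hr this
    exact ⟨_, hm a, Or.inl b⟩
  · have := Nat.ge_two_pow_of_testBit hb
    rw [e2, side_ln h2, d1, if_pos hi, hg] at this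
    obtain ⟨a, b⟩ := lane_hit h2 hr this
    exact ⟨_, hm a, Or.inr b⟩

end Pool.Agent.MP_242484_co.On
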