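import Pool.Agent.MP_242484_co.cert.Lab
import Pool.Agent.MP_242484_co.cert.Pairs

/-!
Soundness of the descent through the search tree, from the lane facts.
-/

set_option autoImplicit false

namespace Pool.Agent.MP_242484_co.On

theorem frc_imp {x : ℕ} {z : Bool} {k : ℕ → Bool} (h : frc x z k = true) (hx : x ≠ 0) :
    k x = true := by
  cases x with
  | zero => exact absurd rfl hx
  | succ y => exact h

theorem len_eq (g : List ℕ) : len g = g.length := by
  induction g with
  | nil => rfl
  | cons a t ih => exact congrArg Nat.succ ih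

theorem tl_unp {x y : ℕ} {tl : List ℕ} (h : y ∈ tl) : y ∈ unp x tl := by
  unfold unp
  generalize QQ = N
  induction N generalizing x with
  | zero => exact h
  | succ M ih =>
    dsimp only
    cases Nat.beq x 0
    · exact List.mem_cons_of_mem _ ih
    · exact h

theorem orz_imp {k : ℕ → Bool} {x b : ℕ} (hb : 64 ≤ b) (h : orz k x = true)
    (hx : Nat.testBit x b = true) : k x = true := by
  unfold orz at h
  cases e : Nat.ble x B64
  · rwa [e] at h
  · have h1 : x ≤ 18446744073709551615 := Nat.le_of_ble_eq_true e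
    have h2 : 2 ^ 64 ≤ 2 ^ b := Nat.pow_le_pow_right (by decide) hb
    rw [Nat.testBit_lt_two_pow (by omega)] at hx
    cases hx

theorem res_spec {h : ℕ → ℕ} {b : ℕ} (hb : 64 ≤ b) {Q : ℕ → Prop}
    (hh : ∀ x, Nat.testBit (h x) b = true → ∀ tl, ∃ y ∈ unp x tl, Q y) {k : ℕ → Bool} {l : L}
    (hl : alive l = true) : ∀ nd, Nat.testBit nd b = true → res h k l nd = true →
      (∃ nd', Nat.testBit nd' b = true ∧ k nd' = true) ∨ ∃ y ∈ gens l, Q y := by
  induction l with
  | d => cases hl
  | e => intro nd hn H; exact Or.inl ⟨nd, hn, H⟩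
  | c x r ih =>
    intro nd hn H
    cases e : Nat.testBit (h x) b
    · have h1 : Nat.testBit (Nat.xor nd (Nat.land (h x) nd)) b = true := by
        show Nat.testBit (nd ^^^ (h x &&& nd)) b = true
        rw [Nat.testBit_xor, Nat.testBit_and, e, hn]; rfl
      have H' : orz (res h k r) (Nat.xor nd (Nat.land (h x) nd)) = true := H
      rcases ih hl _ h1 (orz_imp hb H' h1) with k | ⟨y, hy, hq⟩
      · exact Or.inl k
      · exact Or.inr ⟨y, tl_unp hy, hq⟩
    · exact Or.inr (hh x e _)

theorem flag_le (i : ℕ) : 64 ≤ RW * i + 44 * QQ :=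
  Nat.le_trans (by decide : 64 ≤ 44 * QQ) (Nat.le_add_left _ _)

theorem hitf1_eq (g : List ℕ) (m K x : ℕ) : hitf1 g m K x = hitf g m K K x := by
  have e : ∀ a : ℕ, Nat.lor a a = a := fun a => Nat.or_self a
  unfold hitf hit1
  rw [e]
  rfl

theorem go_co (h : ℕ → ℕ) (mk : ℕ → Bool → Bool → ℕ → Bool) (p u l ce : ℕ) (tb : Tb) (s r : T)
    (nd : ℕ) : go h mk p u (.co l ce tb s r) nd = cd (tst u l)
      (an (res h (go h mk p u s) (look p tb) nd) (go h mk p u r nd)) (go h mk p u r nd) := rfl

theorem go_br (h : ℕ → ℕ) (mk : ℕ → Bool → Bool → ℕ → Bool) (p u l ce : ℕ) (s r : T) (nd : ℕ) :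
    go h mk p u (.br l ce s r) nd = cd (tst u l)
      (an (go h mk p u s nd) (go h mk p u r nd)) (go h mk p u r nd) := rfl

theorem go_pn (h : ℕ → ℕ) (mk : ℕ → Bool → Bool → ℕ → Bool) (p u q : ℕ) (s a b : T) (nd : ℕ) :
    go h mk p u (.pn q s a b) nd = cd (Nat.beq p q) (go h mk p u s nd)
      (cd (Nat.ble p q) (go h mk p u a nd) (go h mk p u b nd)) := rfl

theorem go_mi (h : ℕ → ℕ) (mk : ℕ → Bool → Bool → ℕ → Bool) (p u l ce : ℕ) (bl br : Bool) (r : T)
    (nd : ℕ) : go h mk p u (.mi l ce bl br r) nd = cd (tst u l)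
      (an (mk l bl br nd) (go h mk p u r nd)) (go h mk p u r nd) := rfl

theorem cd_an_right {b x y : Bool} (h : cd b (an x y) y = true) : y = true := by
  cases b
  · exact h
  · exact (an_iff.1 h).2

theorem go_spec {h : ℕ → ℕ} {b : ℕ} (hb : 64 ≤ b) {Q : ℕ → Prop}
    (hh : ∀ x, Nat.testBit (h x) b = true → ∀ tl, ∃ y ∈ unp x tl, Q y) {n : V}
    {mk : ℕ → Bool → Bool → ℕ → Bool} {R : Prop}
    (hm : ∀ l bl br nd, LOK l → SatL l n → mk l bl br nd = true → Nat.testBit nd b = true → R)
    {u : ℕ} (hu : ∀ l, LOK l → SatL l n → tst u l = true) {t : T} (ht : Tot n t) :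
    ∀ nd, go h mk (par n) u t nd = true → Nat.testBit nd b = true →
      t.Ex (fun l tb => SatL l n ∧ ∃ y ∈ gens (look (par n) tb), Q y) ∨ R := by
  induction t with
  | nil => cases ht
  | top => intro nd hg; cases hg
  | co l ce tb s r is ir =>
    intro nd hg hn
    rw [go_co] at hg
    rcases ht with ⟨h1, h2, h3, h4⟩ | ht
    · rw [hu l h1 h2, cd_true, an_iff] at hg
      rcases res_spec hb hh h3 nd hn hg.1 with ⟨nd', k1, k2⟩ | k
      · exact (is h4 _ k2 k1).imp_left fun k => Or.inr (Or.inl k)
      · exact Or.inl (Or.inl ⟨h2, k⟩)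
    · exact (ir ht nd (cd_an_right hg) hn).imp_left fun k => Or.inr (Or.inr k)
  | br l ce s r is ir =>
    intro nd hg hn
    rw [go_br] at hg
    rcases ht with ⟨h1, h2, h4⟩ | ht
    · rw [hu l h1 h2, cd_true, an_iff] at hg
      exact (is h4 nd hg.1 hn).imp_left Or.inl
    · exact (ir ht nd (cd_an_right hg) hn).imp_left Or.inr
  | pn q s x y is ia ib =>
    intro nd hg hn
    rw [go_pn] at hg
    unfold Tot at ht
    cases e : Nat.beq (par n) q
    · rw [e, cd_false] at hg
      rw [if_neg (Nat.ne_of_beq_eq_false e)] at ht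
      cases e2 : Nat.ble (par n) q
      · rw [e2, cd_false] at hg
        rw [if_neg (by rw [← Nat.ble_eq, e2]; decide)] at ht
        exact (ib ht nd hg hn).imp_left fun k => Or.inr (Or.inr k)
      · rw [e2, cd_true] at hg
        rw [if_pos (Nat.le_of_ble_eq_true e2)] at ht
        exact (ia ht nd hg hn).imp_left fun k => Or.inr (Or.inl k)
    · rw [e, cd_true] at hg
      rw [if_pos (Nat.eq_of_beq_eq_true e)] at ht
      exact (is ht nd hg hn).imp_left Or.inl
  | mi l ce bl br r ir =>
    intro nd hg hn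
    rw [go_mi] at hg
    rcases ht with ⟨h1, h2⟩ | ht
    · rw [hu l h1 h2, cd_true, an_iff] at hg
      exact Or.inr (hm l bl br nd h1 h2 hg.1 hn)
    · exact ir ht nd (cd_an_right hg) hn

theorem prune_co (u l ce : ℕ) (tb : Tb) (s r a : T) : prune u (.co l ce tb s r) a =
    cd (tst u l) (T.co l 0 tb s (prune u r a)) (prune u r a) := rfl

theorem prune_br (u l ce : ℕ) (s r a : T) : prune u (.br l ce s r) a =
    cd (tst u l) (prune u s (prune u r a)) (prune u r a) := rfl

theorem prune_mi (u l ce : ℕ) (bl br : Bool) (r a : T) : prune u (.mi l ce bl br r) a =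
    cd (tst u l) (T.mi l 0 bl br (prune u r a)) (prune u r a) := rfl

theorem prune_tot {u : ℕ} {n : V} (hu : ∀ l, LOK l → SatL l n → tst u l = true) (t : T) :
    ∀ a, Tot n t ∨ Tot n a → Tot n (prune u t a) := by
  induction t with
  | nil => intro a h; exact h.resolve_left id
  | top => intro a _; trivial
  | co l ce tb s r is ir =>
    intro a h
    rw [prune_co]
    have key : Tot n r ∨ Tot n a → Tot n (cd (tst u l) (T.co l 0 tb s (prune u r a))
        (prune u r a)) := by
      intro k
      cases tst u l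
      · exact ir a k
      · exact Or.inr (ir a k)
    rcases h with (⟨h1, h2, h3, h4⟩ | h) | h
    · rw [hu l h1 h2]
      exact Or.inl ⟨h1, h2, h3, h4⟩
    · exact key (Or.inl h)
    · exact key (Or.inr h)
  | br l ce s r is ir =>
    intro a h
    rw [prune_br]
    have key : Tot n r ∨ Tot n a → Tot n (cd (tst u l) (prune u s (prune u r a))
        (prune u r a)) := by
      intro k
      cases tst u l
      · exact ir a k
      · exact is _ (Or.inr (ir a k))
    rcases h with (⟨h1, h2, h4⟩ | h) | h
    · rw [hu l h1 h2]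
      exact is _ (Or.inl h4)
    · exact key (Or.inl h)
    · exact key (Or.inr h)
  | pn q s x y => intro a _; trivial
  | mi l ce bl br r ir =>
    intro a h
    rw [prune_mi]
    have key : Tot n r ∨ Tot n a → Tot n (cd (tst u l) (T.mi l 0 bl br (prune u r a))
        (prune u r a)) := by
      intro k
      cases tst u l
      · exact ir a k
      · exact Or.inr (ir a k)
    rcases h with (⟨h1, h2⟩ | h) | h
    · rw [hu l h1 h2]
      exact Or.inl ⟨h1, h2⟩
    · exact key (Or.inl h)
    · exact key (Or.inr h)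

theorem prune_ex {u : ℕ} {P : ℕ → Tb → Prop} (t : T) :
    ∀ a, (prune u t a).Ex P → t.Ex P ∨ a.Ex P := by
  induction t with
  | nil => intro a h; exact Or.inr h
  | top => intro a h; exact Or.inl h
  | co l ce tb s r is ir =>
    intro a h
    rw [prune_co] at h
    have key : (prune u r a).Ex P → (T.co l ce tb s r).Ex P ∨ a.Ex P := fun k =>
      (ir a k).imp (fun k => Or.inr (Or.inr k)) id
    cases e : tst u l
    · rw [e] at h; exact key h
    · rw [e] at h
      rcases h with h | h | h
      · exact Or.inl (Or.inl h)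
      · exact Or.inl (Or.inr (Or.inl h))
      · exact key h
  | br l ce s r is ir =>
    intro a h
    rw [prune_br] at h
    have key : (prune u r a).Ex P → (T.br l ce s r).Ex P ∨ a.Ex P := fun k =>
      (ir a k).imp (fun k => Or.inr k) id
    cases e : tst u l
    · rw [e] at h; exact key h
    · rw [e] at h
      rcases is _ h with h | h
      · exact Or.inl (Or.inl h)
      · exact key h
  | pn q s x y => intro a h; cases h
  | mi l ce bl br r ir =>
    intro a h
    rw [prune_mi] at h
    cases e : tst u l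
    · rw [e] at h; exact ir a h
    · rw [e] at h; exact ir a h

theorem T.Ex.imp {P Q : ℕ → Tb → Prop} (h : ∀ l tb, P l tb → Q l tb) {t : T} (H : t.Ex P) :
    t.Ex Q := by
  induction t with
  | nil => exact H
  | top => exact H
  | co l ce tb s r is ir => exact Or.imp (h l tb) (Or.imp is ir) H
  | br l ce s r is ir => exact Or.imp is ir H
  | pn q s x y is ia ib => exact Or.imp is (Or.imp ia ib) H
  | mi l ce bl br r ir => exact ir H

theorem T.Ex.ex {α : Type} {P : α → ℕ → Tb → Prop} {t : T}
    (H : t.Ex (fun l tb => ∃ y, P y l tb)) : ∃ y, t.Ex (P y) := by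
  induction t with
  | nil => cases H
  | top => cases H
  | co l ce tb s r is ir =>
    rcases H with ⟨y, h⟩ | h | h
    · exact ⟨y, Or.inl h⟩
    · exact (is h).imp fun _ k => Or.inr (Or.inl k)
    · exact (ir h).imp fun _ k => Or.inr (Or.inr k)
  | br l ce s r is ir =>
    rcases H with h | h
    · exact (is h).imp fun _ k => Or.inl k
    · exact (ir h).imp fun _ k => Or.inr k
  | pn q s x y is ia ib =>
    rcases H with h | h | h
    · exact (is h).imp fun _ k => Or.inl k
    · exact (ia h).imp fun _ k => Or.inr (Or.inl k)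
    · exact (ib h).imp fun _ k => Or.inr (Or.inr k)
  | mi l ce bl br r ir => exact ir H

theorem T.Ex.const {P : ℕ → Tb → Prop} {c : Prop} {t : T} (H : t.Ex (fun l tb => P l tb ∧ c)) :
    t.Ex P ∧ c := by
  induction t with
  | nil => cases H
  | top => cases H
  | co l ce tb s r is ir =>
    rcases H with h | h | h
    · exact ⟨Or.inl h.1, h.2⟩
    · exact ⟨Or.inr (Or.inl (is h).1), (is h).2⟩
    · exact ⟨Or.inr (Or.inr (ir h).1), (ir h).2⟩
  | br l ce s r is ir =>
    rcases H with h | h
    · exact ⟨Or.inl (is h).1, (is h).2⟩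
    · exact ⟨Or.inr (ir h).1, (ir h).2⟩
  | pn q s x y is ia ib =>
    rcases H with h | h | h
    · exact ⟨Or.inl (is h).1, (is h).2⟩
    · exact ⟨Or.inr (Or.inl (ia h).1), (ia h).2⟩
    · exact ⟨Or.inr (Or.inr (ib h).1), (ib h).2⟩
  | mi l ce bl br r ir => exact ir H

/-! ### the sources -/

theorem allTb_look {f : ℕ → L → Bool} {tb : Tb} (h : allTb f tb = true) {p y : ℕ}
    (hy : y ∈ gens (look p tb)) : f p (look p tb) = true := by
  induction tb with
  | z => cases hy
  | y => cases hy
  | n q l a b ia ib =>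
    have h' : an (f q l) (an (allTb f a) (allTb f b)) = true := h
    simp only [an_iff] at h'
    have e : look p (.n q l a b) = cd (Nat.beq p q) l (cd (Nat.ble p q) (look p a) (look p b)) :=
      rfl
    rw [e] at hy ⊢
    cases e1 : Nat.beq p q
    · rw [e1, cd_false] at hy
      rw [cd_false]
      cases e2 : Nat.ble p q
      · rw [e2] at hy; exact ib h'.2.2 hy
      · rw [e2] at hy; exact ia h'.2.1 hy
    · rw [Nat.eq_of_beq_eq_true e1]; exact h'.1

theorem allT_ex {f : ℕ → ℕ → ℕ → L → Bool} {t : T} {P : ℕ → Tb → Prop} (H : t.Ex P) :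
    ∀ {lg : ℕ}, allT f t lg = true → ∃ lg l tb, P l tb ∧ allTb (f lg l) tb = true := by
  induction t with
  | nil => cases H
  | top => cases H
  | co l ce tb s r is ir =>
    intro lg h
    have h' : an (allTb (f lg l) tb) (an (allT f s l) (allT f r lg)) = true := h
    simp only [an_iff] at h'
    rcases H with k | k | k
    · exact ⟨lg, l, tb, k, h'.1⟩
    · exact is k h'.2.1
    · exact ir k h'.2.2
  | br l ce s r is ir =>
    intro lg h
    have h' : an (allT f s lg) (allT f r lg) = true := h
    simp only [an_iff] at h'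
    exact H.elim (is · h'.1) (ir · h'.2)
  | pn q s x y is ia ib =>
    intro lg h
    have h' : an (allT f s lg) (an (allT f x lg) (allT f y lg)) = true := h
    simp only [an_iff] at h'
    exact H.elim (is · h'.1) fun k => k.elim (ia · h'.2.1) (ib · h'.2.2)
  | mi l ce bl br r ir => intro lg h; exact ir H h

end Pool.Agent.MP_242484_co.On
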