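import Pool.Agent.MP_242484_co.cert.Comp

/-!
Execution of a compiled program at one key. The open generators are a mask on the rows.
-/

set_option autoImplicit false

namespace Pool.Agent.MP_242484_co.On

/-! ### masks -/

theorem fld_MM (q : ℕ) (Z : Ix) : fld (q &&& MM) Z.sh = fld q Z.sh := by
  have b := fld_le q
  obtain ⟨e0, e1, e2, e3, e4, e5⟩ := fld_pack (b 0) (b 6) (b 12) (b 18) (b 24) (b 30)
  rw [land_MM]
  cases Z
  exacts [e0, e1, e2, e3, e4, e5]

theorem ln_shr_low {w sh : ℕ} (h : sh + 4 ≤ w) (S i : ℕ) :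
    ln w (S / 2 ^ sh) i &&& 15 = fld (ln w S i) sh := by
  rw [fld_eq, ln_eq, ln_eq, show (15 : ℕ) = 2 ^ 4 - 1 by decide, Nat.and_two_pow_sub_one_eq_mod,
    show (16 : ℕ) = 2 ^ 4 by decide]
  refine Nat.eq_of_testBit_eq fun j => ?_
  simp only [Nat.testBit_mod_two_pow, Nat.testBit_div_two_pow]
  by_cases k : j < 4
  · rw [decide_eq_true (by omega : j < w), decide_eq_true (by omega : j + sh < w),
      show j + w * i + sh = j + sh + w * i by omega]
  · simp only [k, decide_false, Bool.false_and]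

/-- the flags of the rows whose field at `sh` is at least `θ` -/
noncomputable def geM (g : List ℕ) (m sh θ : ℕ) : ℕ :=
  Nat.shiftLeft (Nat.land (Nat.add (Nat.land (Nat.shiftRight (spr g) sh) (Nat.mul 15 (rep m)))
    (Nat.mul (Nat.sub 16 θ) (rep m))) (Nat.mul 16 (rep m))) (Nat.sub (Nat.mul 44 QQ) 4)

theorem geM_bit {g : List ℕ} {i : ℕ} (hi : i < g.length) (Z : Ix) (θ : ℕ) :
    Nat.testBit (geM g g.length Z.sh θ) (RW * i + 44 * QQ) = decide (θ ≤ fld g[i] Z.sh) := by
  have hq : 4 ≤ 44 * QQ := by decide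
  have hw : 64 ≤ RW := by decide
  have hp : 2 ^ 6 ≤ 2 ^ RW := Nat.pow_le_pow_right (by decide) (by omega)
  have hs : Z.sh + 4 ≤ RW := by
    have : Z.sh ≤ 30 := by cases Z <;> decide
    omega
  have e : geM g g.length Z.sh θ = ((((spr g / 2 ^ Z.sh) &&& (15 * rep g.length)) +
      (16 - θ) * rep g.length) &&& (16 * rep g.length)) <<< (44 * QQ - 4) := by
    rw [← Nat.shiftRight_eq_div_pow]; rfl
  have row : ∀ N, Nat.testBit N (RW * i + 4) = Nat.testBit (ln RW N i) 4 := fun N => by
    rw [ln_eq, Nat.testBit_mod_two_pow, Nat.testBit_div_two_pow, Nat.add_comm,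
      decide_eq_true (by omega : 4 < RW), Bool.true_and]
  rw [e, Nat.testBit_shiftLeft, decide_eq_true (by omega),
    show RW * i + 44 * QQ - (44 * QQ - 4) = RW * i + 4 by omega, Bool.true_and, row, ln_and,
    ln_add (fun j => by
      have : ln RW (spr g / 2 ^ Z.sh) j &&& ln RW (15 * rep g.length) j ≤
        ln RW (15 * rep g.length) j := Nat.and_le_right
      rw [ln_and]
      rw [mulrep_ln (by omega)] at this ⊢
      rw [mulrep_ln (by omega)]
      generalize 2 ^ RW = B at *
      split <;> simp_all <;> omega),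
    ln_and, mulrep_ln (by omega), mulrep_ln (by omega), mulrep_ln (by omega), if_pos hi,
    if_pos hi, if_pos hi, ln_shr_low hs, spr_ln, fld_MM, List.getD_eq_getElem _ _ hi]
  have := fld_le g[i] Z.sh
  generalize fld g[i] Z.sh = a at *
  rw [Nat.testBit_and, show Nat.testBit 16 4 = true by decide, Bool.and_true,
    Nat.testBit_eq_decide_div_mod_eq]
  exact decide_eq_decide.2 (by omega)

/-- the generators whose flag is set; `i` is the position of the first flag -/
noncomputable def sel (nd : ℕ) (g : List ℕ) : ℕ → List ℕ :=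
  @List.rec ℕ (fun _ => ℕ → List ℕ) (fun _ => [])
    (fun a _ ih i => force (Nat.add i RW) fun r =>
      cd (Nat.beq (Nat.land (Nat.shiftRight nd i) 1) 0) (ih r) (a :: ih r)) g

theorem mem_sel {nd : ℕ} {g : List ℕ} : ∀ {i b : ℕ} (hi : i < g.length),
    Nat.testBit nd (RW * i + b) = true → g[i] ∈ sel nd g b := by
  induction g with
  | nil => intro i b hi; cases hi
  | cons a r ih =>
    intro i b hi h
    have e : sel nd (a :: r) b = force (Nat.add b RW) fun x =>
      cd (Nat.beq (Nat.land (Nat.shiftRight nd b) 1) 0) (sel nd r x) (a :: sel nd r x) := rfl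
    rw [e, force_eq]
    cases i with
    | zero =>
      cases k : Nat.beq (Nat.land (Nat.shiftRight nd b) 1) 0
      · exact List.mem_cons_self
      · have k' : (nd >>> b) &&& 1 = 0 := Nat.eq_of_beq_eq_true k
        rw [Nat.mul_zero, Nat.zero_add, Nat.testBit, Nat.and_comm, k'] at h
        cases h
    | succ j =>
      have k : r[j]'(Nat.lt_of_succ_lt_succ hi) ∈ sel nd r (Nat.add b RW) :=
        ih _ (by
          rw [show RW * j + Nat.add b RW = RW * (j + 1) + b by
            rw [Nat.mul_succ, Nat.add_eq]; omega]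
          exact h)
      cases Nat.beq (Nat.land (Nat.shiftRight nd b) 1) 0
      · exact List.mem_cons_of_mem _ k
      · exact k

/-- the low bits of a mask are filled with a hash of the mask -/
def slt (x : ℕ) : ℕ := Nat.lor x (Nat.mod x 18446744073709551557)

theorem slt_bit {x b : ℕ} (h : Nat.testBit x b = true) : Nat.testBit (slt x) b = true := by
  show Nat.testBit (x ||| _) b = true
  rw [Nat.testBit_or, h]; rfl

/-- the mask of all rows -/
noncomputable def alls (m : ℕ) : ℕ := Nat.mul NB (rep m)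

/-- `k` on the list `g` with all rows open -/
noncomputable def fresh (k : List ℕ → ℕ → ℕ → Bool) (g : List ℕ) : Bool :=
  frc (len g) true fun m => k g m (slt (alls m))

/-- `k` on each run of generators with the same tag -/
noncomputable def runs (k : ℕ → List ℕ → ℕ → ℕ → Bool) (g : List ℕ) : ℕ → List ℕ → Bool :=
  @List.rec ℕ (fun _ => ℕ → List ℕ → Bool) (fun i acc => fresh (k i) acc)
    (fun a _ ih i acc => force (Nat.shiftRight a 37) fun j =>
      @Bool.rec (fun _ => Bool) (an (fresh (k i) acc) (ih j [a])) (ih i (a :: acc)) (Nat.beq i j)) g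

theorem runs_imp {k : ℕ → List ℕ → ℕ → ℕ → Bool} {q : ℕ} {g : List ℕ} :
    ∀ {i : ℕ} {acc : List ℕ}, runs k g i acc = true → q ∈ g ∨ q ∈ acc →
      ∃ j l, q ∈ l ∧ fresh (k j) l = true := by
  induction g with
  | nil => intro i acc h hq; exact ⟨i, acc, hq.resolve_left (fun e => by cases e), h⟩
  | cons a r ih =>
    intro i acc h hq
    have e : runs k (a :: r) i acc = force (Nat.shiftRight a 37) fun j =>
      cd (Nat.beq i j) (runs k r i (a :: acc)) (an (fresh (k i) acc) (runs k r j [a])) := rfl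
    rw [e, force_eq] at h
    cases b : Nat.beq i (Nat.shiftRight a 37)
    · rw [b, cd_false, an_iff] at h
      rcases hq with hq | hq
      · exact ih h.2 ((List.mem_cons.1 hq).elim (fun e => Or.inr (e ▸ List.mem_cons_self)) Or.inl)
      · exact ⟨i, acc, hq, h.1⟩
    · rw [b, cd_true] at h
      rcases hq with hq | hq
      · exact ih h ((List.mem_cons.1 hq).elim (fun e => Or.inr (e ▸ List.mem_cons_self)) Or.inl)
      · exact ih h (Or.inr (List.mem_cons_of_mem _ hq))

theorem fresh_imp {k : List ℕ → ℕ → ℕ → Bool} {l : List ℕ} (h : fresh k l = true) {i : ℕ}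
    (hi : i < l.length) : k l l.length (slt (alls l.length)) = true := by
  unfold fresh at h
  rw [len_eq] at h
  have k := frc_imp h (by omega)
  exact k

/-! ### execution -/

noncomputable def exec (M : Mr) (t : T) (l p lt : ℕ) (pg : Pg) : List ℕ → ℕ → ℕ → Bool :=
  @Pg.rec (fun _ => List ℕ → ℕ → ℕ → Bool) (fun _ _ _ => true) (fun _ _ _ => false)
    (fun _ _ a b g m nd => @Bool.rec (fun _ => Bool) false (b g m nd) (a g m nd))
    (fun _ _ a b g m nd => @Bool.rec (fun _ => Bool) (b g m nd) true (a g m nd))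
    (fun _ k g m nd => k g nd g m nd)
    (fun X _ _ a b g m nd => an (frc (slt (Nat.land nd X)) true (a g m))
      (frc (slt (Nat.land nd (Nat.xor (alls m) (Nat.land (alls m) X)))) true (b g m)))
    (fun _ a g m nd => @Bool.rec (fun _ => Bool) (fresh a (sel nd g (Nat.mul 44 QQ))) (a g m nd)
      (Nat.ble m 16))
    (fun _ k g _ _ => runs k g 0 [])
    (fun Z θ _ a g m nd => frc (slt (Nat.land nd (geM g m Z.sh θ))) true (a g m))
    (fun Z θ _ a g m nd => frc (slt (Nat.land nd (Nat.xor (alls m) (geM g m Z.sh θ)))) true (a g m))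
    (fun i v _ a g m nd => @Bool.rec (fun _ => Bool) false (a g m nd) (Nat.ble v (ln 8 lt i)))
    (fun i v _ a g m nd => @Bool.rec (fun _ => Bool) (a g m nd) true (Nat.ble v (ln 8 lt i)))
    (fun pr ub dq dp _ _ _ => force (Nat.xor p dq) fun p' =>
      goT M t (fun _ => 0) (fun _ _ _ => 0) p' (umin (shf (usrc lt) dp V.z) ub)
        (@Bool.rec (fun _ => T) t (prune (shf (usrc l) dp V.z) t T.nil) pr) 18446744073709551616)
    (fun pr ub dq dp dn K1 K2 g m nd => force (Nat.xor p dq) fun p' =>
      goT M t (hitf g m K1 K2) (hitM g m K1 K2) p' (umin (shf (usrc lt) dp dn) ub)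
        (@Bool.rec (fun _ => T) t (prune (shf (usrc l) dp dn) t T.nil) pr) nd)
    (fun pr ub dq dp dn K g m nd => force (Nat.xor p dq) fun p' =>
      goT M t (hitf1 g m K) (hitM1 g m K) p' (umin (shf (usrc lt) dp dn) ub)
        (@Bool.rec (fun _ => T) t (prune (shf (usrc l) dp dn) t T.nil) pr) nd)
    pg

theorem ne_of_bit {x b : ℕ} (h : Nat.testBit x b = true) : x ≠ 0 := by
  rintro rfl
  rw [Nat.zero_testBit] at h
  cases h

theorem go_top {M : Mr} (hM : M.ok = true) {t : T} (ht : ∀ n, Tot n t) {h : ℕ → ℕ}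
    {hm : Bool → Bool → ℕ → ℕ} {b : ℕ} (h64 : 64 ≤ b) {Q : ℕ → Prop}
    (hh : ∀ x, Nat.testBit (h x) b = true → ∀ tl, ∃ y ∈ unp x tl, Q y)
    (hk : ∀ bl br x, Nat.testBit (hm bl br x) b = true → ∀ tl, ∃ y ∈ unp x tl, Q (swg bl br y))
    {lg l ub nd : ℕ} {pr : Bool} {dp dn n u : V} (hg : LOK lg ∧ SatL lg n) (hl : LOK l)
    (hs : SatL l n) (hb : Ub ub u) (hd : ShiftN dp dn n u) (hv : mvOK dp dn = true)
    (H : force (Nat.xor (par n) (dpar dp dn)) (fun p' =>
      goT M t h hm p' (umin (shf (usrc (tig l (par n))) dp dn) ub)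
        (@Bool.rec (fun _ => T) t (prune (shf (usrc lg) dp dn) t T.nil) pr) nd) = true)
    (hn : Nat.testBit nd b = true) : ∃ y, LaneS t u y ∧ Q y := by
  rw [force_eq, ← par_shift hd] at H
  have u1 := umin_ub (shf_ub (usrc_ub (tig_sm hl.sm _) (tig_sat hl hs)) hd hv) hb
  have u2 := ub_prune hg.1 hg.2 hd hv
  cases pr
  · exact goT_spec hM ht h64 hh hk u1 (ht u) (fun _ k => k) H hn
  · exact goT_spec hM ht h64 hh hk u1
      (prune_tot (fun _ a b => tst_of u2 b a) t _ (Or.inl (ht u)))
      (fun _ k => (prune_ex t _ k).resolve_right id) H hn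

theorem exec_sound {M : Mr} (hM : M.ok = true) {t : T} (ht : ∀ n, Tot n t) {lg l : ℕ} {s : St}
    (hg : LOK lg ∧ SatL lg s.szv) (hl : LOK l)
    (hs : SatL l s.szv) (pg : Pg) : ∀ (g : List ℕ) (nd i : ℕ) (hi : i < g.length),
      exec M t lg (par s.szv) (tig l (par s.szv)) pg g g.length nd = true →
      Nat.testBit nd (RW * i + 44 * QQ) = true → PS t s g[i] pg := by
  induction pg with
  | tt => intros; trivial
  | ff => intro g nd i hi h; cases h
  | and a b ia ib =>
    intro g nd i hi h hn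
    obtain ⟨h1, h2⟩ := an_iff.1 h
    exact ⟨ia g nd i hi h1 hn, ib g nd i hi h2 hn⟩
  | or a b ia ib =>
    intro g nd i hi h hn
    exact (oo_iff.1 h).imp (ia g nd i hi · hn) (ib g nd i hi · hn)
  | dyn k ik => intro g nd i hi h hn; exact ⟨g, nd, ik g nd g nd i hi h hn⟩
  | mask X a b ia ib =>
    intro g nd i hi h hn
    obtain ⟨h1, h2⟩ := an_iff.1 h
    cases e : Nat.testBit X (RW * i + 44 * QQ)
    · have k := slt_bit (x := Nat.land nd (Nat.xor (alls g.length) (Nat.land (alls g.length) X)))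
        (b := RW * i + 44 * QQ) (by
          show Nat.testBit (nd &&& (Nat.mul NB (rep g.length) ^^^
            (Nat.mul NB (rep g.length) &&& X))) _ = true
          rw [Nat.testBit_and, Nat.testBit_xor, Nat.testBit_and, e, hn, need_bit hi]; rfl)
      exact Or.inr (ib g _ i hi (frc_imp h2 (ne_of_bit k)) k)
    · have k := slt_bit (x := Nat.land nd X) (b := RW * i + 44 * QQ) (by
        show Nat.testBit (nd &&& X) _ = true
        rw [Nat.testBit_and, e, hn]; rfl)
      exact Or.inl (ia g _ i hi (frc_imp h1 (ne_of_bit k)) k)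
  | pick a ia =>
    intro g nd i hi h hn
    have h' : cd (Nat.ble g.length 16) (exec M t lg (par s.szv) (tig l (par s.szv)) a g g.length nd)
      (fresh (exec M t lg (par s.szv) (tig l (par s.szv)) a) (sel nd g (44 * QQ))) = true := h
    cases e : Nat.ble g.length 16
    · rw [e, cd_false] at h'
      obtain ⟨j, hj, e⟩ := List.getElem_of_mem (mem_sel hi hn)
      rw [← e]
      exact ia _ _ j hj (fresh_imp h' hj) (slt_bit (need_bit hj))
    · rw [e, cd_true] at h'
      exact ia g nd i hi h' hn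
  | runs k ik =>
    intro g nd i hi h hn
    obtain ⟨τ, r, h1, h2⟩ := runs_imp (k := fun τ => exec M t lg (par s.szv) (tig l (par s.szv)) (k τ))
      h (Or.inl (List.getElem_mem hi))
    obtain ⟨j, hj, e⟩ := List.getElem_of_mem h1
    rw [← e]
    exact ⟨τ, ik τ _ _ j hj (fresh_imp h2 hj) (slt_bit (need_bit hj))⟩
  | ge Z θ a ia =>
    intro g nd i hi h hn hθ
    have k := slt_bit (x := Nat.land nd (geM g g.length Z.sh θ)) (b := RW * i + 44 * QQ) (by
      show Nat.testBit (nd &&& _) _ = true
      rw [Nat.testBit_and, hn, geM_bit hi, decide_eq_true hθ]; rfl)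
    exact ia g _ i hi (frc_imp h (ne_of_bit k)) k
  | lt Z θ a ia =>
    intro g nd i hi h hn hθ
    have k := slt_bit (x := Nat.land nd (Nat.xor (alls g.length) (geM g g.length Z.sh θ)))
      (b := RW * i + 44 * QQ) (by
        show Nat.testBit (nd &&& (Nat.mul NB (rep g.length) ^^^ _)) _ = true
        rw [Nat.testBit_and, Nat.testBit_xor, hn, need_bit hi, geM_bit hi,
          decide_eq_false (by omega)]; rfl)
    exact ia g _ i hi (frc_imp h (ne_of_bit k)) k
  | lane j v a ia =>
    intro g nd i hi h hn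
    obtain ⟨h1, h2⟩ := an_iff.1 h
    refine ⟨fun a1 a2 => ?_, ia g nd i hi h2 hn⟩
    have h3 := Nat.le_of_ble_eq_true h1
    have h4 := (tig_sat hl hs j a1).resolve_left (by omega)
    show v + pos (bar j) s.szv ≤ 8 + pos j s.szv
    omega
  | unl j v a ia =>
    intro g nd i hi h hn
    rcases oo_iff.1 h with h1 | h2
    · refine Or.inl fun a1 a2 => ?_
      have h3 := Nat.le_of_ble_eq_true h1
      have h4 := (tig_sat hl hs j a1).resolve_left (by omega)
      show v + pos (bar j) s.szv ≤ 8 + pos j s.szv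
      omega
    · exact Or.inr (ia g nd i hi h2 hn)
  | ref pr ub dq dp =>
    rintro g nd i hi h - rfl hv u hd hb
    obtain ⟨y, -, k⟩ := go_top hM ht (h := fun _ => 0) (hm := fun _ _ _ => 0) (b := 64) le_rfl
      (Q := fun _ => False) (fun _ k => by rw [Nat.zero_testBit] at k; cases k)
      (fun _ _ _ k => by rw [Nat.zero_testBit] at k; cases k) hg hl hs hb hd hv h (by decide)
    exact k
  | dsc pr ub dq dp dn K1 K2 =>
    rintro g nd i hi h hn rfl hv h1 h2 u hd hb
    exact go_top hM ht (flag_le i) (Q := fun y => Le y g[i] K1 ∨ Le y g[i] K2)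
      (fun _ k => hit_spec h1 h2 hi k) (fun _ _ _ k => hitM_spec h1 h2 hi k) hg hl hs hb hd hv h hn
  | ds1 pr ub dq dp dn K =>
    rintro g nd i hi h hn rfl hv h1 u hd hb
    exact go_top hM ht (flag_le i) (Q := fun y => Le y g[i] K)
      (fun _ k => hit1_spec h1 hi k) (fun _ _ _ k => hitM1_spec h1 hi k) hg hl hs hb hd hv h hn

end Pool.Agent.MP_242484_co.On
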