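import Pool.Agent.MP_242484_co.cert.Cover

/-!
The two passes over the tree, cut into pieces.
-/

set_option autoImplicit false

namespace Pool.Agent.MP_242484_co.On

/-- the tree covers all sizes with label `c` -/
def CovAt (c : ℕ) (t : T) : Prop := ∀ n, CtxOK c n → Tot n t

theorem CovAt.of {cb : Cb} (hcb : cbOK cb = true) {c : ℕ} {t : T} (h : cov cb t 64 c = true) :
    CovAt c t := fun _ hn => cov_spec hcb t 64 c (parIs64 _) hn h

theorem CovAt.br {cb : Cb} (hcb : cbOK cb = true) {l ce c c1 c2 : ℕ} {s r : T}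
    (h : cov2 cb 64 l ce (fun x => Nat.beq x c1) (fun x => Nat.beq x c2) c = true)
    (hs : CovAt c1 s) (hr : CovAt c2 r) : CovAt c (.br l ce s r) := by
  intro n hn
  rcases cov2_spec hcb (parIs64 n) hn h with ⟨a, b, c', h', e⟩ | ⟨c', h', e⟩
  · exact Or.inl ⟨a, b, hs n (Nat.eq_of_beq_eq_true e ▸ h')⟩
  · exact Or.inr (hr n (Nat.eq_of_beq_eq_true e ▸ h'))

/-- the last child -/
theorem CovAt.last {cb : Cb} (hcb : cbOK cb = true) {l ce c c1 : ℕ} {s r : T}
    (h : cov2 cb 64 l ce (fun x => Nat.beq x c1) (fun _ => false) c = true)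
    (hs : CovAt c1 s) : CovAt c (.br l ce s r) := by
  intro n hn
  rcases cov2_spec hcb (parIs64 n) hn h with ⟨a, b, c', h', e⟩ | ⟨c', _, e⟩
  · exact Or.inl ⟨a, b, hs n (Nat.eq_of_beq_eq_true e ▸ h')⟩
  · cases e

theorem CovAt.co {cb : Cb} (hcb : cbOK cb = true) {l ce c c1 c2 : ℕ} {tb : Tb} {s r : T}
    (h : cov2 cb 64 l ce (fun x => an (parOK x (exa x) tb) (Nat.beq x c1)) (fun x => Nat.beq x c2) c
      = true) (hs : CovAt c1 s) (hr : CovAt c2 r) : CovAt c (.co l ce tb s r) := by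
  intro n hn
  rcases cov2_spec hcb (parIs64 n) hn h with ⟨a, b, c', h', e⟩ | ⟨c', h', e⟩
  · rw [an_iff] at e
    exact Or.inl ⟨a, b, parOK_spec h' e.1, hs n (Nat.eq_of_beq_eq_true e.2 ▸ h')⟩
  · exact Or.inr (hr n (Nat.eq_of_beq_eq_true e ▸ h'))

theorem CovAt.colast {cb : Cb} (hcb : cbOK cb = true) {l ce c c1 : ℕ} {tb : Tb} {s r : T}
    (h : cov2 cb 64 l ce (fun x => an (parOK x (exa x) tb) (Nat.beq x c1)) (fun _ => false) c
      = true) (hs : CovAt c1 s) : CovAt c (.co l ce tb s r) := by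
  intro n hn
  rcases cov2_spec hcb (parIs64 n) hn h with ⟨a, b, c', h', e⟩ | ⟨c', _, e⟩
  · rw [an_iff] at e
    exact Or.inl ⟨a, b, parOK_spec h' e.1, hs n (Nat.eq_of_beq_eq_true e.2 ▸ h')⟩
  · cases e

theorem CovAt.mi {cb : Cb} (hcb : cbOK cb = true) {l ce c c2 : ℕ} {bl br : Bool} {r : T}
    (h : cov2 cb 64 l ce (fun _ => true) (fun x => Nat.beq x c2) c = true) (hr : CovAt c2 r) :
    CovAt c (.mi l ce bl br r) := by
  intro n hn
  rcases cov2_spec hcb (parIs64 n) hn h with ⟨a, b, -⟩ | ⟨c', h', e⟩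
  · exact Or.inl ⟨a, b⟩
  · exact Or.inr (hr n (Nat.eq_of_beq_eq_true e ▸ h'))

theorem CovAt.tot {t : T} (h : CovAt c0 t) (n : V) : Tot n t := h n (c0_ok n)

section

variable {f : ℕ → ℕ → ℕ → L → Bool} {lg l ce : ℕ}

theorem allT_br {s r : T} (hs : allT f s lg = true) (hr : allT f r lg = true) :
    allT f (.br l ce s r) lg = true :=
  an_iff.2 ⟨hs, hr⟩

theorem allT_co {tb : Tb} {s r : T} (h : allTb (f lg l) tb = true) (hs : allT f s l = true)
    (hr : allT f r lg = true) : allT f (.co l ce tb s r) lg = true :=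
  an_iff.2 ⟨h, an_iff.2 ⟨hs, hr⟩⟩

theorem allT_pn {p : ℕ} {s a b : T} (hs : allT f s lg = true) (ha : allT f a lg = true)
    (hb : allT f b lg = true) : allT f (.pn p s a b) lg = true :=
  an_iff.2 ⟨hs, an_iff.2 ⟨ha, hb⟩⟩

theorem allT_mi {bl br : Bool} {r : T} (hr : allT f r lg = true) :
    allT f (.mi l ce bl br r) lg = true := hr

theorem allT_nil : allT f .nil lg = true := rfl

theorem allT_top : allT f .top lg = true := rfl

end

theorem allTb_n {f : ℕ → L → Bool} {p : ℕ} {l : L} {a b : Tb} (h : f p l = true)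
    (ha : allTb f a = true) (hb : allTb f b = true) : allTb f (.n p l a b) = true :=
  an_iff.2 ⟨h, an_iff.2 ⟨ha, hb⟩⟩

theorem cbOK_n {i k mu la : ℕ} {ts : List (ℕ × ℕ)} {a b : Cb}
    (h : cbOK (.n i k mu la ts .z .z) = true) (ha : cbOK a = true) (hb : cbOK b = true) :
    cbOK (.n i k mu la ts a b) = true := by
  obtain ⟨h1, h2⟩ := an_iff.1 h
  obtain ⟨h2, h3⟩ := an_iff.1 h2
  exact an_iff.2 ⟨h1, an_iff.2 ⟨h2, an_iff.2 ⟨(an_iff.1 h3).1, an_iff.2 ⟨ha, hb⟩⟩⟩⟩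

end Pool.Agent.MP_242484_co.On
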