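import Pool.Agent.MP_242484_co.cert.Lane

/-!
Labels and upper vectors.
-/

set_option autoImplicit false

namespace Pool.Agent.MP_242484_co.On

/-! ### the constants -/

theorem NF_ge : 6 ≤ NF := by decide
theorem HB_eq : HB = 8 * NF := by decide
theorem HM_eq : HM = 2 ^ (8 * NF) := by decide +kernel
theorem H8_eq : H8 = 128 * O1 := by decide +kernel
theorem K127_eq : K127 = 127 * O1 := by decide +kernel
theorem K199_eq : K199 = 199 * O1 := by decide +kernel
theorem K111_eq : K111 = 111 * O1 := by decide +kernel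
theorem K112_eq : K112 = 112 * O1 := by decide +kernel
theorem K71_eq : K71 = 71 * O1 := by decide +kernel
theorem K255_eq : K255 = 255 * O1 := by decide +kernel
theorem M15L_eq : M15L = 15 * O1 := by decide +kernel

theorem ln_cases {N m : ℕ} {f : ℕ → ℕ} (h1 : ∀ k < m, ln 8 N k = f k) (h2 : N < 2 ^ (8 * m))
    (k : ℕ) : ln 8 N k = if k < m then f k else 0 := by
  split
  · exact h1 k ‹_›
  · exact ln_hi h2 (by omega)

theorem O1_ln (k : ℕ) : ln 8 O1 k = if k < 2 * NF then 1 else 0 :=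
  ln_cases (f := fun _ => 1) (by decide +kernel) (by decide +kernel) k

theorem cst_ln {c : ℕ} (hc : c < 256) (k : ℕ) :
    ln 8 (c * O1) k = if k < 2 * NF then c else 0 := by
  rw [ln_mul (fun j => by rw [O1_ln]; split <;> omega), O1_ln]
  split <;> omega

theorem c0_ln (k : ℕ) : ln 8 c0 k = if k < 6 then 8 else 0 :=
  ln_cases (f := fun _ => 8) (by decide +kernel) (by decide +kernel) k

/-- all lanes are at most `b`, and there are `2 NF` of them -/
def Sm (b l : ℕ) : Prop := ∀ k, ln 8 l k ≤ if k < 2 * NF then b else 0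

theorem Sm.of {b l : ℕ} (h1 : ∀ k < 2 * NF, ln 8 l k ≤ b) (h2 : l < 2 ^ (8 * (2 * NF))) :
    Sm b l := by
  intro k
  split
  · exact h1 k ‹_›
  · exact (ln_hi h2 (by omega)).le

theorem Sm.le {b l : ℕ} (h : Sm b l) (k : ℕ) : ln 8 l k ≤ b := by
  have := h k
  split at this <;> omega

theorem Sm.hi {b l : ℕ} (h : Sm b l) {k : ℕ} (hk : ¬ k < 2 * NF) : ln 8 l k = 0 := by
  have := h k
  rw [if_neg hk] at this
  omega

theorem Sm.mono {b c l : ℕ} (h : Sm b l) (hc : b ≤ c) : Sm c l := by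
  intro k
  have := h k
  split at this
  · rw [if_pos ‹_›]; omega
  · omega

theorem C0_sm : Sm 3 C0 := Sm.of (by decide +kernel) (by decide +kernel)
theorem C1_sm : Sm 3 C1 := Sm.of (by decide +kernel) (by decide +kernel)
theorem C2_sm : Sm 3 C2 := Sm.of (by decide +kernel) (by decide +kernel)
theorem C3_sm : Sm 3 C3 := Sm.of (by decide +kernel) (by decide +kernel)
theorem C4_sm : Sm 3 C4 := Sm.of (by decide +kernel) (by decide +kernel)
theorem C5_sm : Sm 3 C5 := Sm.of (by decide +kernel) (by decide +kernel)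

theorem C_id : ∀ k < 6, (ln 8 C0 k = if k = 0 then 1 else 0) ∧ (ln 8 C1 k = if k = 1 then 1 else 0) ∧
    (ln 8 C2 k = if k = 2 then 1 else 0) ∧ (ln 8 C3 k = if k = 3 then 1 else 0) ∧
    (ln 8 C4 k = if k = 4 then 1 else 0) ∧ (ln 8 C5 k = if k = 5 then 1 else 0) ∧
    ln 8 C0 (k + NF) = 0 ∧ ln 8 C1 (k + NF) = 0 ∧ ln 8 C2 (k + NF) = 0 ∧ ln 8 C3 (k + NF) = 0 ∧
    ln 8 C4 (k + NF) = 0 ∧ ln 8 C5 (k + NF) = 0 := by decide +kernel

theorem bar_eq {k : ℕ} (h : k < 2 * NF) : bar k = if k < NF then k + NF else k - NF := by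
  show (k + NF) % (2 * NF) = _
  split
  · exact Nat.mod_eq_of_lt (by omega)
  · rw [show k + NF = (k - NF) + 2 * NF by omega, Nat.add_mod_right]
    exact Nat.mod_eq_of_lt (by omega)

theorem bar_lt (k : ℕ) : bar k < 2 * NF := Nat.mod_lt _ (by have := NF_ge; show 0 < 2 * NF; omega)

theorem bar_bar {k : ℕ} (h : k < 2 * NF) : bar (bar k) = k := by
  rw [bar_eq (bar_lt k), bar_eq h]
  split <;> split <;> omega

/-- the size of atom number `j` -/
def V.at (n : V) (j : ℕ) : ℕ :=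
  if j = 0 then n.v0 else if j = 1 then n.v1 else if j = 2 then n.v2 else if j = 3 then n.v3
  else if j = 4 then n.v4 else n.v5

theorem pos_atom {j : ℕ} (h : j < 6) (n : V) : pos j n = n.at j ∧ pos (j + NF) n = 0 := by
  obtain ⟨a0, a1, a2, a3, a4, a5, b0, b1, b2, b3, b4, b5⟩ := C_id j h
  unfold pos
  rw [a0, a1, a2, a3, a4, a5, b0, b1, b2, b3, b4, b5]
  have : j = 0 ∨ j = 1 ∨ j = 2 ∨ j = 3 ∨ j = 4 ∨ j = 5 := by omega
  rcases this with rfl | rfl | rfl | rfl | rfl | rfl <;> simp [V.at]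

theorem vsum_eq (a : V) : vsum a = a.v0 + a.v1 + a.v2 + a.v3 + a.v4 + a.v5 := by
  simp only [vsum, Nat.add_eq]; omega

theorem pos_le (k : ℕ) (a : V) : pos k a ≤ 3 * vsum a := by
  have h0 := Nat.mul_le_mul_right a.v0 (C0_sm.le k)
  have h1 := Nat.mul_le_mul_right a.v1 (C1_sm.le k)
  have h2 := Nat.mul_le_mul_right a.v2 (C2_sm.le k)
  have h3 := Nat.mul_le_mul_right a.v3 (C3_sm.le k)
  have h4 := Nat.mul_le_mul_right a.v4 (C4_sm.le k)
  have h5 := Nat.mul_le_mul_right a.v5 (C5_sm.le k)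
  rw [vsum_eq]; unfold pos; omega

theorem pos_hi {k : ℕ} (h : ¬ k < 2 * NF) (a : V) : pos k a = 0 := by
  unfold pos
  rw [C0_sm.hi h, C1_sm.hi h, C2_sm.hi h, C3_sm.hi h, C4_sm.hi h, C5_sm.hi h]; simp

theorem pos_shift {dp dn n m : V} (h : ShiftN dp dn n m) (k : ℕ) :
    pos k m + pos k dp = pos k n + pos k dn := by
  obtain ⟨h0, h1, h2, h3, h4, h5⟩ := h
  have e0 := congrArg (fun x => ln 8 C0 k * x) h0
  have e1 := congrArg (fun x => ln 8 C1 k * x) h1
  have e2 := congrArg (fun x => ln 8 C2 k * x) h2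
  have e3 := congrArg (fun x => ln 8 C3 k * x) h3
  have e4 := congrArg (fun x => ln 8 C4 k * x) h4
  have e5 := congrArg (fun x => ln 8 C5 k * x) h5
  simp only [Nat.mul_add] at e0 e1 e2 e3 e4 e5
  unfold pos; omega

/-! ### bytes -/

theorem and128 : ∀ a < 256, a &&& 128 = 128 * (a / 128) := by decide +kernel
theorem and127 (a : ℕ) : a &&& 127 = a % 128 := Nat.and_two_pow_sub_one_eq_mod a 7
theorem and255 (a : ℕ) : a &&& 255 = a % 256 := Nat.and_two_pow_sub_one_eq_mod a 8
theorem and63 (a : ℕ) : a &&& 63 = a % 64 := Nat.and_two_pow_sub_one_eq_mod a 6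
theorem and15 (a : ℕ) : a &&& 15 = a % 16 := Nat.and_two_pow_sub_one_eq_mod a 4
theorem and1 (a : ℕ) : a &&& 1 = a % 2 := Nat.and_two_pow_sub_one_eq_mod a 1
theorem xor1 : ∀ a < 256, ∀ b < 2, (a ^^^ b) % 2 = (a + b) % 2 := by decide +kernel

theorem LOK.sm {l : ℕ} (h : LOK l) : Sm 15 l := by
  intro k
  have e : ln 8 (l &&& M15L) k = ln 8 l k := congrArg (fun x => ln 8 x k) h
  rw [ln_and, M15L_eq, cst_ln (by decide)] at e
  split at e
  · rw [if_pos ‹_›]; rw [and15] at e; omega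
  · rw [Nat.and_zero] at e; omega

theorem andH8_ln (X k : ℕ) :
    ln 8 (X &&& H8) k = if k < 2 * NF then 128 * (ln 8 X k / 128) else 0 := by
  rw [ln_and, H8_eq, cst_ln (by decide)]
  split
  · exact and128 _ (ln8_lt _ _)
  · exact Nat.and_zero _

theorem flag_ln (X k : ℕ) :
    ln 8 (Nat.shiftRight (Nat.land X H8) 7) k = if k < 2 * NF then ln 8 X k / 128 else 0 := by
  show ln 8 ((X &&& H8) >>> 7) k = _
  rw [Nat.shiftRight_eq_div_pow, show 2 ^ 7 = 128 by decide, ln_shr7, andH8_ln, andH8_ln]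
  split <;> split <;> omega

theorem swp_ln {b a : ℕ} (h : Sm b a) (k : ℕ) :
    ln 8 (swp a) k = if k < 2 * NF then ln 8 a (bar k) else 0 := by
  have e : swp a = a / 2 ^ (8 * NF) + a % 2 ^ (8 * NF) * 2 ^ (8 * NF) := by
    show a >>> HB + (a % HM) <<< HB = _
    rw [Nat.shiftRight_eq_div_pow, Nat.shiftLeft_eq, HB_eq, HM_eq]
  rw [e, ln_add, ln_div, ln_shl, ln_mod]
  · by_cases h1 : k < NF
    · rw [if_pos h1, if_pos (by omega), bar_eq (by omega), if_pos h1, Nat.add_zero]
    · rw [if_neg h1, h.hi (by omega), Nat.zero_add]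
      by_cases h2 : k < 2 * NF
      · rw [if_pos (by omega), if_pos h2, bar_eq h2, if_neg h1]
      · rw [if_neg (by omega), if_neg h2]
  · intro j
    rw [ln_div, ln_shl]
    split
    · exact ln_lt _ _ _
    · rw [h.hi (by omega), Nat.zero_add]; exact ln_lt _ _ _

theorem swp_sm {b a : ℕ} (h : Sm b a) : Sm b (swp a) := by
  intro k
  rw [swp_ln h]
  split
  · exact h.le _
  · exact le_rfl

theorem addc_ln {b c l : ℕ} (h : Sm b l) (hc : b + c < 256) (k : ℕ) :
    ln 8 (l + c * O1) k = ln 8 l k + if k < 2 * NF then c else 0 := by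
  rw [ln_add, cst_ln (by omega)]
  intro j
  have := h.le j
  rw [cst_ln (by omega)]
  split <;> omega

theorem nz_ln {l : ℕ} (h : Sm 128 l) (k : ℕ) : ln 8 (nz l) k = if ln 8 l k = 0 then 0 else 1 := by
  unfold nz
  rw [flag_ln]
  show (if _ then ln 8 (l + K127) k / 128 else 0) = _
  rw [K127_eq, addc_ln h (by decide)]
  have := h.le k
  by_cases h1 : k < 2 * NF
  · rw [if_pos h1, if_pos h1]; split <;> omega
  · rw [if_neg h1, h.hi h1, if_pos rfl]

theorem cmb_ln {a : V} (h : vsum a ≤ 85) (k : ℕ) : ln 8 (cmb a) k = pos k a := by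
  rw [vsum_eq] at h
  have t : ∀ {c C : ℕ}, c ≤ 85 → Sm 3 C → ∀ j, ln 8 (c * C) j = c * ln 8 C j ∧
      ln 8 (c * C) j ≤ 3 * c := by
    intro c C hc hC j
    have u : ∀ j, c * ln 8 C j ≤ c * 3 := fun j => Nat.mul_le_mul_left c (hC.le j)
    rw [ln_mul (fun j => by have := u j; omega)]
    exact ⟨rfl, by have := u j; omega⟩
  have t0 := t (c := a.v0) (by omega) C0_sm
  have t1 := t (c := a.v1) (by omega) C1_sm
  have t2 := t (c := a.v2) (by omega) C2_sm
  have t3 := t (c := a.v3) (by omega) C3_sm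
  have t4 := t (c := a.v4) (by omega) C4_sm
  have t5 := t (c := a.v5) (by omega) C5_sm
  have s01 := ln_add (w := 8) (A := a.v0 * C0) (B := a.v1 * C1)
    (fun j => by have := (t0 j).2; have := (t1 j).2; omega)
  have s23 := ln_add (w := 8) (A := a.v2 * C2) (B := a.v3 * C3)
    (fun j => by have := (t2 j).2; have := (t3 j).2; omega)
  have s45 := ln_add (w := 8) (A := a.v4 * C4) (B := a.v5 * C5)
    (fun j => by have := (t4 j).2; have := (t5 j).2; omega)
  have s03 := ln_add (w := 8) (A := a.v0 * C0 + a.v1 * C1) (B := a.v2 * C2 + a.v3 * C3)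
    (fun j => by
      rw [s01, s23]
      have := (t0 j).2; have := (t1 j).2; have := (t2 j).2; have := (t3 j).2; omega)
  show ln 8 (a.v0 * C0 + a.v1 * C1 + (a.v2 * C2 + a.v3 * C3) + (a.v4 * C4 + a.v5 * C5)) k = _
  rw [ln_add (fun j => by
      rw [s03, s01, s23, s45]
      have := (t0 j).2; have := (t1 j).2; have := (t2 j).2; have := (t3 j).2
      have := (t4 j).2; have := (t5 j).2; omega),
    s03, s01, s23, s45, (t0 k).1, (t1 k).1, (t2 k).1, (t3 k).1, (t4 k).1, (t5 k).1]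
  unfold pos; ring

theorem cmb_sm {a : V} (h : vsum a ≤ 85) : Sm (3 * vsum a) (cmb a) := by
  intro k
  rw [cmb_ln h]
  split
  · exact pos_le k a
  · exact (pos_hi ‹_› a).le

theorem dP_ln {dp dn : V} (h : vsum dp + vsum dn ≤ 42) (k : ℕ) :
    ln 8 (dP dp dn) k = if k < 2 * NF then pos k dp + pos (bar k) dn else 0 := by
  have hp : vsum dp ≤ 85 := by omega
  have hn : vsum dn ≤ 85 := by omega
  show ln 8 (cmb dp + swp (cmb dn)) k = _
  rw [ln_add (fun j => by
    have := (cmb_sm hp).le j; have := (swp_sm (cmb_sm hn)).le j; omega),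
    swp_ln (cmb_sm hn), cmb_ln hp, cmb_ln hn]
  split
  · rfl
  · exact pos_hi ‹_› dp

theorem mvOK_le {dp dn : V} (h : mvOK dp dn = true) : vsum dp + vsum dn ≤ 42 :=
  Nat.le_of_ble_eq_true (an_iff.1 h).1

theorem dP_sm {dp dn : V} (h : mvOK dp dn = true) : Sm 56 (dP dp dn) := by
  have h1 := mvOK_le h
  have s : Sm 126 (dP dp dn) := by
    intro k
    rw [dP_ln h1]
    have := pos_le k dp
    have := pos_le (bar k) dn
    split <;> omega
  have e : (dP dp dn + K71) &&& H8 = 0 := Nat.eq_of_beq_eq_true (an_iff.1 h).2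
  intro k
  have a := congrArg (fun x => ln 8 x k) e
  simp only [andH8_ln, ln_zero, K71_eq, addc_ln s (by decide : 126 + 71 < 256)] at a
  have := s k
  split at a
  · rw [if_pos ‹_›]; omega
  · rw [if_neg ‹_›] at this ⊢; exact this

/-! ### parities -/

theorem bits_par (n : V) :
    bits (par n) = ⟨n.v0 % 2, n.v1 % 2, n.v2 % 2, n.v3 % 2, n.v4 % 2, n.v5 % 2⟩ := by
  unfold bits par
  congr 1 <;> omega

theorem par_lt (n : V) : par n < 64 := by unfold par; omega

theorem pos_par (k : ℕ) (n : V) : pos k (bits (par n)) % 2 = pos k n % 2 := by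
  rw [bits_par]
  unfold pos
  have t : ∀ c x : ℕ, c * (x % 2) % 2 = c * x % 2 := fun c x => by
    rw [Nat.mul_mod, Nat.mod_mod, ← Nat.mul_mod]
  have t0 := t (ln 8 C0 k) n.v0
  have t1 := t (ln 8 C1 k) n.v1
  have t2 := t (ln 8 C2 k) n.v2
  have t3 := t (ln 8 C3 k) n.v3
  have t4 := t (ln 8 C4 k) n.v4
  have t5 := t (ln 8 C5 k) n.v5
  dsimp only
  omega

theorem pv_lt (p k : ℕ) : ln 8 (pv p) k < 2 := by
  show ln 8 (_ &&& O1) k < 2
  rw [ln_and, O1_ln]
  split
  · rw [and1]; omega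
  · rw [Nat.and_zero]; omega

theorem pv_ln (n : V) {k : ℕ} (hk : k < 2 * NF) :
    ln 8 (pv (par n)) k = (pos k n + pos (bar k) n) % 2 := by
  show ln 8 (_ &&& O1) k = _
  rw [ln_and, O1_ln, if_pos hk, and1, dP_ln (by rw [vsum_eq]; unfold bits; dsimp only; omega),
    if_pos hk]
  have := pos_par k n
  have := pos_par (bar k) n
  omega

theorem xor_bits : ∀ a < 64, ∀ b < 64, a ^^^ b =
    (a + b) % 2 + 2 * ((a / 2 + b / 2) % 2) + 4 * ((a / 4 + b / 4) % 2) +
      8 * ((a / 8 + b / 8) % 2) + 16 * ((a / 16 + b / 16) % 2) + 32 * ((a / 32 + b / 32) % 2) := by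
  decide +kernel

theorem par_shift {dp dn n m : V} (h : ShiftN dp dn n m) :
    par m = Nat.xor (par n) (dpar dp dn) := by
  show _ = par n ^^^ dpar dp dn
  rw [xor_bits _ (par_lt n) (dpar dp dn) (par_lt _)]
  have e1 := bits_par n
  have e2 := bits_par ⟨dp.v0 + dn.v0, dp.v1 + dn.v1, dp.v2 + dn.v2, dp.v3 + dn.v3, dp.v4 + dn.v4,
    dp.v5 + dn.v5⟩
  obtain ⟨h0, h1, h2, h3, h4, h5⟩ := h
  unfold dpar
  generalize par n = a at e1 ⊢
  generalize par ⟨dp.v0 + dn.v0, dp.v1 + dn.v1, dp.v2 + dn.v2, dp.v3 + dn.v3, dp.v4 + dn.v4,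
    dp.v5 + dn.v5⟩ = b at e2 ⊢
  simp only [bits, V.mk.injEq] at e1 e2
  obtain ⟨a0, a1, a2, a3, a4, a5⟩ := e1
  obtain ⟨b0, b1, b2, b3, b4, b5⟩ := e2
  have c0 : (a + b) % 2 = m.v0 % 2 := by clear * - a0 b0 h0; omega
  have c1 : (a / 2 + b / 2) % 2 = m.v1 % 2 := by clear * - a1 b1 h1; omega
  have c2 : (a / 4 + b / 4) % 2 = m.v2 % 2 := by clear * - a2 b2 h2; omega
  have c3 : (a / 8 + b / 8) % 2 = m.v3 % 2 := by clear * - a3 b3 h3; omega
  have c4 : (a / 16 + b / 16) % 2 = m.v4 % 2 := by clear * - a4 b4 h4; omega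
  have c5 : (a / 32 + b / 32) % 2 = m.v5 % 2 := by clear * - a5 b5 h5; omega
  rw [c0, c1, c2, c3, c4, c5]; rfl

theorem tig_ln {l : ℕ} (h : Sm 15 l) (p k : ℕ) : ln 8 (tig l p) k =
    ln 8 l k + if ln 8 l k = 0 then 0 else (ln 8 l k + ln 8 (pv p) k) % 2 := by
  have t : ∀ j, ln 8 ((l ^^^ pv p) &&& nz l) j =
      if ln 8 l j = 0 then 0 else (ln 8 l j + ln 8 (pv p) j) % 2 := by
    intro j
    rw [ln_and, ln_xor, nz_ln (h.mono (by decide))]
    split
    · exact Nat.and_zero _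
    · rw [and1]; exact xor1 _ (ln8_lt _ _) _ (pv_lt _ _)
  show ln 8 (l + ((l ^^^ pv p) &&& nz l)) k = _
  rw [ln_add (fun j => by have := h.le j; rw [t]; split <;> omega), t]

theorem tig_sm {l : ℕ} (h : Sm 15 l) (p : ℕ) : Sm 16 (tig l p) := by
  intro k
  rw [tig_ln h]
  have := h k
  split at this
  · rw [if_pos (c := k < 2 * NF) ‹_›]; split <;> omega
  · rw [if_pos (by omega)]; omega

theorem tig_sat {l : ℕ} {n : V} (h : LOK l) (hs : SatL l n) : SatL (tig l (par n)) n := by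
  intro k hk
  rw [tig_ln h.sm, pv_ln n hk]
  have := hs k hk
  split <;> omega

/-! ### upper vectors -/

/-- upper vector before the move -/
def Ub0 (u : ℕ) (n : V) : Prop :=
  Sm 199 u ∧ ∀ k < 2 * NF, 73 ≤ ln 8 u k ∧
    (ln 8 u k = 199 ∨ 136 + pos k n ≤ ln 8 u k + pos (bar k) n)

theorem usrc_ln {l : ℕ} (h : Sm 16 l) (k : ℕ) : ln 8 (usrc l) k =
    if k < 2 * NF then (if ln 8 l (bar k) = 0 then 199 else 144 - ln 8 l (bar k)) else 0 := by
  have hs := swp_sm h
  have t : ∀ j, ln 8 (55 * nz (swp l)) j = if ln 8 (swp l) j = 0 then 0 else 55 := by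
    intro j
    rw [ln_mul (fun i => by rw [nz_ln (hs.mono (by decide))]; split <;> omega),
      nz_ln (hs.mono (by decide))]
    split <;> omega
  have t2 : ∀ j, ln 8 (K199 - 55 * nz (swp l)) j =
      (if j < 2 * NF then 199 else 0) - if ln 8 (swp l) j = 0 then 0 else 55 := by
    intro j
    rw [ln_sub (by decide) (fun i => by
      rw [t, K199_eq, cst_ln (by decide)]
      have := hs i
      split <;> split <;> simp_all), t, K199_eq, cst_ln (by decide)]
  show ln 8 (K199 - 55 * nz (swp l) - swp l) k = _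
  rw [ln_sub (by decide) (fun i => by
      rw [t2]
      have := hs i
      split at this
      · rw [if_pos ‹_›]; split <;> omega
      · omega), t2, swp_ln h]
  by_cases hk : k < 2 * NF
  · simp only [if_pos hk]; split <;> omega
  · simp only [if_neg hk]; rfl

theorem usrc_ub {l : ℕ} {n : V} (h : Sm 16 l) (hs : SatL l n) : Ub0 (usrc l) n := by
  refine ⟨fun k => ?_, fun k hk => ?_⟩
  · rw [usrc_ln h]; split
    · split <;> omega
    · exact le_rfl
  · rw [usrc_ln h, if_pos hk]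
    have h1 := hs (bar k) (bar_lt k)
    have h2 := h.le (bar k)
    rw [bar_bar hk] at h1
    split <;> omega

theorem clp_ln (u k : ℕ) :
    ln 8 (clp u) k = if k < 2 * NF then max 128 (ln 8 u k) else 0 := by
  have t : ∀ j, ln 8 (127 * Nat.shiftRight (Nat.land u H8) 7) j =
      if j < 2 * NF then 127 * (ln 8 u j / 128) else 0 := by
    intro j
    rw [ln_mul (fun i => by have := ln8_lt u i; rw [flag_ln]; split <;> omega), flag_ln]
    split <;> omega
  have t2 : ∀ j, ln 8 (u &&& (127 * Nat.shiftRight (Nat.land u H8) 7)) j =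
      if j < 2 * NF then ln 8 u j - 128 else 0 := by
    intro j
    have := ln8_lt u j
    rw [ln_and, t]
    split
    · by_cases e : ln 8 u j < 128
      · rw [show ln 8 u j / 128 = 0 by omega, Nat.mul_zero, Nat.and_zero]; omega
      · rw [show ln 8 u j / 128 = 1 by omega, Nat.mul_one, and127]; omega
    · exact Nat.and_zero _
  show ln 8 ((u &&& (127 * Nat.shiftRight (Nat.land u H8) 7)) + H8) k = _
  rw [ln_add (fun i => by
    have := ln8_lt u i
    rw [t2, H8_eq, cst_ln (by decide)]; split <;> omega), t2, H8_eq, cst_ln (by decide)]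
  split <;> omega

theorem shf_ub {u : ℕ} {dp dn n m : V} (h : Ub0 u n) (hs : ShiftN dp dn n m)
    (hm : mvOK dp dn = true) : Ub (shf u dp dn) m := by
  have hP := dP_sm hm
  have hd := mvOK_le hm
  have hN := swp_sm hP
  have t1 := ln_add (w := 8) (A := u) (B := swp (dP dp dn))
    (fun j => by have := h.1.le j; have := hN.le j; omega)
  have t2 := ln_sub (w := 8) (by decide) (A := u + swp (dP dp dn)) (B := dP dp dn) (fun j => by
    rw [t1]
    by_cases hj : j < 2 * NF
    · have := (h.2 j hj).1; have := hP.le j; omega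
    · rw [hP.hi hj]; omega)
  refine ⟨?_, fun k hk => ?_⟩
  · rw [show 16 * NF = 8 * (2 * NF) by omega]
    exact lt_of_ln (by decide) (fun k hk => by unfold shf; rw [clp_ln, if_neg (by omega)])
  · have e : ln 8 (shf u dp dn) k = max 128 (ln 8 (u + swp (dP dp dn) - dP dp dn) k) := by
      unfold shf; rw [clp_ln, if_pos hk]; rfl
    have b1 := hP.le k
    rw [dP_ln hd, if_pos hk] at b1
    rw [e, t2, t1, swp_ln hP, if_pos hk, dP_ln hd, dP_ln hd, if_pos hk, if_pos (bar_lt k),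
      bar_bar hk]
    have s1 := pos_shift hs k
    have s2 := pos_shift hs (bar k)
    have := h.2 k hk
    omega

theorem ub_prune {l : ℕ} {dp dn n m : V} (h : LOK l) (hl : SatL l n) (hs : ShiftN dp dn n m)
    (hd : mvOK dp dn = true) : Ub (shf (usrc l) dp dn) m :=
  shf_ub (usrc_ub (h.sm.mono (by decide)) hl) hs hd

theorem tst_of {u l : ℕ} {n : V} (hu : Ub u n) (hl : SatL l n) (h : LOK l) : tst u l = true := by
  have t := ln_sub (w := 8) (by decide) (A := u) (B := l) (fun j => by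
    by_cases hj : j < 2 * NF
    · have := (hu.2 j hj).1; have := h.sm.le j; omega
    · rw [h.sm.hi hj]; omega)
  have e : (u - l) &&& H8 = H8 := eq_of_ln (w := 8) (by decide) (fun j => by
    rw [andH8_ln, H8_eq, cst_ln (by decide), t]
    split
    · rename_i hj
      have := hu.2 j hj
      have := hl j hj
      have := h.sm.le j
      have := ln8_lt u j
      omega
    · rfl)
  exact Nat.beq_eq ▸ e

end Pool.Agent.MP_242484_co.On
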