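import Pool.Agent.MP_242484_co.cert.Prim
import Pool.Agent.MP_242484_co.cert.Forms

/-!
The search tree of the certificate and the kernel routines that read it.

A *label* is a number with `2 NF` lanes of 8 bits; lane `k` bounds the signed form `ψ k` from below
(`ψ k = φ k`, `ψ (NF + k) = - φ k`): value `0` is no bound, value `a` is `a - 8 ≤ ψ k`.
An *upper vector* has lanes `136 +` an upper bound of `ψ k` (`199` is no bound).
A *generator* is a lane of 44 bits: six fields of 6 bits (read modulo 16), bit 36 (valid), a free tag.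
-/

set_option autoImplicit false

namespace Pool.Agent.MP_242484_co.On

/-! ### data -/

/-- generators of one key, in chunks; `d` marks a key without points -/
inductive L where
  | d : L
  | e : L
  | c (x : ℕ) (r : L) : L

/-- table parity ↦ generators; the fringe `z` is dead, the fringe `y` is empty -/
inductive Tb where
  | z : Tb
  | y : Tb
  | n (p : ℕ) (l : L) (a b : Tb) : Tb

/-- first child / next sibling tree; `co` has a full label and a table, `br` a label of some levels only,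
`top` is a region that is not refined; `ce` is the cover certificate; `pn` is a search tree on the
parity; `mi` is a region that is treated through its mirror image -/
inductive T where
  | nil : T
  | top : T
  | co (lab ce : ℕ) (tb : Tb) (s r : T) : T
  | br (lab ce : ℕ) (s r : T) : T
  | pn (p : ℕ) (s a b : T) : T
  | mi (lab ce : ℕ) (bl br : Bool) (r : T) : T

/-- table of circuits `mu ψ k ≥ ∑ λ ψ i` (terms `(i, λ)`, `la = ∑ λ`) -/
inductive Cb where
  | z : Cb
  | n (id k mu la : ℕ) (ts : List (ℕ × ℕ)) (a b : Cb) : Cb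

/-! ### semantics -/

def ln (w N k : ℕ) : ℕ := Nat.mod (Nat.shiftRight N (Nat.mul w k)) (Nat.pow 2 w)

/-- the lane of the opposite form -/
def bar (k : ℕ) : ℕ := Nat.mod (Nat.add k NF) (Nat.mul 2 NF)

/-- positive part of the signed form `k` -/
def pos (k : ℕ) (n : V) : ℕ :=
  ln 8 C0 k * n.v0 + ln 8 C1 k * n.v1 + ln 8 C2 k * n.v2 + ln 8 C3 k * n.v3 + ln 8 C4 k * n.v4 +
    ln 8 C5 k * n.v5

/-- the sizes `n` satisfy the label -/
def SatL (l : ℕ) (n : V) : Prop :=
  ∀ k < 2 * NF, ln 8 l k = 0 ∨ ln 8 l k + pos (bar k) n ≤ 8 + pos k n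

/-- parity index -/
def par (n : V) : ℕ :=
  n.v0 % 2 + 2 * (n.v1 % 2) + 4 * (n.v2 % 2) + 8 * (n.v3 % 2) + 16 * (n.v4 % 2) + 32 * (n.v5 % 2)

noncomputable def look (p : ℕ) (t : Tb) : L :=
  Tb.rec L.d L.e (fun q l _ _ ia ib =>
    Bool.rec (Bool.rec ib ia (Nat.ble p q)) l (Nat.beq p q)) t

noncomputable def unp (x : ℕ) (tl : List ℕ) : List ℕ :=
  Nat.rec (motive := fun _ => ℕ → List ℕ) (fun _ => tl)
    (fun _ ih x => Bool.rec (Nat.mod x LM :: ih (Nat.shiftRight x 44)) tl (Nat.beq x 0)) QQ x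

/-- the generators (raw lanes) of a key -/
noncomputable def gens (l : L) : List ℕ := L.rec [] [] (fun x _ ih => unp x ih) l

noncomputable def alive (l : L) : Bool := L.rec false true (fun _ _ ih => ih) l

/-- `P` holds at some node whose label holds -/
def T.Ex (P : ℕ → Tb → Prop) : T → Prop
  | .nil => False
  | .top => False
  | .co l _ tb s r => P l tb ∨ s.Ex P ∨ r.Ex P
  | .br _ _ s r => s.Ex P ∨ r.Ex P
  | .pn _ s a b => s.Ex P ∨ a.Ex P ∨ b.Ex P
  | .mi _ _ _ _ r => r.Ex P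

/-- `g` is a generator of a key of `n` -/
def LaneN (t : T) (n : V) (g : ℕ) : Prop :=
  t.Ex (fun l tb => SatL l n ∧ g ∈ gens (look (par n) tb))

/-- a label with lanes `≤ 15` -/
def LOK (l : ℕ) : Prop := Nat.land l M15L = l

/-- the tree covers `n` -/
def Tot (n : V) : T → Prop
  | .nil => False
  | .top => True
  | .co l _ tb s r => (LOK l ∧ SatL l n ∧ alive (look (par n) tb) = true ∧ Tot n s) ∨ Tot n r
  | .br l _ s r => (LOK l ∧ SatL l n ∧ Tot n s) ∨ Tot n r
  | .pn p s a b => if par n = p then Tot n s else if par n ≤ p then Tot n a else Tot n b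
  | .mi l _ _ _ r => (LOK l ∧ SatL l n) ∨ Tot n r

/-- `u` is an upper vector for the sizes `n` -/
def Ub (u : ℕ) (n : V) : Prop :=
  u < 2 ^ (16 * NF) ∧ ∀ k < 2 * NF, 128 ≤ ln 8 u k ∧
    (143 ≤ ln 8 u k ∨ 136 + pos k n ≤ ln 8 u k + pos (bar k) n)

/-- `m = n - dp + dn` -/
def ShiftN (dp dn n m : V) : Prop :=
  m.v0 + dp.v0 = n.v0 + dn.v0 ∧ m.v1 + dp.v1 = n.v1 + dn.v1 ∧ m.v2 + dp.v2 = n.v2 + dn.v2 ∧
    m.v3 + dp.v3 = n.v3 + dn.v3 ∧ m.v4 + dp.v4 = n.v4 + dn.v4 ∧ m.v5 + dp.v5 = n.v5 + dn.v5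

/-! ### labels -/

def swp (a : ℕ) : ℕ := Nat.add (Nat.shiftRight a HB) (Nat.shiftLeft (Nat.mod a HM) HB)

def cmb (a : V) : ℕ :=
  Nat.add (Nat.add (Nat.add (Nat.mul a.v0 C0) (Nat.mul a.v1 C1))
    (Nat.add (Nat.mul a.v2 C2) (Nat.mul a.v3 C3))) (Nat.add (Nat.mul a.v4 C4) (Nat.mul a.v5 C5))

/-- lane `k` is the positive part of `ψ k (dp - dn)` -/
def dP (dp dn : V) : ℕ := Nat.add (cmb dp) (swp (cmb dn))

def vsum (a : V) : ℕ :=
  Nat.add (Nat.add (Nat.add a.v0 a.v1) (Nat.add a.v2 a.v3)) (Nat.add a.v4 a.v5)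

/-- `1` in the lanes that are not zero -/
def nz (l : ℕ) : ℕ := Nat.shiftRight (Nat.land (Nat.add l K127) H8) 7

def bits (p : ℕ) : V := ⟨p % 2, p / 2 % 2, p / 4 % 2, p / 8 % 2, p / 16 % 2, p / 32 % 2⟩

/-- parities of the forms -/
def pv (p : ℕ) : ℕ := Nat.land (dP (bits p) (bits p)) O1

/-- the label, tightened by the parities -/
def tig (l p : ℕ) : ℕ := Nat.add l (Nat.land (Nat.xor l (pv p)) (nz l))

/-- upper vector of a label -/
def usrc (l : ℕ) : ℕ := Nat.sub (Nat.sub K199 (Nat.mul 55 (nz (swp l)))) (swp l)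

/-- lanes below `128` are raised to `128` -/
def clp (u : ℕ) : ℕ := Nat.add (Nat.land u (Nat.mul 127 (Nat.shiftRight (Nat.land u H8) 7))) H8

/-- upper vector after the move -/
def shf (u : ℕ) (dp dn : V) : ℕ := clp (Nat.sub (Nat.add u (swp (dP dp dn))) (dP dp dn))

/-- the move changes each form by at most `56` -/
noncomputable def mvOK (dp dn : V) : Bool :=
  an (Nat.ble (Nat.add (vsum dp) (vsum dn)) 42) (Nat.beq (Nat.land (Nat.add (dP dp dn) K71) H8) 0)

def tst (u l : ℕ) : Bool := Nat.beq (Nat.land (Nat.sub u l) H8) H8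

/-- lower bound for the signed form `k` at a key (`0` is no bound) -/
def low (l p k : ℕ) : ℕ := ln 8 (tig l p) k

/-! ### all generators against all generators -/

/-- evaluate `x` before calling `k` -/
noncomputable def frc (x : ℕ) (z : Bool) (k : ℕ → Bool) : Bool :=
  Nat.rec (motive := fun _ => Bool) z (fun y _ => k (Nat.succ y)) x

noncomputable def len (g : List ℕ) : ℕ := List.rec 0 (fun _ _ ih => Nat.succ ih) g

noncomputable def spr (g : List ℕ) : ℕ :=
  List.rec 0 (fun q _ ih => Nat.add (Nat.land q MM) (Nat.shiftLeft ih RW)) g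

noncomputable def rep (m : ℕ) : ℕ :=
  Nat.rec (motive := fun _ => ℕ) 0 (fun _ ih => Nat.succ (Nat.shiftLeft ih RW)) m

noncomputable def ful (m : ℕ) : ℕ := Nat.mul OQ (rep m)

noncomputable def arow (g : List ℕ) (m K : ℕ) : ℕ :=
  Nat.add (Nat.mul (spr g) OQ) (Nat.mul (Nat.add K B37) (ful m))

def hit1 (a1 a2 hh kk tt rk r : ℕ) : ℕ :=
  Nat.add (Nat.land (Nat.lor (Nat.add (Nat.land (Nat.sub a1 r) hh) kk)
    (Nat.add (Nat.land (Nat.sub a2 r) hh) kk)) tt) rk

/-- The low 64 bits of a mask carry no flag. They only spread the hash values of the kernel. -/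
def B64 : ℕ := 18446744073709551615

noncomputable def orz (k : ℕ → Bool) (x : ℕ) : Bool := Bool.rec (k x) true (Nat.ble x B64)

/-- `k` runs on the rows of `nd` that are not hit by the generators `l` -/
noncomputable def res (h : ℕ → ℕ) (k : ℕ → Bool) (l : L) (nd : ℕ) : Bool :=
  L.rec (motive := fun _ => ℕ → Bool) (fun _ => true) k
    (fun x _ ih nd => orz ih (Nat.xor nd (Nat.land (h x) nd))) l nd

noncomputable def go (h : ℕ → ℕ) (mk : ℕ → Bool → Bool → ℕ → Bool) (p u : ℕ) (t : T) (nd : ℕ) :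
    Bool :=
  T.rec (motive := fun _ => ℕ → Bool) (fun _ => true) (fun _ => false)
    (fun l _ tb _ _ is ir nd =>
      Bool.rec (ir nd) (Bool.rec false (ir nd) (res h is (look p tb) nd)) (tst u l))
    (fun l _ _ _ is ir nd => Bool.rec (ir nd) (Bool.rec false (ir nd) (is nd)) (tst u l))
    (fun q _ _ _ is ia ib nd =>
      Bool.rec (Bool.rec (ib nd) (ia nd) (Nat.ble p q)) (is nd) (Nat.beq p q))
    (fun l _ bl br _ ir nd =>
      Bool.rec (ir nd) (Bool.rec false (ir nd) (mk l bl br nd)) (tst u l)) t nd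

/-- the part of the tree that is compatible with the upper vector `u` -/
noncomputable def prune (u : ℕ) (t a : T) : T :=
  T.rec (motive := fun _ => T → T) (fun a => a) (fun _ => T.top)
    (fun l _ tb s _ _ ir a => Bool.rec (ir a) (T.co l 0 tb s (ir a)) (tst u l))
    (fun l _ _ _ is ir a => Bool.rec (ir a) (is (ir a)) (tst u l))
    (fun _ _ _ _ _ _ _ _ => T.top)
    (fun l _ bl br _ ir a => Bool.rec (ir a) (T.mi l 0 bl br (ir a)) (tst u l)) t a

def dpar (dp dn : V) : ℕ :=
  par ⟨dp.v0 + dn.v0, dp.v1 + dn.v1, dp.v2 + dn.v2, dp.v3 + dn.v3, dp.v4 + dn.v4, dp.v5 + dn.v5⟩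

noncomputable def hitf (g : List ℕ) (m K1 K2 : ℕ) (x : ℕ) : ℕ :=
  hit1 (arow g m K1) (arow g m K2) (Nat.mul HL (ful m)) (Nat.mul KL (ful m)) (Nat.mul TL (ful m))
    (Nat.mul RK (rep m)) (Nat.mul (Nat.land x FM) (rep m))

/-- `hitf` with one shift -/
noncomputable def hitf1 (g : List ℕ) (m K : ℕ) (x : ℕ) : ℕ :=
  Nat.add (Nat.land (Nat.add (Nat.land (Nat.sub (arow g m K) (Nat.mul (Nat.land x FM) (rep m)))
    (Nat.mul HL (ful m))) (Nat.mul KL (ful m))) (Nat.mul TL (ful m))) (Nat.mul RK (rep m))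

/-! ### the sources -/

noncomputable def allTb (f : ℕ → L → Bool) (t : Tb) : Bool :=
  Tb.rec true true (fun p l _ _ ia ib => Bool.rec false (Bool.rec false ib ia) (f p l)) t

/-- `f lg l p g` at all keys; `lg` is the label of the enclosing `co` node -/
noncomputable def allT (f : ℕ → ℕ → ℕ → L → Bool) (t : T) (lg : ℕ) : Bool :=
  T.rec (motive := fun _ => ℕ → Bool) (fun _ => true) (fun _ => true)
    (fun l _ tb _ _ is ir lg => Bool.rec false (Bool.rec false (ir lg) (is l)) (allTb (f lg l) tb))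
    (fun _ _ _ _ is ir lg => Bool.rec false (ir lg) (is lg))
    (fun _ _ _ _ is ia ib lg => Bool.rec false (Bool.rec false (ib lg) (ia lg)) (is lg))
    (fun _ _ _ _ _ ir lg => ir lg) t lg

/-! ### the cover pass -/

/-- coefficient check of a circuit for the atom with column `C` -/
noncomputable def cok1 (C k mu : ℕ) (ts : List (ℕ × ℕ)) : Bool :=
  Nat.ble
    (List.rec (Nat.mul mu (ln 8 C (bar k))) (fun t _ ih => Nat.add (Nat.mul t.2 (ln 8 C t.1)) ih) ts)
    (List.rec (Nat.mul mu (ln 8 C k)) (fun t _ ih => Nat.add (Nat.mul t.2 (ln 8 C (bar t.1))) ih) ts)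

/-- all circuits of the table are valid -/
noncomputable def cbOK (cb : Cb) : Bool :=
  Cb.rec true (fun _ k mu la ts _ _ ia ib =>
    an (an (an (Nat.ble (Nat.succ k) (Nat.mul 2 NF)) (Nat.ble 1 mu))
        (an (allL (fun t => Nat.ble (Nat.succ t.1) (Nat.mul 2 NF)) ts)
          (Nat.beq la (List.rec 0 (fun t _ ih => Nat.add t.2 ih) ts))))
      (an (an (an (cok1 C0 k mu ts) (cok1 C1 k mu ts)) (an (cok1 C2 k mu ts) (cok1 C3 k mu ts)))
        (an (an (cok1 C4 k mu ts) (cok1 C5 k mu ts)) (an ia ib)))) cb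

/-- the label of all sizes: `0 ≤ n j` -/
def c0 : ℕ := 0x080808080808

/-- raise lane `k` to `a` -/
def upd (c k a : ℕ) : ℕ := Nat.add c (Nat.shiftLeft (Nat.sub a (ln 8 c k)) (Nat.mul 8 k))

noncomputable def min15 (a : ℕ) : ℕ := Bool.rec 15 a (Nat.ble a 15)

noncomputable def der (c : ℕ) (ts : List (ℕ × ℕ)) (acc : ℕ) : ℕ :=
  List.rec (motive := fun _ => ℕ → ℕ) (fun acc => acc)
    (fun t _ ih acc => Bool.rec (ih (Nat.add acc (Nat.mul t.2 (ln 8 c t.1)))) 0
      (Nat.beq (ln 8 c t.1) 0)) ts acc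

/-- apply the circuit `id` -/
noncomputable def app (cb : Cb) (id c : ℕ) : ℕ :=
  Cb.rec c (fun q k mu la ts _ _ ia ib =>
    Bool.rec (Bool.rec ib ia (Nat.ble id q))
      (upd c k (min15 (Nat.div (Nat.sub (der c ts (Nat.pred (Nat.mul 9 mu))) (Nat.mul 8 la)) mu)))
      (Nat.beq id q)) cb

/-- tighten by the parity, and cut at `15` -/
def tgc (c p : ℕ) : ℕ := Nat.sub (tig c p) (Nat.land (Nat.shiftRight (tig c p) 4) O1)

/-- apply the circuits listed in `x` (20 bits each); `1` is the step that uses the parity `p < 64` -/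
noncomputable def steps (cb : Cb) (p x c : ℕ) : ℕ :=
  Nat.rec (motive := fun _ => ℕ → ℕ → ℕ) (fun _ c => c)
    (fun _ ih x c => Bool.rec (ih (Nat.shiftRight x 20)
      (Bool.rec (app cb (Nat.mod x 1048576) c) (Bool.rec c (tgc c p) (Nat.ble p 63))
        (Nat.beq (Nat.mod x 1048576) 1))) c (Nat.beq x 0)) 900 x c

/-- some interval is empty -/
noncomputable def contra (c : ℕ) : Bool :=
  cd (Nat.beq (Nat.land (Nat.add (Nat.add c (swp c)) K111) H8) 0) false true

/-- each parity has a key or clashes with an exact value (`ex` marks the exact lanes) -/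
noncomputable def parOK (c ex : ℕ) (tb : Tb) : Bool :=
  Nat.rec (motive := fun _ => Bool) true (fun p ih =>
    Bool.rec false ih (Bool.rec true (alive (look p tb))
      (Nat.beq (Nat.land (Nat.xor c (pv p)) ex) 0))) 64

/-- `1` in the lanes with `c k + c (bar k) ≥ 16` -/
def exa (c : ℕ) : ℕ := Nat.shiftRight (Nat.land (Nat.add (Nat.add c (swp c)) K112) H8) 7

noncomputable def cov1 (l : ℕ) (is : ℕ → Bool) (c : ℕ) : Bool :=
  an (Nat.beq (Nat.land l M15L) l) (an (tst (Nat.add c H8) l) (is c))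

noncomputable def cov3 (cb : Cb) (p l x k a : ℕ) (is ir : ℕ → Bool) (c : ℕ) : Bool :=
  an (cov1 l is (steps cb p x (upd c k a)))
    (oo (Nat.beq a 0) (ir (upd c (bar k) (min15 (Nat.sub 17 a)))))

noncomputable def cov2 (cb : Cb) (p l ce : ℕ) (is ir : ℕ → Bool) (c : ℕ) : Bool :=
  cov3 cb p l (Nat.shiftRight ce 12) (Nat.mod (Nat.mod ce 256) (Nat.mul 2 NF))
    (Nat.mod (Nat.shiftRight ce 8) 16) is ir c

/-- the table has the parity `p`, or all parities that fit if `p` is not known -/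
noncomputable def tbOK (p c : ℕ) (tb : Tb) : Bool :=
  cd (Nat.ble p 63) (alive (look p tb)) (parOK c (exa c) tb)

noncomputable def upto (N : ℕ) (p : ℕ → Bool) : Bool :=
  @Nat.rec (fun _ => Bool) true (fun n ih => an ih (p n)) N

noncomputable def covP (q : ℕ) (is ia ib : ℕ → ℕ → Bool) (p c : ℕ) : Bool :=
  cd (Nat.beq p q) (is p c) (cd (Nat.ble p q) (ia p c) (ib p c))

/-- every `n` with label `c` (and parity `p` if `p < 64`) is covered by the tree -/
noncomputable def cov (cb : Cb) (t : T) (p c : ℕ) : Bool :=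
  T.rec (motive := fun _ => ℕ → ℕ → Bool) (fun _ c => contra c) (fun _ _ => true)
    (fun l ce tb _ _ is ir p c => cov2 cb p l ce (fun c => an (tbOK p c tb) (is p c)) (ir p) c)
    (fun l ce _ _ is ir p c => cov2 cb p l ce (is p) (ir p) c)
    (fun q _ _ _ is ia ib p c => cd (Nat.ble p 63) (covP q is ia ib p c)
      (upto 64 fun p => covP q is ia ib p (tgc c p)))
    (fun l ce _ _ _ ir p c => cov2 cb p l ce (fun _ => true) (ir p) c) t p c

end Pool.Agent.MP_242484_co.On
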