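import Mathlib.Data.Nat.ModEq
import Pool.Agent.MP_242484_co.cert.Trie

/-!
Lane arithmetic: numbers read as vectors of lanes of a fixed width.
-/

set_option autoImplicit false

namespace Pool.Agent.MP_242484_co.On

theorem ln_eq (w N k : ℕ) : ln w N k = N / 2 ^ (w * k) % 2 ^ w := by
  unfold ln
  rw [← Nat.shiftRight_eq_div_pow]; rfl

theorem ln_lt (w N k : ℕ) : ln w N k < 2 ^ w := by
  rw [ln_eq]; exact Nat.mod_lt _ (Nat.two_pow_pos w)

theorem ln8_lt (N k : ℕ) : ln 8 N k < 256 := ln_lt 8 N k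

theorem ln_at0 (w N : ℕ) : ln w N 0 = N % 2 ^ w := by
  rw [ln_eq]; simp

theorem ln_div (w N j k : ℕ) : ln w (N / 2 ^ (w * j)) k = ln w N (k + j) := by
  rw [ln_eq, ln_eq, Nat.div_div_eq_div_mul, ← Nat.pow_add, Nat.mul_add, Nat.add_comm (w * j)]

theorem ln_succ (w N k : ℕ) : ln w N (k + 1) = ln w (N / 2 ^ w) k := by
  rw [← ln_div, Nat.mul_one]

theorem ln_zero (w k : ℕ) : ln w 0 k = 0 := by
  rw [ln_eq]; simp

theorem ln_hi {w N m k : ℕ} (h : N < 2 ^ (w * m)) (hk : m ≤ k) : ln w N k = 0 := by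
  rw [ln_eq, Nat.div_eq_of_lt, Nat.zero_mod]
  exact lt_of_lt_of_le h (Nat.pow_le_pow_right (by decide) (Nat.mul_le_mul_left w hk))

theorem ln_add {w A B : ℕ} (h : ∀ j, ln w A j + ln w B j < 2 ^ w) (k : ℕ) :
    ln w (A + B) k = ln w A k + ln w B k := by
  induction k generalizing A B with
  | zero =>
    have h0 := h 0
    rw [ln_at0, ln_at0] at h0
    rw [ln_at0, ln_at0, ln_at0, Nat.add_mod_of_add_mod_lt h0]
  | succ k ih =>
    have h0 := h 0
    rw [ln_at0, ln_at0] at h0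
    rw [ln_succ, ln_succ, ln_succ, Nat.add_div_eq_of_add_mod_lt h0]
    exact ih (fun j => by rw [← ln_succ, ← ln_succ]; exact h _)

theorem le_of_ln {w : ℕ} (hw : 0 < w) {A B : ℕ} (h : ∀ j, ln w B j ≤ ln w A j) : B ≤ A := by
  induction B using Nat.strong_induction_on generalizing A with
  | _ B ih =>
    rcases Nat.eq_zero_or_pos B with rfl | hB
    · exact Nat.zero_le _
    have h0 := h 0
    rw [ln_at0, ln_at0] at h0
    have h1 : B / 2 ^ w ≤ A / 2 ^ w :=
      ih _ (Nat.div_lt_self hB (Nat.one_lt_two_pow (by omega)))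
        (fun j => by rw [← ln_succ, ← ln_succ]; exact h _)
    have := Nat.mul_le_mul_left (2 ^ w) h1
    have e1 := Nat.div_add_mod A (2 ^ w)
    have e2 := Nat.div_add_mod B (2 ^ w)
    omega

theorem eq_of_ln {w : ℕ} (hw : 0 < w) {A B : ℕ} (h : ∀ j, ln w A j = ln w B j) : A = B :=
  Nat.le_antisymm (le_of_ln hw (fun j => (h j).le)) (le_of_ln hw (fun j => (h j).ge))

theorem ln_sub {w : ℕ} (hw : 0 < w) {A B : ℕ} (h : ∀ j, ln w B j ≤ ln w A j) (k : ℕ) :
    ln w (A - B) k = ln w A k - ln w B k := by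
  induction k generalizing A B with
  | zero =>
    have h0 := h 0
    have hl := le_of_ln hw h
    rw [ln_at0, ln_at0] at h0
    rw [ln_at0, ln_at0, ln_at0]
    have h1 : B / 2 ^ w ≤ A / 2 ^ w := Nat.div_le_div_right hl
    have e : A - B = (A % 2 ^ w - B % 2 ^ w) + 2 ^ w * (A / 2 ^ w - B / 2 ^ w) := by
      have := Nat.mul_le_mul_left (2 ^ w) h1
      have e1 := Nat.div_add_mod A (2 ^ w)
      have e2 := Nat.div_add_mod B (2 ^ w)
      rw [Nat.mul_sub]; omega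
    rw [e, Nat.add_mul_mod_self_left, Nat.mod_eq_of_lt]
    have := Nat.mod_lt A (Nat.two_pow_pos w)
    omega
  | succ k ih =>
    have h0 := h 0
    have hl := le_of_ln hw h
    rw [ln_at0, ln_at0] at h0
    have h1 : B / 2 ^ w ≤ A / 2 ^ w := Nat.div_le_div_right hl
    have e : A - B = (A % 2 ^ w - B % 2 ^ w) + 2 ^ w * (A / 2 ^ w - B / 2 ^ w) := by
      have := Nat.mul_le_mul_left (2 ^ w) h1
      have e1 := Nat.div_add_mod A (2 ^ w)
      have e2 := Nat.div_add_mod B (2 ^ w)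
      rw [Nat.mul_sub]; omega
    have e' : (A - B) / 2 ^ w = A / 2 ^ w - B / 2 ^ w := by
      rw [e, Nat.add_mul_div_left _ _ (Nat.two_pow_pos w), Nat.div_eq_of_lt, Nat.zero_add]
      have := Nat.mod_lt A (Nat.two_pow_pos w)
      omega
    rw [ln_succ, ln_succ, ln_succ, e']
    exact ih (fun j => by rw [← ln_succ, ← ln_succ]; exact h _)

theorem ln_mul {w c A : ℕ} (h : ∀ j, c * ln w A j < 2 ^ w) (k : ℕ) :
    ln w (c * A) k = c * ln w A k := by
  induction c generalizing k with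
  | zero => simp [ln_zero]
  | succ c ih =>
    have ih' := ih (fun j => lt_of_le_of_lt (Nat.mul_le_mul_right _ (Nat.le_succ c)) (h j))
    rw [Nat.succ_mul, Nat.succ_mul, ln_add, ih']
    intro j
    rw [ih', ← Nat.succ_mul]; exact h j

theorem ln_and (w A B k : ℕ) : ln w (A &&& B) k = ln w A k &&& ln w B k := by
  rw [ln_eq, ln_eq, ln_eq, Nat.and_div_two_pow, Nat.and_mod_two_pow]

theorem ln_or (w A B k : ℕ) : ln w (A ||| B) k = ln w A k ||| ln w B k := by
  rw [ln_eq, ln_eq, ln_eq, Nat.or_div_two_pow, Nat.or_mod_two_pow]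

theorem ln_xor (w A B k : ℕ) : ln w (A ^^^ B) k = ln w A k ^^^ ln w B k := by
  rw [ln_eq, ln_eq, ln_eq, Nat.xor_div_two_pow, Nat.xor_mod_two_pow]

theorem ln_shl (w M j k : ℕ) :
    ln w (M * 2 ^ (w * j)) k = if k < j then 0 else ln w M (k - j) := by
  split
  · rename_i h
    obtain ⟨d, rfl⟩ : ∃ d, j = k + 1 + d := ⟨j - (k + 1), by omega⟩
    rw [ln_eq, show w * (k + 1 + d) = (w * d + w) + w * k by ring, Nat.pow_add, ← Nat.mul_assoc,
      Nat.mul_div_cancel _ (Nat.two_pow_pos _), Nat.pow_add, ← Nat.mul_assoc, Nat.mul_mod_left]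
  · rename_i h
    obtain ⟨d, rfl⟩ : ∃ d, k = d + j := ⟨k - j, by omega⟩
    rw [← ln_div, Nat.mul_div_cancel _ (Nat.two_pow_pos _), Nat.add_sub_cancel]

theorem ln_mod (w N j k : ℕ) :
    ln w (N % 2 ^ (w * j)) k = if k < j then ln w N k else 0 := by
  split
  · rename_i h
    obtain ⟨d, rfl⟩ : ∃ d, j = k + 1 + d := ⟨j - (k + 1), by omega⟩
    rw [ln_eq, ln_eq, show w * (k + 1 + d) = w * k + (w + w * d) by ring, Nat.pow_add,
      Nat.mod_mul_right_div_self, Nat.pow_add, Nat.mod_mul_right_mod]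
  · rename_i h
    exact ln_hi (Nat.mod_lt _ (Nat.two_pow_pos _)) (by omega)

theorem lt_of_ln {w : ℕ} (hw : 0 < w) {N m : ℕ} (h : ∀ k, m ≤ k → ln w N k = 0) :
    N < 2 ^ (w * m) := by
  have : N / 2 ^ (w * m) = 0 := eq_of_ln hw (fun j => by rw [ln_div, ln_zero]; exact h _ (by omega))
  exact (Nat.div_eq_zero_iff_lt (Nat.two_pow_pos _)).1 this

theorem ln_ln {w Q N i j : ℕ} (h : j < Q) : ln w (ln (w * Q) N i) j = ln w N (Q * i + j) := by
  rw [ln_eq (w * Q), ln_mod, if_pos h, Nat.mul_assoc, ln_div, Nat.add_comm]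

theorem ln_shr7 (x k : ℕ) : ln 8 (x / 128) k = ln 8 x k / 128 + 2 * (ln 8 x (k + 1) % 128) := by
  rw [ln_eq, ln_eq, ln_eq, Nat.div_div_eq_div_mul, Nat.mul_comm 128, ← Nat.div_div_eq_div_mul,
    Nat.mul_add, Nat.pow_add, ← Nat.div_div_eq_div_mul]
  omega

end Pool.Agent.MP_242484_co.On
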