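import Pool.Agent.MP_242484_co.cert.Sem
import Pool.Agent.MP_242484_co.cert.Trie

/-!
The default planner. Nothing is proved about it: `comp_sound` holds for every plan.
-/

set_option autoImplicit false

namespace Pool.Agent.MP_242484_co.On

abbrev PL : Type := Plan Sn

/-- refute after removing the atoms of known size -/
noncomputable def refP : PL := .see fun c =>
  .refute ⟨cd c.ex.b0 c.lo.v0 0, cd c.ex.b1 c.lo.v1 0, cd c.ex.b2 c.lo.v2 0, cd c.ex.b3 c.lo.v3 0,
    cd c.ex.b4 c.lo.v4 0, cd c.ex.b5 c.lo.v5 0⟩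

/-- split of an atom; a branch that contradicts the label is closed at once -/
noncomputable def spl (j : Ix) (p q : PL) : PL :=
  .split j (.unl (j.sel 0 1 2 3 4 5) p) (.unl (Nat.add NF (j.sel 0 1 2 3 4 5)) q)

noncomputable def splitZ (Z : Ix) (p q : PL) : PL :=
  Z.sel (spl .i0 p q) (.splitA p q) (spl .i2 p q) (.splitW p q) (spl .i4 p q) (spl .i5 p q)

/-- all sizes of `Z` for which the raised level fails; `p` runs with `|Z|` exact -/
noncomputable def loopZ (Z : Ix) (p : PL) : PL :=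
  @Nat.rec (fun _ => PL) .fail (fun _ ih => .skipUp (splitZ Z (.skip Z (.skipUp p)) ih)) 16

noncomputable def raiseRef (U : Ix) (r : ℕ) (k : PL) : PL := .raise U r (loopZ U refP) k

/-- afterwards atom `j` is exact or at least `t` -/
noncomputable def upTo (j : Ix) (t : ℕ) (k : PL) : PL :=
  @Nat.rec (fun _ => PL) .fail (fun _ ih => .see fun c =>
    cd (oo (c.ex.get j) (Nat.ble t (c.lo.get j))) k (spl j (.orE refP k) ih)) 16

/-- split off the case that atom `j` is used up by the move -/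
noncomputable def dieAt (j : Ix) (d : ℕ) (yes : Ctx → Bool) (sk : PL → PL) (k : PL) : PL :=
  cd (Nat.beq d 0) k (.see fun c =>
    cd (an (Nat.beq (c.lo.get j) d) (an (nt (c.ex.get j)) (yes c))) (spl j (sk k) k) k)

noncomputable def die (dp : V) (k : PL) : PL :=
  dieAt .i0 dp.v0 (fun _ => true) (fun p => .skip .i0 (.skip .i1 p))
    (dieAt .i1 dp.v1 (fun c => c.ex.b0) (.skip .i1)
      (dieAt .i2 dp.v2 (fun _ => true) (fun p => .skip .i2 (.skip .i3 p))
        (dieAt .i3 dp.v3 (fun c => c.ex.b2) (.skip .i3)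
          (dieAt .i4 dp.v4 (fun _ => true) (.skip .i4)
            (dieAt .i5 dp.v5 (fun _ => true) (.skip .i5) k)))))

/-- fix how `rF` removals from `F` and `rA` from `A` are spread over `f`, `c` -/
noncomputable def sideA (rF rA : ℕ) (k : ℕ → ℕ → PL) : PL :=
  upTo .i0 rF (.see fun c => force (mn rF c.lo.v0) fun df => force (Nat.sub rA df) fun t =>
    upTo .i1 t (.see fun c => force (mn t c.lo.v1) fun dc => k df dc))

noncomputable def sideW (rG rW : ℕ) (k : ℕ → ℕ → PL) : PL :=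
  upTo .i2 rG (.see fun c => force (mn rG c.lo.v2) fun dg => force (Nat.sub rW dg) fun t =>
    upTo .i3 t (.see fun c => force (mn t c.lo.v3) fun de => k dg de))

noncomputable def sideX (r : ℕ) (k : ℕ → PL) : PL :=
  upTo .i4 r (.see fun c => force (mn r c.lo.v4) k)

noncomputable def sideY (r : ℕ) (k : ℕ → PL) : PL :=
  upTo .i5 r (.see fun c => force (mn r c.lo.v5) k)

noncomputable def fin (t : Sn) (dp dn χ : V) (hs : List ℕ) : PL :=
  die dp (.orE (.act t dp dn χ hs) refP)

/-- all four left sets are charged `r` times -/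
noncomputable def chgL (r : ℕ) (k : ℕ → ℕ → ℕ → ℕ → PL) : PL :=
  raiseRef .i0 r (raiseRef .i1 r (raiseRef .i2 r (raiseRef .i3 r
    (sideA r r fun df dc => sideW r r fun dg de => k df dc dg de))))

/-- both right sets are charged `r` times -/
noncomputable def chgR (r : ℕ) (k : ℕ → ℕ → PL) : PL :=
  raiseRef .i4 r (raiseRef .i5 r (sideX r fun dx => sideY r fun dy => k dx dy))

/-- `|Z| = v` is exact and `t` slack is guaranteed: reserve `v - t` coins and drop `Z`;
`h0` is the hint of the trivial inequality -/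
noncomputable def exitZ (h0 : ℕ) (Z : Ix) : PL := .see fun c =>
  force (c.lb Z) fun v => force (c.lev.get Z) fun t => force (Nat.sub v t) fun r =>
  .orE refP (Z.sel
    (chgR r fun dx dy => fin (.lF r false false) ⟨v, 0, 0, 0, dx, dy⟩ ⟨0, t, 0, 0, 0, 0⟩
      ⟨t, 0, 0, 0, dx, dy⟩ [h0])
    (force (Nat.sub r c.lo.v1) fun u => chgR r fun dx dy =>
      fin (cd (Nat.ble c.lo.v1 r) (.lU r u false false) (.lA r false false))
        ⟨c.lo.v0, c.lo.v1, 0, 0, dx, dy⟩ V.z ⟨Nat.sub c.lo.v0 u, t, 0, 0, dx, dy⟩ [h0, h0])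
    (chgR r fun dx dy => fin (.sl (.lF r false false)) ⟨0, 0, v, 0, dx, dy⟩ ⟨0, 0, 0, t, 0, 0⟩
      ⟨0, 0, t, 0, dx, dy⟩ [h0])
    (force (Nat.sub r c.lo.v3) fun u => chgR r fun dx dy =>
      fin (.sl (cd (Nat.ble c.lo.v3 r) (.lU r u false false) (.lA r false false)))
        ⟨0, 0, c.lo.v2, c.lo.v3, dx, dy⟩ V.z ⟨0, 0, Nat.sub c.lo.v2 u, t, dx, dy⟩ [h0, h0])
    (chgL r fun df dc dg de => fin (.rX r false false false false) ⟨df, dc, dg, de, v, 0⟩ V.z
      ⟨df, Nat.add df dc, dg, Nat.add dg de, t, 0⟩ [h0])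
    (chgL r fun df dc dg de => fin (.sr (.rX r false false false false)) ⟨df, dc, dg, de, 0, v⟩ V.z
      ⟨df, Nat.add df dc, dg, Nat.add dg de, 0, t⟩ [h0]))

noncomputable def raiseExit (h0 : ℕ) (Z : Ix) (t : ℕ) (k : PL) : PL :=
  .raise Z t (.skipUp (.pick (loopZ Z (exitZ h0 Z)))) k

/-- a multiple charge needs its level -/
noncomputable def multi (h0 : ℕ) (Z : Ix) (κ : ℕ) (k : PL) : PL :=
  cd (Nat.ble κ 1) k (raiseExit h0 Z κ k)

/-- slack paid by a set: the charges (cut at a known size) and the removals without gain -/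
noncomputable def pay (c : Ctx) (Z : Ix) (γ κ d : ℕ) : ℕ :=
  mx (Nat.sub d γ) (cd (c.xb Z) (mn κ (c.lb Z)) κ)

noncomputable def snapP (h0 : ℕ) (t : Sn) (hs : List ℕ) (γ κ : V) : PL :=
  multi h0 .i0 κ.v0 (multi h0 .i1 κ.v1 (multi h0 .i2 κ.v2 (multi h0 .i3 κ.v3
    (multi h0 .i4 κ.v4 (multi h0 .i5 κ.v5
      (sideA (Nat.add γ.v0 κ.v0) (Nat.add γ.v1 κ.v1) fun df dc =>
        sideW (Nat.add γ.v2 κ.v2) (Nat.add γ.v3 κ.v3) fun dg de =>
          sideX (Nat.add γ.v4 κ.v4) fun dx => sideY (Nat.add γ.v5 κ.v5) fun dy =>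
            .see fun c =>
              force (pay c .i0 γ.v0 κ.v0 df) fun x0 =>
              force (pay c .i1 γ.v1 κ.v1 (Nat.add df dc)) fun x1 =>
              force (pay c .i2 γ.v2 κ.v2 dg) fun x2 =>
              force (pay c .i3 γ.v3 κ.v3 (Nat.add dg de)) fun x3 =>
              force (pay c .i4 γ.v4 κ.v4 dx) fun x4 =>
              force (pay c .i5 γ.v5 κ.v5 dy) fun x5 =>
              fin t ⟨df, dc, dg, de, dx, dy⟩ V.z ⟨x0, x1, x2, x3, x4, x5⟩ hs))))))

inductive Rule where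
  | coin : Rule
  | snap (t : Sn) (hs : List ℕ) : Rule
  | dom (dp dn χ : V) : Rule

noncomputable def ruleP (h0 : ℕ) (r : Rule) : PL :=
  @Rule.rec (fun _ => PL) (.coins fun m => die m .tgt)
    (fun t hs => snapP h0 t hs t.snap.gam t.snap.kap) (fun dp dn χ => fin .dom dp dn χ []) r

/-- one group of generators per tag; the generators are sorted by tag -/
noncomputable def groups (h0 : ℕ) (rules : ℕ → Rule) : PL := .runs fun i => ruleP h0 (rules i)

/-- the plan of a node -/
noncomputable def nodeP (h0 : ℕ) (rules : ℕ → Rule) : PL :=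
  raiseExit h0 .i0 1 (raiseExit h0 .i1 1 (raiseExit h0 .i2 1 (raiseExit h0 .i3 1
    (raiseExit h0 .i4 1 (raiseExit h0 .i5 1 (groups h0 rules))))))

end Pool.Agent.MP_242484_co.On
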