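import Pool.Agent.MP_242484_co.on.Game

/-!
Reservations (snaps) of the linear coin game in domination-closed form: a snap has gains
(the need of a set drops) and charges (the slack of a set drops) and linear side conditions.
-/

set_option autoImplicit false

namespace Pool.Agent.MP_242484_co.On

/-- six numbers; order `f c g e x y` for atoms, `F A G W X Y` for sets -/
structure V where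
  v0 : ℕ
  v1 : ℕ
  v2 : ℕ
  v3 : ℕ
  v4 : ℕ
  v5 : ℕ

def V.dot (a : V) (s : St) : ℕ :=
  a.v0 * s.f + a.v1 * s.c + a.v2 * s.g + a.v3 * s.e + a.v4 * s.x + a.v5 * s.y

def V.z : V := ⟨0, 0, 0, 0, 0, 0⟩

/-- the condition `l + neg · n ≤ r + pos · n` on the sizes `n` of the atoms -/
structure Cnd where
  l : ℕ
  neg : V
  r : ℕ
  pos : V

def Cnd.holds (k : Cnd) (s : St) : Prop := k.l + k.neg.dot s ≤ k.r + k.pos.dot s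

/-- one set: real size `z`, slack `σ`; virtual size `z'`, slack `σ'`; gain `γ`, charge `κ` -/
def R1 (γ κ z σ z' σ' : ℕ) : Prop := σ' + min κ z ≤ σ ∧ z + σ' ≤ z' + σ + γ

def Red (γ κ : V) (s v : St) : Prop :=
  R1 γ.v0 κ.v0 s.f s.sF v.f v.sF ∧ R1 γ.v1 κ.v1 (s.f + s.c) s.sA (v.f + v.c) v.sA ∧
  R1 γ.v2 κ.v2 s.g s.sG v.g v.sG ∧ R1 γ.v3 κ.v3 (s.g + s.e) s.sW (v.g + v.e) v.sW ∧
  R1 γ.v4 κ.v4 s.x s.sX v.x v.sX ∧ R1 γ.v5 κ.v5 s.y s.sY v.y v.sY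

structure Snap where
  gam : V
  kap : V
  cs : List Cnd

def Snap.Valid (p : Snap) : Prop :=
  ∀ s v : St, (∀ k ∈ p.cs, k.holds s) → Red p.gam p.kap s v → LW v → LW s

/-- `1` if `b`, else `0` -/
def bn (b : Bool) : ℕ := cond b 1 0

/-- exchange the two left sides if `b` -/
def V.sl (a : V) (b : Bool) : V := cond b ⟨a.v2, a.v3, a.v0, a.v1, a.v4, a.v5⟩ a

/-- exchange the two right sets if `b` -/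
def V.sr (a : V) (b : Bool) : V := cond b ⟨a.v0, a.v1, a.v2, a.v3, a.v5, a.v4⟩ a

def Cnd.sl (k : Cnd) (b : Bool) : Cnd := ⟨k.l, k.neg.sl b, k.r, k.pos.sl b⟩
def Cnd.sr (k : Cnd) (b : Bool) : Cnd := ⟨k.l, k.neg.sr b, k.r, k.pos.sr b⟩
def Snap.sl (p : Snap) (b : Bool) : Snap := ⟨p.gam.sl b, p.kap.sl b, p.cs.map (fun k => k.sl b)⟩
def Snap.sr (p : Snap) (b : Bool) : Snap := ⟨p.gam.sr b, p.kap.sr b, p.cs.map (fun k => k.sr b)⟩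

/-- The snap types, written for the side `F, A` and for `X`; `sl`, `sr` give the mirror images.
A Boolean `i` (inner) chooses `H = F` (true) or `H = A` (false), `k` chooses `K = G` or `K = W`.
For `H = A` the gain `u` on `F` needs `u + c ≤ r`, for `H = F` it is `r`. -/
inductive Sn where
  /-- pure domination -/
  | dom : Sn
  /-- left on the first `r` coins that mark `F` and avoid `X` (if `ex`), `Y` (if `ey`) -/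
  | lF (r : ℕ) (ex ey : Bool) : Sn
  /-- left on the first `r` coins that mark `A` and avoid `X` (if `ex`), `Y` (if `ey`) -/
  | lA (r : ℕ) (ex ey : Bool) : Sn
  /-- the same with the gain `u` on `F` -/
  | lU (r u : ℕ) (ex ey : Bool) : Sn
  /-- right on the first `r` coins that mark `X` and avoid `F` (if `nf`), `F` and `A \ F`
  (if `nf` and `nc`), and the same for `G`, `W` -/
  | rX (r : ℕ) (nf nc ng ne : Bool) : Sn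
  /-- pair compound: `|H| + |K| > |X|`; `u` (`w`): `A \ F` (`W \ G`) is empty -/
  | pr (i k u w : Bool) : Sn
  /-- `|H|, |K| ≥ |X|, |Y|` -/
  | tL (i k u w : Bool) : Sn
  /-- `|X|, |Y| ≥ |A|, |W|` -/
  | tR : Sn
  /-- `|X| + |Y| > |H|` -/
  | qR (i : Bool) : Sn
  /-- `|X| + |Y| ≤ |H| + |K|`, all four sets nonempty -/
  | tLp (i k u w : Bool) : Sn
  /-- `|A| + |W| ≤ |X| + |Y|`, all four sets nonempty -/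
  | tRp : Sn
  | sl (p : Sn) : Sn
  | sr (p : Sn) : Sn

def Sn.snap : Sn → Snap
  | .dom => ⟨V.z, V.z, []⟩
  | .lF r ex ey => ⟨⟨r, r, 0, 0, 0, 0⟩, ⟨0, 0, 0, 0, cond ex 0 r, cond ey 0 r⟩,
      [⟨r, ⟨0, 0, 0, 0, bn ex, bn ey⟩, 0, ⟨1, 0, 0, 0, 0, 0⟩⟩]⟩
  | .lA r ex ey => ⟨⟨0, r, 0, 0, 0, 0⟩, ⟨0, 0, 0, 0, cond ex 0 r, cond ey 0 r⟩,
      [⟨r, ⟨0, 0, 0, 0, bn ex, bn ey⟩, 0, ⟨1, 1, 0, 0, 0, 0⟩⟩]⟩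
  | .lU r u ex ey => ⟨⟨u, r, 0, 0, 0, 0⟩, ⟨0, 0, 0, 0, cond ex 0 r, cond ey 0 r⟩,
      [⟨r, ⟨0, 0, 0, 0, bn ex, bn ey⟩, 0, ⟨1, 1, 0, 0, 0, 0⟩⟩, ⟨u, ⟨0, 1, 0, 0, 0, 0⟩, r, V.z⟩]⟩
  | .rX r nf nc ng ne =>
      ⟨⟨0, 0, 0, 0, r, 0⟩,
        ⟨cond nf 0 r, cond (nf && nc) 0 r, cond ng 0 r, cond (ng && ne) 0 r, 0, 0⟩,
        [⟨r, ⟨bn nf, bn (nf && nc), bn ng, bn (ng && ne), 0, 0⟩, 0, ⟨0, 0, 0, 0, 1, 0⟩⟩]⟩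
  | .pr i k u w => ⟨⟨bn (i || u), 1, bn (k || w), 1, 0, 0⟩, ⟨0, 0, 0, 0, 1, 2⟩,
      [⟨1, V.z, 0, ⟨1, bn (!i), 0, 0, 0, 0⟩⟩, ⟨1, V.z, 0, ⟨0, 0, 1, bn (!k), 0, 0⟩⟩,
        ⟨1, V.z, 0, ⟨0, 0, 0, 0, 1, 0⟩⟩,
        ⟨1, ⟨0, 0, 0, 0, 1, 0⟩, 0, ⟨1, bn (!i), 1, bn (!k), 0, 0⟩⟩,
        ⟨0, ⟨0, bn u, 0, bn w, 0, 0⟩, 0, V.z⟩]⟩
  | .tL i k u w => ⟨⟨bn (i || u), 1, bn (k || w), 1, 0, 0⟩, ⟨0, 0, 0, 0, 1, 1⟩,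
      [⟨1, V.z, 0, ⟨1, bn (!i), 0, 0, 0, 0⟩⟩, ⟨1, V.z, 0, ⟨0, 0, 1, bn (!k), 0, 0⟩⟩,
        ⟨0, ⟨0, 0, 0, 0, 1, 0⟩, 0, ⟨1, bn (!i), 0, 0, 0, 0⟩⟩,
        ⟨0, ⟨0, 0, 0, 0, 0, 1⟩, 0, ⟨1, bn (!i), 0, 0, 0, 0⟩⟩,
        ⟨0, ⟨0, 0, 0, 0, 1, 0⟩, 0, ⟨0, 0, 1, bn (!k), 0, 0⟩⟩,
        ⟨0, ⟨0, 0, 0, 0, 0, 1⟩, 0, ⟨0, 0, 1, bn (!k), 0, 0⟩⟩,
        ⟨0, ⟨0, bn u, 0, bn w, 0, 0⟩, 0, V.z⟩]⟩
  | .tR => ⟨⟨0, 0, 0, 0, 1, 1⟩, ⟨1, 1, 1, 1, 0, 0⟩,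
      [⟨1, V.z, 0, ⟨0, 0, 0, 0, 1, 0⟩⟩, ⟨1, V.z, 0, ⟨0, 0, 0, 0, 0, 1⟩⟩,
        ⟨0, ⟨1, 1, 0, 0, 0, 0⟩, 0, ⟨0, 0, 0, 0, 1, 0⟩⟩,
        ⟨0, ⟨1, 1, 0, 0, 0, 0⟩, 0, ⟨0, 0, 0, 0, 0, 1⟩⟩,
        ⟨0, ⟨0, 0, 1, 1, 0, 0⟩, 0, ⟨0, 0, 0, 0, 1, 0⟩⟩,
        ⟨0, ⟨0, 0, 1, 1, 0, 0⟩, 0, ⟨0, 0, 0, 0, 0, 1⟩⟩]⟩
  | .qR i => ⟨⟨0, 0, 0, 0, 1, 1⟩, ⟨1, cond i 2 1, 2, 2, 0, 0⟩,
      [⟨1, V.z, 0, ⟨0, 0, 0, 0, 1, 0⟩⟩, ⟨1, V.z, 0, ⟨0, 0, 0, 0, 0, 1⟩⟩,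
        ⟨bn i, V.z, 0, ⟨1, 0, 0, 0, 0, 0⟩⟩,
        ⟨1, ⟨1, bn (!i), 0, 0, 0, 0⟩, 0, ⟨0, 0, 0, 0, 1, 1⟩⟩]⟩
  | .tLp i k u w => ⟨⟨bn (i || u), 1, bn (k || w), 1, 0, 0⟩, ⟨0, 0, 0, 0, 1, 1⟩,
      [⟨1, V.z, 0, ⟨1, bn (!i), 0, 0, 0, 0⟩⟩, ⟨1, V.z, 0, ⟨0, 0, 1, bn (!k), 0, 0⟩⟩,
        ⟨1, V.z, 0, ⟨0, 0, 0, 0, 1, 0⟩⟩, ⟨1, V.z, 0, ⟨0, 0, 0, 0, 0, 1⟩⟩,
        ⟨0, ⟨0, 0, 0, 0, 1, 1⟩, 0, ⟨1, bn (!i), 1, bn (!k), 0, 0⟩⟩,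
        ⟨0, ⟨0, bn u, 0, bn w, 0, 0⟩, 0, V.z⟩]⟩
  | .tRp => ⟨⟨0, 0, 0, 0, 1, 1⟩, ⟨1, 1, 1, 1, 0, 0⟩,
      [⟨1, V.z, 0, ⟨0, 0, 0, 0, 1, 0⟩⟩, ⟨1, V.z, 0, ⟨0, 0, 0, 0, 0, 1⟩⟩,
        ⟨1, V.z, 0, ⟨1, 1, 0, 0, 0, 0⟩⟩, ⟨1, V.z, 0, ⟨0, 0, 1, 1, 0, 0⟩⟩,
        ⟨0, ⟨1, 1, 1, 1, 0, 0⟩, 0, ⟨0, 0, 0, 0, 1, 1⟩⟩]⟩
  | .sl p => p.snap.sl true
  | .sr p => p.snap.sr true

/-- what `on/Snap.lean` proves -/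
def SnValid : Prop := ∀ t : Sn, t.snap.Valid

theorem valid_dom : Sn.dom.snap.Valid := by
  intro s v _ h hv
  refine hv.mono ?_
  simp only [Red, R1, Sn.snap, V.z] at h
  simp only [Dom, DL, DR]
  omega

theorem Snap.Valid.sl {p : Snap} (h : p.Valid) : (p.sl true).Valid := by
  intro s v hc hr hv
  refine (h s.swapL v.swapL (fun k hk => ?_) ?_ hv.swapL).swapL
  · have := hc (k.sl true) (List.mem_map_of_mem hk)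
    simp only [Cnd.holds, Cnd.sl, V.sl, V.dot, St.swapL, cond_true] at this ⊢
    omega
  · exact ⟨hr.2.2.1, hr.2.2.2.1, hr.1, hr.2.1, hr.2.2.2.2.1, hr.2.2.2.2.2⟩

theorem Snap.Valid.sr {p : Snap} (h : p.Valid) : (p.sr true).Valid := by
  intro s v hc hr hv
  refine (h s.swapR v.swapR (fun k hk => ?_) ?_ hv.swapR).swapR
  · have := hc (k.sr true) (List.mem_map_of_mem hk)
    simp only [Cnd.holds, Cnd.sr, V.sr, V.dot, St.swapR, cond_true] at this ⊢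
    omega
  · exact ⟨hr.1, hr.2.1, hr.2.2.1, hr.2.2.2.1, hr.2.2.2.2.2, hr.2.2.2.2.1⟩

end Pool.Agent.MP_242484_co.On
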