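import Mathlib.Tactic.Linarith
import Mathlib.Tactic.Ring
import Mathlib.Data.Nat.Bitwise
import Pool.Agent.MP_242484_co.cert.Red

/-!
Primitives of the certificate checker: kernel-friendly control, generators, targets, hit test.
-/

set_option autoImplicit false

namespace Pool.Agent.MP_242484_co.On

/-! ### kernel-friendly primitives -/

noncomputable def cd {α : Type} (b : Bool) (x y : α) : α := @Bool.rec (fun _ => α) y x b
noncomputable def an (a b : Bool) : Bool := @Bool.rec (fun _ => Bool) false b a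
noncomputable def oo (a b : Bool) : Bool := @Bool.rec (fun _ => Bool) b true a
def mn (a b : ℕ) : ℕ := Nat.sub a (Nat.sub a b)
def mx (a b : ℕ) : ℕ := Nat.add a (Nat.sub b a)

/-- evaluate `x` to a literal before going on -/
noncomputable def force {α : Type} (x : ℕ) (k : ℕ → α) : α :=
  @Nat.rec (fun _ => α) (k 0) (fun n _ => k (Nat.succ n)) x

noncomputable def flt (p : ℕ → Bool) (l : List ℕ) : List ℕ :=
  @List.rec ℕ (fun _ => List ℕ) [] (fun a _ ih => cd (p a) (a :: ih) ih) l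

/-- `true` on the empty list -/
noncomputable def ne (l : List ℕ) (k : List ℕ → Bool) : Bool :=
  @List.rec ℕ (fun _ => Bool) true (fun a t _ => k (a :: t)) l

noncomputable def allL {α : Type} (p : α → Bool) (l : List α) : Bool :=
  @List.rec α (fun _ => Bool) true (fun a _ ih => an (p a) ih) l

@[simp] theorem cd_true {α : Type} (x y : α) : cd true x y = x := rfl
@[simp] theorem cd_false {α : Type} (x y : α) : cd false x y = y := rfl
@[simp] theorem an_iff {a b : Bool} : an a b = true ↔ a = true ∧ b = true := by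
  cases a <;> simp [an]
@[simp] theorem oo_iff {a b : Bool} : oo a b = true ↔ a = true ∨ b = true := by
  cases a <;> simp [oo]
theorem mn_eq (a b : ℕ) : mn a b = min a b := by
  simp only [mn, Nat.sub_eq]; omega
theorem mx_eq (a b : ℕ) : mx a b = max a b := by
  simp only [mx, Nat.sub_eq, Nat.add_eq]; omega
@[simp] theorem force_eq {α : Type} (x : ℕ) (k : ℕ → α) : force x k = k x := by
  cases x <;> rfl

theorem mem_flt {p : ℕ → Bool} {l : List ℕ} {a : ℕ} (h : a ∈ l) (hp : p a = true) :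
    a ∈ flt p l := by
  induction l with
  | nil => cases h
  | cons b t ih =>
    have e : flt p (b :: t) = cd (p b) (b :: flt p t) (flt p t) := rfl
    rw [e]
    rcases List.mem_cons.1 h with rfl | h
    · rw [hp]; exact List.mem_cons_self
    · cases p b
      · exact ih h
      · exact List.mem_cons_of_mem _ (ih h)

theorem ne_imp {l : List ℕ} {k : List ℕ → Bool} (h : ne l k = true) {a : ℕ} (ha : a ∈ l) :
    k l = true := by
  cases l with
  | nil => cases ha
  | cons b t => exact h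

theorem allL_imp {α : Type} {p : α → Bool} {l : List α} (h : allL p l = true) :
    ∀ a ∈ l, p a = true := by
  induction l with
  | nil => intro a ha; cases ha
  | cons b t ih =>
    have e : allL p (b :: t) = an (p b) (allL p t) := rfl
    rw [e, an_iff] at h
    intro a ha
    rcases List.mem_cons.1 ha with rfl | ha
    · exact h.1
    · exact ih h.2 a ha

/-! ### indices -/

inductive Ix where
  | i0 | i1 | i2 | i3 | i4 | i5

noncomputable def Ix.sel {α : Type} (j : Ix) (a b c d e f : α) : α :=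
  @Ix.rec (fun _ => α) a b c d e f j

noncomputable def V.get (a : V) (j : Ix) : ℕ := j.sel a.v0 a.v1 a.v2 a.v3 a.v4 a.v5

noncomputable def V.set (a : V) (j : Ix) (b : ℕ) : V :=
  j.sel ⟨b, a.v1, a.v2, a.v3, a.v4, a.v5⟩ ⟨a.v0, b, a.v2, a.v3, a.v4, a.v5⟩
    ⟨a.v0, a.v1, b, a.v3, a.v4, a.v5⟩ ⟨a.v0, a.v1, a.v2, b, a.v4, a.v5⟩
    ⟨a.v0, a.v1, a.v2, a.v3, b, a.v5⟩ ⟨a.v0, a.v1, a.v2, a.v3, a.v4, b⟩

/-- six flags -/
structure W where
  b0 : Bool
  b1 : Bool
  b2 : Bool
  b3 : Bool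
  b4 : Bool
  b5 : Bool

noncomputable def W.on (a : W) (j : Ix) : W :=
  j.sel ⟨true, a.b1, a.b2, a.b3, a.b4, a.b5⟩ ⟨a.b0, true, a.b2, a.b3, a.b4, a.b5⟩
    ⟨a.b0, a.b1, true, a.b3, a.b4, a.b5⟩ ⟨a.b0, a.b1, a.b2, true, a.b4, a.b5⟩
    ⟨a.b0, a.b1, a.b2, a.b3, true, a.b5⟩ ⟨a.b0, a.b1, a.b2, a.b3, a.b4, true⟩

noncomputable def W.get (a : W) (j : Ix) : Bool := j.sel a.b0 a.b1 a.b2 a.b3 a.b4 a.b5

/-- size of the set number `Z` -/
noncomputable def St.sz (s : St) (Z : Ix) : ℕ := Z.sel s.f (s.f + s.c) s.g (s.g + s.e) s.x s.y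

/-! ### generators and targets -/

/-- the offset of the fields -/
def off : ℕ := 4

/-- field of a generator: four bits at position `sh` -/
def fld (q sh : ℕ) : ℕ := Nat.mod (Nat.shiftRight q sh) 16

/-- field of a target constant: six bits at position `sh` -/
def kf (K sh : ℕ) : ℕ := K / 2 ^ sh % 64

noncomputable def Ix.sh (Z : Ix) : ℕ := Z.sel 0 6 12 18 24 30

def S1 (z σ a : ℕ) : Prop := z = 0 ∨ a + (z + 1) / 2 ≤ σ + off

/-- the state has at least the slacks that the generator asks for -/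
def Sat (s : St) (q : ℕ) : Prop :=
  S1 s.f s.sF (fld q 0) ∧ S1 (s.f + s.c) s.sA (fld q 6) ∧ S1 s.g s.sG (fld q 12) ∧
    S1 (s.g + s.e) s.sW (fld q 18) ∧ S1 s.x s.sX (fld q 24) ∧ S1 s.y s.sY (fld q 30)

def pack (a b c d e f : ℕ) : ℕ :=
  Nat.add a (Nat.mul 64 (Nat.add b (Nat.mul 64 (Nat.add c (Nat.mul 64 (Nat.add d (Nat.mul 64
    (Nat.add e (Nat.mul 64 f)))))))))

/-- the target constant that is never reached: all fields are 16 -/
def K16 : ℕ := 17452565520

/-- a target constant: six fields in `[16, 48]` -/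
def KOK (K : ℕ) : Prop :=
  ∃ a b c d e f, (16 ≤ a ∧ a ≤ 48) ∧ (16 ≤ b ∧ b ≤ 48) ∧ (16 ≤ c ∧ c ≤ 48) ∧ (16 ≤ d ∧ d ≤ 48) ∧
    (16 ≤ e ∧ e ≤ 48) ∧ (16 ≤ f ∧ f ≤ 48) ∧ K = pack a b c d e f

/-- the generator `l` is below the target `q + K` -/
def Le (l q K : ℕ) : Prop :=
  fld l 0 + 32 ≤ fld q 0 + kf K 0 ∧ fld l 6 + 32 ≤ fld q 6 + kf K 6 ∧
    fld l 12 + 32 ≤ fld q 12 + kf K 12 ∧ fld l 18 + 32 ≤ fld q 18 + kf K 18 ∧
    fld l 24 + 32 ≤ fld q 24 + kf K 24 ∧ fld l 30 + 32 ≤ fld q 30 + kf K 30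

theorem fld_eq (q sh : ℕ) : fld q sh = q / 2 ^ sh % 16 := by
  unfold fld
  rw [← Nat.shiftRight_eq_div_pow]; rfl

theorem fld_le (q sh : ℕ) : fld q sh ≤ 15 := by
  rw [fld_eq]; omega

theorem KOK16 : KOK K16 := ⟨16, 16, 16, 16, 16, 16, by decide⟩

theorem not_Le16 (l q : ℕ) : ¬ Le l q K16 := by
  intro h
  have h1 := h.1
  have h2 : kf K16 0 = 16 := by decide
  have := fld_le q 0
  omega

theorem kf_pack {a b c d e f : ℕ} (ha : a < 64) (hb : b < 64) (hc : c < 64) (hd : d < 64)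
    (he : e < 64) (hf : f < 64) :
    kf (pack a b c d e f) 0 = a ∧ kf (pack a b c d e f) 6 = b ∧ kf (pack a b c d e f) 12 = c ∧
      kf (pack a b c d e f) 18 = d ∧ kf (pack a b c d e f) 24 = e ∧
      kf (pack a b c d e f) 30 = f := by
  simp only [kf, pack, Nat.add_eq, Nat.mul_eq]
  refine ⟨?_, ?_, ?_, ?_, ?_, ?_⟩ <;> omega

/-- bit 5 of each field -/
def GG : ℕ := 34905131040

/-- the low four bits of each field -/
def MM : ℕ := 16361780175

theorem land_step (q m : ℕ) : q &&& (15 + 64 * m) = q % 16 + 64 * ((q / 64) &&& m) := by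
  have h1 : (q &&& (15 + 64 * m)) % 2 ^ 6 = q % 16 := by
    rw [Nat.and_mod_two_pow, show (15 + 64 * m) % 2 ^ 6 = 2 ^ 4 - 1 by omega,
      Nat.and_two_pow_sub_one_eq_mod]
    omega
  have h2 : (q &&& (15 + 64 * m)) / 2 ^ 6 = (q / 64) &&& m := by
    rw [Nat.and_div_two_pow, show (15 + 64 * m) / 2 ^ 6 = m by omega]
  omega

theorem land_MM (q : ℕ) : q &&& MM =
    pack (fld q 0) (fld q 6) (fld q 12) (fld q 18) (fld q 24) (fld q 30) := by
  rw [show MM = 15 + 64 * (15 + 64 * (15 + 64 * (15 + 64 * (15 + 64 * (15 + 64 * 0))))) by decide]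
  rw [land_step, land_step, land_step, land_step, land_step, land_step, Nat.and_zero]
  simp only [pack, fld_eq, Nat.add_eq, Nat.mul_eq, Nat.div_div_eq_div_mul,
    Nat.reducePow, Nat.reduceMul, Nat.div_one, Nat.add_zero]

theorem land_bit {X G : ℕ} (h : X &&& G = G) (k : ℕ) (hk : Nat.testBit G k = true) :
    X / 2 ^ k % 2 = 1 := by
  have h2 := congrArg (fun n => Nat.testBit n k) h
  simp only [Nat.testBit_and, hk, Bool.and_true] at h2
  rw [Nat.testBit_eq_decide_div_mod_eq] at h2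
  exact of_decide_eq_true h2

/-- six digits with bit 5 set -/
theorem digits_ge {x0 x1 x2 x3 x4 x5 : ℕ} (y0 : x0 < 64) (y1 : x1 < 64) (y2 : x2 < 64)
    (y3 : x3 < 64) (y4 : x4 < 64) (y5 : x5 < 64) (h : pack x0 x1 x2 x3 x4 x5 &&& GG = GG) :
    32 ≤ x0 ∧ 32 ≤ x1 ∧ 32 ≤ x2 ∧ 32 ≤ x3 ∧ 32 ≤ x4 ∧ 32 ≤ x5 := by
  have b0 := land_bit h 5 (by decide)
  have b1 := land_bit h 11 (by decide)
  have b2 := land_bit h 17 (by decide)
  have b3 := land_bit h 23 (by decide)
  have b4 := land_bit h 29 (by decide)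
  have b5 := land_bit h 35 (by decide)
  simp only [pack, Nat.add_eq, Nat.mul_eq] at b0 b1 b2 b3 b4 b5
  refine ⟨?_, ?_, ?_, ?_, ?_, ?_⟩
  · clear * - b0 y0; omega
  · clear * - b1 y0 y1; omega
  · clear * - b2 y0 y1 y2; omega
  · clear * - b3 y0 y1 y2 y3; omega
  · clear * - b4 y0 y1 y2 y3 y4; omega
  · clear * - b5 y0 y1 y2 y3 y4 y5; omega

/-- the one-lane test -/
theorem hit_le {l q K : ℕ} (hK : KOK K)
    (h : ((q &&& MM) + K - (l &&& MM)) &&& GG = GG) : Le l q K := by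
  obtain ⟨k0, k1, k2, k3, k4, k5, h0, h1, h2, h3, h4, h5, rfl⟩ := hK
  obtain ⟨f0, f1, f2, f3, f4, f5⟩ := kf_pack (a := k0) (b := k1) (c := k2) (d := k3) (e := k4)
    (f := k5) (by omega) (by omega) (by omega) (by omega) (by omega) (by omega)
  unfold Le
  rw [f0, f1, f2, f3, f4, f5]
  rw [land_MM, land_MM] at h
  have q0 := fld_le q 0
  have q1 := fld_le q 6
  have q2 := fld_le q 12
  have q3 := fld_le q 18
  have q4 := fld_le q 24
  have q5 := fld_le q 30
  have l0 := fld_le l 0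
  have l1 := fld_le l 6
  have l2 := fld_le l 12
  have l3 := fld_le l 18
  have l4 := fld_le l 24
  have l5 := fld_le l 30
  generalize fld q 0 = a0, fld q 6 = a1, fld q 12 = a2, fld q 18 = a3, fld q 24 = a4,
    fld q 30 = a5 at *
  generalize fld l 0 = c0, fld l 6 = c1, fld l 12 = c2, fld l 18 = c3, fld l 24 = c4,
    fld l 30 = c5 at *
  have ex : pack a0 a1 a2 a3 a4 a5 + pack k0 k1 k2 k3 k4 k5 - pack c0 c1 c2 c3 c4 c5 =
      pack (a0 + k0 - c0) (a1 + k1 - c1) (a2 + k2 - c2) (a3 + k3 - c3) (a4 + k4 - c4)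
        (a5 + k5 - c5) := by
    simp only [pack, Nat.add_eq, Nat.mul_eq]
    omega
  rw [ex] at h
  have := digits_ge (by omega) (by omega) (by omega) (by omega) (by omega) (by omega) h
  omega

end Pool.Agent.MP_242484_co.On
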