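import Pool.Agent.MP_242484_co.cert.Prim

/-!
The semantic layer of the certificate checker: contexts, moves and proof plans.
-/

set_option autoImplicit false

namespace Pool.Agent.MP_242484_co.On

/-! ### contexts -/

/-- `lo`, `ex`: lower bounds (with the right parity) and exactness of the atoms; `la`, `lw`: lower
bounds of `|A|`, `|W|`; `lev`: guaranteed slacks; `uz`, `ut`: a set whose slack is not guaranteed -/
structure Ctx where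
  lo : V
  ex : W
  la : ℕ
  lw : ℕ
  lev : V
  uz : Ix
  ut : ℕ

def A1 (lo : ℕ) (ex : Bool) (n : ℕ) : Prop := lo ≤ n ∧ n % 2 = lo % 2 ∧ (ex = true → n = lo)

def Bx (lo : V) (ex : W) (s : St) : Prop :=
  A1 lo.v0 ex.b0 s.f ∧ A1 lo.v1 ex.b1 s.c ∧ A1 lo.v2 ex.b2 s.g ∧ A1 lo.v3 ex.b3 s.e ∧
    A1 lo.v4 ex.b4 s.x ∧ A1 lo.v5 ex.b5 s.y

def L1 (t z a : ℕ) : Prop := t = 0 ∨ z = 0 ∨ min t z + off ≤ a + (z + 1) / 2

def Lev (t : V) (s : St) (q : ℕ) : Prop :=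
  L1 t.v0 s.f (fld q 0) ∧ L1 t.v1 (s.f + s.c) (fld q 6) ∧ L1 t.v2 s.g (fld q 12) ∧
    L1 t.v3 (s.g + s.e) (fld q 18) ∧ L1 t.v4 s.x (fld q 24) ∧ L1 t.v5 s.y (fld q 30)

def Ctx.ok (c : Ctx) (s : St) (q : ℕ) : Prop :=
  Bx c.lo c.ex s ∧ A1 c.la false (s.f + s.c) ∧ A1 c.lw false (s.g + s.e) ∧ Lev c.lev s q ∧
    (c.ut = 0 ∨ ¬ L1 c.ut (s.sz c.uz) (fld q c.uz.sh))

def Ctx.lbA (c : Ctx) : ℕ := mx c.la (Nat.add c.lo.v0 c.lo.v1)
def Ctx.lbW (c : Ctx) : ℕ := mx c.lw (Nat.add c.lo.v2 c.lo.v3)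

/-- lower bound of the set `Z` -/
noncomputable def Ctx.lb (c : Ctx) (Z : Ix) : ℕ :=
  Z.sel c.lo.v0 c.lbA c.lo.v2 c.lbW c.lo.v4 c.lo.v5

/-- the size of the set `Z` is known -/
noncomputable def Ctx.xb (c : Ctx) (Z : Ix) : Bool :=
  Z.sel c.ex.b0 (an c.ex.b0 c.ex.b1) c.ex.b2 (an c.ex.b2 c.ex.b3) c.ex.b4 c.ex.b5

theorem A1.pair {lf lc la f c : ℕ} {xf xc : Bool} (hf : A1 lf xf f) (hc : A1 lc xc c)
    (ha : A1 la false (f + c)) : A1 (mx la (Nat.add lf lc)) (an xf xc) (f + c) := by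
  simp only [A1, mx_eq, Nat.add_eq, an_iff] at *
  refine ⟨by omega, by omega, fun h => ?_⟩
  have := hf.2.2 h.1
  have := hc.2.2 h.2
  omega

theorem Ctx.ok.set {c : Ctx} {s : St} {q : ℕ} (h : c.ok s q) (Z : Ix) :
    A1 (c.lb Z) (c.xb Z) (s.sz Z) := by
  obtain ⟨⟨h0, h1, h2, h3, h4, h5⟩, ha, hw, -, -⟩ := h
  cases Z
  · exact h0
  · exact h0.pair h1 ha
  · exact h2
  · exact h2.pair h3 hw
  · exact h4
  · exact h5

theorem Lev.get {t : V} {s : St} {q : ℕ} (h : Lev t s q) (Z : Ix) :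
    L1 (t.get Z) (s.sz Z) (fld q Z.sh) := by
  obtain ⟨h0, h1, h2, h3, h4, h5⟩ := h
  cases Z
  exacts [h0, h1, h2, h3, h4, h5]

theorem Lev.set {t : V} {s : St} {q : ℕ} (h : Lev t s q) (Z : Ix) {r : ℕ}
    (hr : L1 r (s.sz Z) (fld q Z.sh)) : Lev (t.set Z r) s q := by
  obtain ⟨h0, h1, h2, h3, h4, h5⟩ := h
  cases Z
  exacts [⟨hr, h1, h2, h3, h4, h5⟩, ⟨h0, hr, h2, h3, h4, h5⟩, ⟨h0, h1, hr, h3, h4, h5⟩,
    ⟨h0, h1, h2, hr, h4, h5⟩, ⟨h0, h1, h2, h3, hr, h5⟩, ⟨h0, h1, h2, h3, h4, hr⟩]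

theorem A1.split {lo n : ℕ} {ex : Bool} (h : A1 lo ex n) :
    A1 lo true n ∨ A1 (Nat.add lo 2) ex n := by
  simp only [A1, Nat.add_eq] at *
  by_cases k : n = lo
  · exact Or.inl ⟨h.1, h.2.1, fun _ => k⟩
  · exact Or.inr ⟨by omega, by omega, fun e => absurd (h.2.2 e) k⟩

theorem Bx.split {lo : V} {ex : W} {s : St} (h : Bx lo ex s) (j : Ix) :
    Bx lo (ex.on j) s ∨ Bx (lo.set j (Nat.add (lo.get j) 2)) ex s := by
  obtain ⟨h0, h1, h2, h3, h4, h5⟩ := h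
  cases j
  · exact h0.split.imp (fun k => ⟨k, h1, h2, h3, h4, h5⟩) (fun k => ⟨k, h1, h2, h3, h4, h5⟩)
  · exact h1.split.imp (fun k => ⟨h0, k, h2, h3, h4, h5⟩) (fun k => ⟨h0, k, h2, h3, h4, h5⟩)
  · exact h2.split.imp (fun k => ⟨h0, h1, k, h3, h4, h5⟩) (fun k => ⟨h0, h1, k, h3, h4, h5⟩)
  · exact h3.split.imp (fun k => ⟨h0, h1, h2, k, h4, h5⟩) (fun k => ⟨h0, h1, h2, k, h4, h5⟩)
  · exact h4.split.imp (fun k => ⟨h0, h1, h2, h3, k, h5⟩) (fun k => ⟨h0, h1, h2, h3, k, h5⟩)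
  · exact h5.split.imp (fun k => ⟨h0, h1, h2, h3, h4, k⟩) (fun k => ⟨h0, h1, h2, h3, h4, k⟩)

theorem A1.on {lo n : ℕ} {ex : Bool} (h : A1 lo ex n) (e : ex = true) : A1 lo true n :=
  e ▸ h

theorem Bx.on {lo : V} {ex : W} {s : St} (h : Bx lo ex s) (j : Ix) (e : ex.get j = true) :
    Bx lo (ex.on j) s := by
  obtain ⟨h0, h1, h2, h3, h4, h5⟩ := h
  cases j
  exacts [⟨h0.on e, h1, h2, h3, h4, h5⟩, ⟨h0, h1.on e, h2, h3, h4, h5⟩,
    ⟨h0, h1, h2.on e, h3, h4, h5⟩, ⟨h0, h1, h2, h3.on e, h4, h5⟩, ⟨h0, h1, h2, h3, h4.on e, h5⟩,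
    ⟨h0, h1, h2, h3, h4, h5.on e⟩]

theorem rec_all {p : ℕ → Bool} {N : ℕ}
    (h : @Nat.rec (fun _ => Bool) true (fun n ih => an ih (p n)) N = true) :
    ∀ n < N, p n = true := by
  induction N with
  | zero => intro n hn; omega
  | succ M ih =>
    have h' : an (@Nat.rec (fun _ => Bool) true (fun n ih => an ih (p n)) M) (p M) = true := h
    rw [an_iff] at h'
    intro n hn
    by_cases e : n = M
    · rw [e]; exact h'.2
    · exact ih h'.1 n (by omega)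

/-! ### moves -/

/-- atoms to sets -/
def V.sets (a : V) : V := ⟨a.v0, Nat.add a.v0 a.v1, a.v2, Nat.add a.v2 a.v3, a.v4, a.v5⟩

/-- sizes drop by `dp - dn`, slacks by `χ` -/
def St.mv (s : St) (dp dn χ : V) : St :=
  ⟨s.f + dn.v0 - dp.v0, s.c + dn.v1 - dp.v1, s.g + dn.v2 - dp.v2, s.e + dn.v3 - dp.v3,
    s.x + dn.v4 - dp.v4, s.y + dn.v5 - dp.v5, s.sF - χ.v0, s.sA - χ.v1, s.sG - χ.v2,
    s.sW - χ.v3, s.sX - χ.v4, s.sY - χ.v5⟩

def Shift (dp dn : V) (s u : St) : Prop :=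
  u.f + dp.v0 = s.f + dn.v0 ∧ u.c + dp.v1 = s.c + dn.v1 ∧ u.g + dp.v2 = s.g + dn.v2 ∧
    u.e + dp.v3 = s.e + dn.v3 ∧ u.x + dp.v4 = s.x + dn.v4 ∧ u.y + dp.v5 = s.y + dn.v5

noncomputable def fits (lo dp dn : V) : Bool :=
  an (Nat.ble dp.v0 (Nat.add lo.v0 dn.v0)) (an (Nat.ble dp.v1 (Nat.add lo.v1 dn.v1))
    (an (Nat.ble dp.v2 (Nat.add lo.v2 dn.v2)) (an (Nat.ble dp.v3 (Nat.add lo.v3 dn.v3))
      (an (Nat.ble dp.v4 (Nat.add lo.v4 dn.v4)) (Nat.ble dp.v5 (Nat.add lo.v5 dn.v5))))))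

theorem fits_shift {lo dp dn : V} {ex : W} {s : St} (h : fits lo dp dn = true) (hb : Bx lo ex s)
    (χ : V) : Shift dp dn s (s.mv dp dn χ) := by
  simp only [fits, an_iff, Nat.ble_eq, Nat.add_eq] at h
  simp only [Bx, A1] at hb
  simp only [Shift, St.mv]
  omega

/-- the field of the target constant; `0` if the move is not allowed -/
noncomputable def k1 (xb : Bool) (lb lev dp dn χ : ℕ) : ℕ :=
  cd (an (Nat.ble χ lev) (Nat.ble χ lb))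
    (cd (an xb (Nat.beq (Nat.add lb dn) dp)) 48
      (cd (oo (Nat.ble 1 lb) (Nat.ble dn dp))
        (force (mn 48 (Nat.sub (Nat.div (Nat.sub (Nat.add (Nat.add 64 dp) (Nat.mod lb 2)) dn) 2) χ))
          fun k => cd (Nat.ble 16 k) k 0)
        0))
    0

theorem k1_spec {xb : Bool} {lb lev dp dn χ z z' σ a k : ℕ} (ek : k1 xb lb lev dp dn χ = k)
    (h : k ≠ 0) (hz : A1 lb xb z) (hs : S1 z σ a) (hl : L1 lev z a) (hd : z' + dp = z + dn) :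
    (16 ≤ k ∧ k ≤ 48) ∧ χ ≤ σ ∧ ∀ l, l + 32 ≤ a + k → S1 z' (σ - χ) l := by
  subst ek
  unfold k1 at h ⊢
  unfold A1 at hz
  unfold S1 at hs ⊢
  unfold L1 at hl
  cases e1 : an (Nat.ble χ lev) (Nat.ble χ lb)
  · rw [e1] at h; exact absurd rfl h
  rw [e1, cd_true] at h
  rw [cd_true]
  simp only [an_iff, Nat.ble_eq] at e1
  have hχ : χ ≤ σ := by omega
  cases e2 : an xb (Nat.beq (Nat.add lb dn) dp)
  · rw [e2, cd_false] at h
    rw [cd_false]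
    cases e3 : oo (Nat.ble 1 lb) (Nat.ble dn dp)
    · rw [e3] at h; exact absurd rfl h
    rw [e3, cd_true, force_eq] at h
    rw [cd_true, force_eq]
    simp only [oo_iff, Nat.ble_eq] at e3
    have e5 : mn 48 (Nat.sub (Nat.div (Nat.sub (Nat.add (Nat.add 64 dp) (Nat.mod lb 2)) dn) 2) χ)
        = min 48 ((64 + dp + lb % 2 - dn) / 2 - χ) := mn_eq _ _
    rw [e5] at h ⊢
    cases e4 : Nat.ble 16 (min 48 ((64 + dp + lb % 2 - dn) / 2 - χ))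
    · rw [e4] at h; exact absurd rfl h
    rw [cd_true]
    rw [Nat.ble_eq] at e4
    exact ⟨by omega, hχ, fun l hl => by omega⟩
  · rw [cd_true]
    simp only [an_iff, Nat.beq_eq, Nat.add_eq] at e2
    have := hz.2.2 e2.1
    exact ⟨by omega, hχ, fun l _ => Or.inl (by omega)⟩

/-- the target constant; `K16` if the move is not allowed -/
noncomputable def kvec (c : Ctx) (dp dn χ : V) : ℕ :=
  force (k1 c.ex.b0 c.lo.v0 c.lev.v0 dp.v0 dn.v0 χ.v0) fun a0 =>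
  force (k1 (an c.ex.b0 c.ex.b1) c.lbA c.lev.v1 (Nat.add dp.v0 dp.v1) (Nat.add dn.v0 dn.v1) χ.v1)
    fun a1 =>
  force (k1 c.ex.b2 c.lo.v2 c.lev.v2 dp.v2 dn.v2 χ.v2) fun a2 =>
  force (k1 (an c.ex.b2 c.ex.b3) c.lbW c.lev.v3 (Nat.add dp.v2 dp.v3) (Nat.add dn.v2 dn.v3) χ.v3)
    fun a3 =>
  force (k1 c.ex.b4 c.lo.v4 c.lev.v4 dp.v4 dn.v4 χ.v4) fun a4 =>
  force (k1 c.ex.b5 c.lo.v5 c.lev.v5 dp.v5 dn.v5 χ.v5) fun a5 =>
  cd (Nat.beq (Nat.mul a0 (Nat.mul a1 (Nat.mul a2 (Nat.mul a3 (Nat.mul a4 a5))))) 0) K16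
    (pack a0 a1 a2 a3 a4 a5)

def Paid (χ : V) (s : St) : Prop :=
  χ.v0 ≤ s.sF ∧ χ.v1 ≤ s.sA ∧ χ.v2 ≤ s.sG ∧ χ.v3 ≤ s.sW ∧ χ.v4 ≤ s.sX ∧ χ.v5 ≤ s.sY

theorem kvec_spec {c : Ctx} {dp dn χ : V} {s : St} {q : ℕ}
    (hc : c.ok s q) (hs : Sat s q) (hd : Shift dp dn s (s.mv dp dn χ)) :
    KOK (kvec c dp dn χ) ∧
      ∀ l, Le l q (kvec c dp dn χ) → Paid χ s ∧ Sat (s.mv dp dn χ) l := by
  have z0 := hc.set .i0
  have z1 := hc.set .i1
  have z2 := hc.set .i2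
  have z3 := hc.set .i3
  have z4 := hc.set .i4
  have z5 := hc.set .i5
  obtain ⟨-, -, -, ⟨l0, l1, l2, l3, l4, l5⟩, -⟩ := hc
  obtain ⟨s0, s1, s2, s3, s4, s5⟩ := hs
  obtain ⟨d0, d1, d2, d3, d4, d5⟩ := hd
  unfold kvec
  simp only [force_eq]
  generalize e0 : k1 c.ex.b0 c.lo.v0 c.lev.v0 dp.v0 dn.v0 χ.v0 = a0
  generalize e1 : k1 (an c.ex.b0 c.ex.b1) c.lbA c.lev.v1 (Nat.add dp.v0 dp.v1)
    (Nat.add dn.v0 dn.v1) χ.v1 = a1
  generalize e2 : k1 c.ex.b2 c.lo.v2 c.lev.v2 dp.v2 dn.v2 χ.v2 = a2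
  generalize e3 : k1 (an c.ex.b2 c.ex.b3) c.lbW c.lev.v3 (Nat.add dp.v2 dp.v3)
    (Nat.add dn.v2 dn.v3) χ.v3 = a3
  generalize e4 : k1 c.ex.b4 c.lo.v4 c.lev.v4 dp.v4 dn.v4 χ.v4 = a4
  generalize e5 : k1 c.ex.b5 c.lo.v5 c.lev.v5 dp.v5 dn.v5 χ.v5 = a5
  cases e : Nat.beq (Nat.mul a0 (Nat.mul a1 (Nat.mul a2 (Nat.mul a3 (Nat.mul a4 a5))))) 0
  swap
  · exact ⟨KOK16, fun l hl => absurd hl (not_Le16 l q)⟩
  have e' : a0 * (a1 * (a2 * (a3 * (a4 * a5)))) ≠ 0 := Nat.ne_of_beq_eq_false e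
  simp only [ne_eq, Nat.mul_eq_zero, not_or] at e'
  obtain ⟨n0, n1, n2, n3, n4, n5⟩ := e'
  have r0 := k1_spec (z' := (s.mv dp dn χ).f) e0 n0 z0 s0 l0 d0
  have r1 := k1_spec (z' := (s.mv dp dn χ).f + (s.mv dp dn χ).c) e1 n1 z1 s1 l1
    (by show _ + (dp.v0 + dp.v1) = s.f + s.c + (dn.v0 + dn.v1); omega)
  have r2 := k1_spec (z' := (s.mv dp dn χ).g) e2 n2 z2 s2 l2 d2
  have r3 := k1_spec (z' := (s.mv dp dn χ).g + (s.mv dp dn χ).e) e3 n3 z3 s3 l3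
    (by show _ + (dp.v2 + dp.v3) = s.g + s.e + (dn.v2 + dn.v3); omega)
  have r4 := k1_spec (z' := (s.mv dp dn χ).x) e4 n4 z4 s4 l4 d4
  have r5 := k1_spec (z' := (s.mv dp dn χ).y) e5 n5 z5 s5 l5 d5
  rw [cd_false]
  refine ⟨⟨a0, a1, a2, a3, a4, a5, r0.1, r1.1, r2.1, r3.1, r4.1, r5.1, rfl⟩, fun l hh => ?_⟩
  obtain ⟨f0, f1, f2, f3, f4, f5⟩ := kf_pack (a := a0) (b := a1) (c := a2) (d := a3) (e := a4)
    (f := a5) (by omega) (by omega) (by omega) (by omega) (by omega) (by omega)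
  unfold Le at hh
  rw [f0, f1, f2, f3, f4, f5] at hh
  obtain ⟨t0, t1, t2, t3, t4, t5⟩ := hh
  exact ⟨⟨r0.2.1, r1.2.1, r2.2.1, r3.2.1, r4.2.1, r5.2.1⟩,
    r0.2.2 _ t0, r1.2.2 _ t1, r2.2.2 _ t2, r3.2.2 _ t3, r4.2.2 _ t4, r5.2.2 _ t5⟩

/-- gain and charge of one set are covered by `χ` -/
noncomputable def r1 (xb : Bool) (lb γ κ dp dn χ : ℕ) : Bool :=
  an (Nat.ble dp (Nat.add (Nat.add χ γ) dn)) (oo (Nat.ble κ χ) (an xb (Nat.ble lb χ)))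

theorem r1_spec {xb : Bool} {lb γ κ dp dn χ z z' σ : ℕ} (h : r1 xb lb γ κ dp dn χ = true)
    (hz : A1 lb xb z) (hp : χ ≤ σ) (hd : z' + dp = z + dn) : R1 γ κ z σ z' (σ - χ) := by
  simp only [r1, an_iff, oo_iff, Nat.ble_eq, Nat.add_eq] at h
  unfold A1 at hz
  unfold R1
  rcases h with ⟨h1, h2 | h2⟩
  · omega
  · have := hz.2.2 h2.1
    omega

noncomputable def redOK (c : Ctx) (γ κ dp dn χ : V) : Bool :=
  an (r1 c.ex.b0 c.lo.v0 γ.v0 κ.v0 dp.v0 dn.v0 χ.v0)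
  (an (r1 (an c.ex.b0 c.ex.b1) c.lbA γ.v1 κ.v1 (Nat.add dp.v0 dp.v1) (Nat.add dn.v0 dn.v1) χ.v1)
  (an (r1 c.ex.b2 c.lo.v2 γ.v2 κ.v2 dp.v2 dn.v2 χ.v2)
  (an (r1 (an c.ex.b2 c.ex.b3) c.lbW γ.v3 κ.v3 (Nat.add dp.v2 dp.v3) (Nat.add dn.v2 dn.v3) χ.v3)
  (an (r1 c.ex.b4 c.lo.v4 γ.v4 κ.v4 dp.v4 dn.v4 χ.v4)
    (r1 c.ex.b5 c.lo.v5 γ.v5 κ.v5 dp.v5 dn.v5 χ.v5)))))

theorem redOK_spec {c : Ctx} {γ κ dp dn χ : V} {s : St} {q : ℕ}
    (h : redOK c γ κ dp dn χ = true) (hc : c.ok s q) (hp : Paid χ s)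
    (hd : Shift dp dn s (s.mv dp dn χ)) : Red γ κ s (s.mv dp dn χ) := by
  simp only [redOK, an_iff] at h
  obtain ⟨h0, h1, h2, h3, h4, h5⟩ := h
  obtain ⟨p0, p1, p2, p3, p4, p5⟩ := hp
  obtain ⟨d0, d1, d2, d3, d4, d5⟩ := hd
  exact ⟨r1_spec h0 (hc.set .i0) p0 d0,
    r1_spec h1 (hc.set .i1) p1
      (by show _ + (dp.v0 + dp.v1) = s.f + s.c + (dn.v0 + dn.v1); omega),
    r1_spec h2 (hc.set .i2) p2 d2,
    r1_spec h3 (hc.set .i3) p3
      (by show _ + (dp.v2 + dp.v3) = s.g + s.e + (dn.v2 + dn.v3); omega),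
    r1_spec h4 (hc.set .i4) p4 d4, r1_spec h5 (hc.set .i5) p5 d5⟩

/-- the measure that every move lowers -/
def mu (s : St) : ℕ := s.f + 2 * s.c + s.g + 2 * s.e + s.x + s.y + 2 * s.sF + 2 * s.sG

def V.wt (a : V) : ℕ :=
  Nat.add (Nat.add (Nat.add a.v0 a.v2) (Nat.add a.v4 a.v5)) (Nat.mul 2 (Nat.add a.v1 a.v3))

def muOK (dp dn χ : V) : Bool :=
  Nat.ble (Nat.succ dn.wt) (Nat.add dp.wt (Nat.mul 2 (Nat.add χ.v0 χ.v2)))

theorem muOK_spec {dp dn χ : V} {s : St} (h : muOK dp dn χ = true) (hp : Paid χ s)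
    (hd : Shift dp dn s (s.mv dp dn χ)) : mu (s.mv dp dn χ) < mu s := by
  simp only [muOK, V.wt, Nat.ble_eq, Nat.add_eq, Nat.mul_eq] at h
  unfold Paid at hp
  unfold Shift at hd
  have e1 : (s.mv dp dn χ).sF = s.sF - χ.v0 := rfl
  have e2 : (s.mv dp dn χ).sG = s.sG - χ.v2 := rfl
  unfold mu
  omega

/-! ### side conditions -/

theorem c1_spec {a b a' b' lo n : ℕ} {ex : Bool}
    (h : oo (Nat.ble (Nat.add a b) (Nat.add a' b')) ex = true) (hn : A1 lo ex n) :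
    a * n + b * n + Nat.mul (Nat.add a' b') lo ≤ a' * n + b' * n + Nat.mul (Nat.add a b) lo := by
  simp only [oo_iff, Nat.ble_eq, Nat.add_eq, Nat.mul_eq] at h ⊢
  obtain ⟨d, rfl⟩ := Nat.exists_eq_add_of_le hn.1
  rcases h with h | h
  · nlinarith [Nat.mul_le_mul_right d h]
  · have := hn.2.2 h
    obtain rfl : d = 0 := by omega
    nlinarith

def V.add (a b : V) : V :=
  ⟨Nat.add a.v0 b.v0, Nat.add a.v1 b.v1, Nat.add a.v2 b.v2, Nat.add a.v3 b.v3, Nat.add a.v4 b.v4,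
    Nat.add a.v5 b.v5⟩

def V.ip (a b : V) : ℕ :=
  Nat.add (Nat.add (Nat.add (Nat.mul a.v0 b.v0) (Nat.mul a.v1 b.v1))
    (Nat.add (Nat.mul a.v2 b.v2) (Nat.mul a.v3 b.v3)))
    (Nat.add (Nat.mul a.v4 b.v4) (Nat.mul a.v5 b.v5))

noncomputable def cchk' (lo : V) (ex : W) (l r : ℕ) (N P : V) : Bool :=
  an (oo (Nat.ble N.v0 P.v0) ex.b0) (an (oo (Nat.ble N.v1 P.v1) ex.b1)
    (an (oo (Nat.ble N.v2 P.v2) ex.b2) (an (oo (Nat.ble N.v3 P.v3) ex.b3)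
      (an (oo (Nat.ble N.v4 P.v4) ex.b4) (an (oo (Nat.ble N.v5 P.v5) ex.b5)
        (Nat.ble (Nat.add l (N.ip lo)) (Nat.add r (P.ip lo))))))))

/-- the condition `k` follows from the known inequality `h` and the box -/
noncomputable def cchk (lo : V) (ex : W) (k h : Cnd) : Bool :=
  cchk' lo ex (Nat.add k.l h.r) (Nat.add k.r h.l) (k.neg.add h.pos) (k.pos.add h.neg)

theorem cchk_spec {lo : V} {ex : W} {k h : Cnd} {s : St} (H : cchk lo ex k h = true)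
    (hb : Bx lo ex s) (hh : h.holds s) : k.holds s := by
  simp only [cchk, cchk', an_iff] at H
  obtain ⟨h0, h1, h2, h3, h4, h5, h6⟩ := H
  obtain ⟨b0, b1, b2, b3, b4, b5⟩ := hb
  have t0 := c1_spec h0 b0
  have t1 := c1_spec h1 b1
  have t2 := c1_spec h2 b2
  have t3 := c1_spec h3 b3
  have t4 := c1_spec h4 b4
  have t5 := c1_spec h5 b5
  simp only [V.ip, V.add, Nat.ble_eq] at h6
  simp only [Cnd.holds, V.dot] at hh ⊢
  simp only [Nat.add_eq] at *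
  omega

/-- each condition with its hint -/
noncomputable def cAll (lo : V) (ex : W) (kn : ℕ → Cnd) (cs : List Cnd) : List ℕ → Bool :=
  @List.rec Cnd (fun _ => List ℕ → Bool) (fun _ => true)
    (fun k _ ih hs => @List.rec ℕ (fun _ => Bool) false
      (fun i t _ => an (@Cnd.rec (fun _ => Bool) (fun a b c d => cchk lo ex k ⟨a, b, c, d⟩) (kn i))
        (ih t)) hs) cs

theorem cAll_spec {lo : V} {ex : W} {kn : ℕ → Cnd} {cs : List Cnd} {hs : List ℕ} {s : St}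
    (H : cAll lo ex kn cs hs = true) (hb : Bx lo ex s) (hk : ∀ i, (kn i).holds s) :
    ∀ k ∈ cs, k.holds s := by
  induction cs generalizing hs with
  | nil => intro k hk; cases hk
  | cons a t ih =>
    cases hs with
    | nil => exact absurd H (by simp [cAll])
    | cons i r =>
      have H' : an (cchk lo ex a (kn i)) (cAll lo ex kn t r) = true := H
      rw [an_iff] at H'
      intro k hm
      rcases List.mem_cons.1 hm with rfl | hm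
      · exact cchk_spec H'.1 hb (hk i)
      · exact ih H'.2 k hm

/-! ### plans -/

def V.coin (m : V) : Coin := ⟨m.v0, m.v1, m.v2, m.v3, m.v4, m.v5⟩

/-- the goal: win, or answer the coin `m` -/
def Goal (gl : Option V) (s : St) : Prop :=
  match gl with
  | none => LW s
  | some m => m.coin.ok s →
      (s.canL m.coin ∧ LW (s.goL m.coin)) ∨ (s.canR m.coin ∧ LW (s.goR m.coin))

theorem Goal.of {gl : Option V} {s : St} (h : LW s) : Goal gl s := by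
  cases gl with
  | none => exact h
  | some m => exact h.step m.coin

def coinL : List V :=
  [⟨1, 0, 1, 0, 1, 1⟩, ⟨1, 0, 1, 0, 1, 0⟩, ⟨1, 0, 1, 0, 0, 1⟩,
   ⟨1, 0, 0, 1, 1, 1⟩, ⟨1, 0, 0, 1, 1, 0⟩, ⟨1, 0, 0, 1, 0, 1⟩,
   ⟨1, 0, 0, 0, 1, 1⟩, ⟨1, 0, 0, 0, 1, 0⟩, ⟨1, 0, 0, 0, 0, 1⟩,
   ⟨0, 1, 1, 0, 1, 1⟩, ⟨0, 1, 1, 0, 1, 0⟩, ⟨0, 1, 1, 0, 0, 1⟩,
   ⟨0, 1, 0, 1, 1, 1⟩, ⟨0, 1, 0, 1, 1, 0⟩, ⟨0, 1, 0, 1, 0, 1⟩,
   ⟨0, 1, 0, 0, 1, 1⟩, ⟨0, 1, 0, 0, 1, 0⟩, ⟨0, 1, 0, 0, 0, 1⟩,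
   ⟨0, 0, 1, 0, 1, 1⟩, ⟨0, 0, 1, 0, 1, 0⟩, ⟨0, 0, 1, 0, 0, 1⟩,
   ⟨0, 0, 0, 1, 1, 1⟩, ⟨0, 0, 0, 1, 1, 0⟩, ⟨0, 0, 0, 1, 0, 1⟩]

theorem coin_mem {m : Coin} {s : St} (h : m.ok s) : (⟨m.f, m.c, m.g, m.e, m.x, m.y⟩ : V) ∈ coinL := by
  obtain ⟨f, c, g, e, x, y⟩ := m
  obtain ⟨⟨h1, h2, h3, h4, -⟩, h5, h6⟩ := h
  dsimp only at *
  have hf : f = 0 ∨ f = 1 := by omega
  have hc : c = 0 ∨ c = 1 := by omega
  have hg : g = 0 ∨ g = 1 := by omega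
  have he : e = 0 ∨ e = 1 := by omega
  have hx : x = 0 ∨ x = 1 := by omega
  have hy : y = 0 ∨ y = 1 := by omega
  rcases hf with rfl | rfl <;> rcases hc with rfl | rfl <;> rcases hg with rfl | rfl <;>
    rcases he with rfl | rfl <;> rcases hx with rfl | rfl <;> rcases hy with rfl | rfl <;>
    first | omega | simp [coinL]

/-- the coin marks an atom that is known to be empty -/
noncomputable def blocked (lo : V) (ex : W) (m : V) : Bool :=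
  oo (an ex.b0 (Nat.ble (Nat.succ lo.v0) m.v0)) (oo (an ex.b1 (Nat.ble (Nat.succ lo.v1) m.v1))
    (oo (an ex.b2 (Nat.ble (Nat.succ lo.v2) m.v2)) (oo (an ex.b3 (Nat.ble (Nat.succ lo.v3) m.v3))
      (oo (an ex.b4 (Nat.ble (Nat.succ lo.v4) m.v4)) (an ex.b5 (Nat.ble (Nat.succ lo.v5) m.v5))))))

theorem blocked_spec {lo : V} {ex : W} {m : V} {s : St} (h : blocked lo ex m = true)
    (hb : Bx lo ex s) : ¬ m.coin.ok s := by
  rintro ⟨⟨-, -, -, -, h0, h1, h2, h3, h4, h5⟩, -⟩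
  obtain ⟨b0, b1, b2, b3, b4, b5⟩ := hb
  simp only [blocked, oo_iff, an_iff, Nat.ble_eq] at h
  simp only [V.coin] at h0 h1 h2 h3 h4 h5
  rcases h with h | h | h | h | h | h
  · have := b0.2.2 h.1; omega
  · have := b1.2.2 h.1; omega
  · have := b2.2.2 h.1; omega
  · have := b3.2.2 h.1; omega
  · have := b4.2.2 h.1; omega
  · have := b5.2.2 h.1; omega

inductive Plan (τ : Type) where
  | fail : Plan τ
  /-- try the first plan, then the second -/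
  | orE (p q : Plan τ) : Plan τ
  /-- the planner looks at the context, at the generators and at the mask of the open ones -/
  | look (k : Ctx → List ℕ → ℕ → Plan τ) : Plan τ
  /-- the planner looks at the context only -/
  | see (k : Ctx → Plan τ) : Plan τ
  /-- the generators in the mask `M` by `p`, the others by `q` -/
  | mask (M : ℕ) (p q : Plan τ) : Plan τ
  /-- go on with the list of the open generators -/
  | pick (p : Plan τ) : Plan τ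
  /-- the runs of generators with the same tag `i`, each by `k i` -/
  | runs (k : ℕ → Plan τ) : Plan τ
  /-- atom `j` equals its lower bound, or is larger -/
  | split (j : Ix) (p q : Plan τ) : Plan τ
  /-- `|A|` equals its lower bound (all exact `f`, `c`), or is larger -/
  | splitA (p q : Plan τ) : Plan τ
  | splitW (p q : Plan τ) : Plan τ
  /-- level `t` of the set `Z` fails (`p`) or holds (`q`) -/
  | raise (Z : Ix) (t : ℕ) (p q : Plan τ) : Plan τ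
  /-- drop the generators that contradict the level of the exact set `Z` -/
  | skip (Z : Ix) (p : Plan τ) : Plan τ
  /-- drop the generators that contradict the failed level -/
  | skipUp (p : Plan τ) : Plan τ
  /-- done if lane `i` of the label contradicts the box -/
  | unl (i : ℕ) (p : Plan τ) : Plan τ
  /-- no sizes fit the path and the box -/
  | refute (dp : V) : Plan τ
  | act (t : τ) (dp dn χ : V) (hs : List ℕ) : Plan τ
  | coins (k : V → Plan τ) : Plan τ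
  | tgt : Plan τ

noncomputable def nt (b : Bool) : Bool := @Bool.rec (fun _ => Bool) true false b

noncomputable def V.setK {α : Type} (a : V) (j : Ix) (b : ℕ) (k : V → α) : α :=
  @V.rec (fun _ => α) (fun v0 v1 v2 v3 v4 v5 =>
    j.sel (k ⟨b, v1, v2, v3, v4, v5⟩) (k ⟨v0, b, v2, v3, v4, v5⟩) (k ⟨v0, v1, b, v3, v4, v5⟩)
      (k ⟨v0, v1, v2, b, v4, v5⟩) (k ⟨v0, v1, v2, v3, b, v5⟩) (k ⟨v0, v1, v2, v3, v4, b⟩)) a

theorem V.setK_eq {α : Type} (a : V) (j : Ix) (b : ℕ) (k : V → α) :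
    a.setK j b k = k (a.set j b) := by
  cases j <;> rfl

noncomputable def W.onK {α : Type} (a : W) (j : Ix) (k : W → α) : α :=
  @W.rec (fun _ => α) (fun v0 v1 v2 v3 v4 v5 =>
    j.sel (k ⟨true, v1, v2, v3, v4, v5⟩) (k ⟨v0, true, v2, v3, v4, v5⟩)
      (k ⟨v0, v1, true, v3, v4, v5⟩) (k ⟨v0, v1, v2, true, v4, v5⟩)
      (k ⟨v0, v1, v2, v3, true, v5⟩) (k ⟨v0, v1, v2, v3, v4, true⟩)) a

theorem W.onK_eq {α : Type} (a : W) (j : Ix) (k : W → α) : a.onK j k = k (a.on j) := by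
  cases j <;> rfl

/-- smallest field that agrees with the level of the exact set `Z` -/
noncomputable def thSk (c : Ctx) (Z : Ix) : ℕ :=
  force (c.lb Z) fun v => force (mn (c.lev.get Z) v) fun t =>
    cd (an (c.xb Z) (Nat.ble 1 t)) (Nat.sub (Nat.add t off) (Nat.div (Nat.succ v) 2)) 0

/-- the fields below this number agree with the failed level -/
noncomputable def thUp (c : Ctx) : ℕ :=
  force (c.lb c.uz) fun v =>
    cd (c.xb c.uz) (cd (Nat.beq v 0) 0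
        (Nat.sub (Nat.add (mn c.ut v) off) (Nat.div (Nat.succ v) 2)))
      (Nat.sub (Nat.add c.ut off) (Nat.div (Nat.succ v) 2))

theorem thSk_le {c : Ctx} {s : St} {q : ℕ} (hc : c.ok s q) (Z : Ix) : thSk c Z ≤ fld q Z.sh := by
  have z := hc.set Z
  have l := hc.2.2.2.1.get Z
  rw [thSk, force_eq, force_eq]
  cases e2 : an (c.xb Z) (Nat.ble 1 (mn (c.lev.get Z) (c.lb Z)))
  · exact Nat.zero_le _
  · rw [an_iff, Nat.ble_eq, mn_eq] at e2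
    have := z.2.2 e2.1
    unfold L1 at l
    show mn (c.lev.get Z) (c.lb Z) + off - (c.lb Z + 1) / 2 ≤ _
    rw [mn_eq]
    omega

theorem lt_thUp {c : Ctx} {s : St} {q : ℕ} (hc : c.ok s q) (e : c.ut ≠ 0) :
    fld q c.uz.sh < thUp c := by
  have z := hc.set c.uz
  have l := hc.2.2.2.2.resolve_left e
  unfold L1 at l
  unfold A1 at z
  rw [thUp, force_eq]
  cases e2 : c.xb c.uz
  · show _ < c.ut + off - (c.lb c.uz + 1) / 2
    omega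
  · have := z.2.2 e2
    cases e3 : Nat.beq (c.lb c.uz) 0
    · show _ < mn c.ut (c.lb c.uz) + off - (c.lb c.uz + 1) / 2
      rw [mn_eq]
      omega
    · have := Nat.eq_of_beq_eq_true e3
      omega

/-- some generator on the path of `u` is satisfied -/
def InvS (Lane : St → ℕ → Prop) (u : St) : Prop := ∃ l, Lane u l ∧ Sat u l

end Pool.Agent.MP_242484_co.On
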