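import Pool.Agent.MP_242484_co.cert.Exec

/-!
The check of one key, the symmetry rule, the start check and the main theorem of the checker.
-/

set_option autoImplicit false

namespace Pool.Agent.MP_242484_co.On

/-! ### the first context -/

def lo1 (l p j : ℕ) : ℕ :=
  Nat.add (Nat.sub (ln 8 l j) 8) (Nat.mod (Nat.add (Nat.sub (ln 8 l j) 8) (Nat.shiftRight p j)) 2)

noncomputable def ex1 (l lo j : ℕ) : Bool :=
  an (Nat.ble 1 (ln 8 l (Nat.add NF j))) (Nat.ble 7 (Nat.add lo (ln 8 l (Nat.add NF j))))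

theorem a1_of {l p j n : ℕ} (h1 : ln 8 l j = 0 ∨ ln 8 l j ≤ 8 + n)
    (h2 : ln 8 l (NF + j) = 0 ∨ ln 8 l (NF + j) + n ≤ 8) (h3 : p / 2 ^ j % 2 = n % 2) :
    A1 (lo1 l p j) (ex1 l (lo1 l p j) j) n := by
  have e : lo1 l p j = ln 8 l j - 8 + (ln 8 l j - 8 + p / 2 ^ j) % 2 := by
    rw [← Nat.shiftRight_eq_div_pow]; rfl
  unfold A1 ex1
  simp only [an_iff, Nat.ble_eq, Nat.add_eq]
  rw [e]
  omega

/-- only the parity and the emptiness of an atom are kept -/
def lo2 (a p j : ℕ) : ℕ := mn a (Nat.sub 2 (Nat.mod (Nat.shiftRight p j) 2))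

theorem A1.weak {a p j n : ℕ} {b : Bool} (h : A1 a b n) (h3 : p / 2 ^ j % 2 = n % 2) :
    A1 (lo2 a p j) (an b (Nat.beq a 0)) n := by
  have e : lo2 a p j = min a (2 - p / 2 ^ j % 2) := by
    rw [← Nat.shiftRight_eq_div_pow, ← mn_eq]; rfl
  unfold A1 at *
  simp only [an_iff, Nat.beq_eq]
  rw [e]
  refine ⟨by omega, by omega, fun k => ?_⟩
  have := h.2.2 k.1
  omega

noncomputable def at0 {α : Type} (l p j : ℕ) (k : ℕ → Bool → α) : α :=
  force (lo1 l p j) fun a => force (lo2 a p j) fun a' =>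
    forceB (an (ex1 l a j) (Nat.beq a 0)) fun b => k a' b

noncomputable def ctx0 {α : Type} (l p : ℕ) (k : Ctx → α) : α :=
  at0 l p 0 fun a0 b0 => at0 l p 1 fun a1 b1 => at0 l p 2 fun a2 b2 =>
  at0 l p 3 fun a3 b3 => at0 l p 4 fun a4 b4 => at0 l p 5 fun a5 b5 =>
  force (Nat.add a0 a1) fun la => force (Nat.add a2 a3) fun lw =>
    k ⟨⟨a0, a1, a2, a3, a4, a5⟩, ⟨b0, b1, b2, b3, b4, b5⟩, la, lw, ⟨0, 0, 0, 0, 0, 0⟩, .i0, 0⟩

theorem sat_size {l : ℕ} {n : V} (h : SatL l n) {j : ℕ} (hj : j < 6) :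
    (ln 8 l j = 0 ∨ ln 8 l j ≤ 8 + n.at j) ∧
      (ln 8 l (NF + j) = 0 ∨ ln 8 l (NF + j) + n.at j ≤ 8) := by
  have h6 : 6 ≤ NF := by decide
  obtain ⟨e1, e2⟩ := pos_atom hj n
  have h1 := h j (by omega)
  have h2 := h (NF + j) (by omega)
  rw [bar_eq (by omega), if_pos (by omega), e1, e2] at h1
  rw [bar_eq (by omega), if_neg (by omega), Nat.add_sub_cancel_left, e1, Nat.add_comm NF j,
    e2] at h2
  rw [Nat.add_comm NF j]
  exact ⟨h1, h2⟩

theorem A1.add {a b m n : ℕ} {x y : Bool} (h1 : A1 a x m) (h2 : A1 b y n) :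
    A1 (Nat.add a b) false (m + n) := by
  unfold A1 at *
  rw [Nat.add_eq]
  exact ⟨by omega, by omega, fun k => by cases k⟩

theorem par_bits (n : V) : par n / 2 ^ 0 % 2 = n.v0 % 2 ∧ par n / 2 ^ 1 % 2 = n.v1 % 2 ∧
    par n / 2 ^ 2 % 2 = n.v2 % 2 ∧ par n / 2 ^ 3 % 2 = n.v3 % 2 ∧ par n / 2 ^ 4 % 2 = n.v4 % 2 ∧
    par n / 2 ^ 5 % 2 = n.v5 % 2 := by
  unfold par
  refine ⟨?_, ?_, ?_, ?_, ?_, ?_⟩ <;> omega

theorem ctx0_spec {α : Type} {l : ℕ} {s : St} (h : SatL l s.szv) (k : Ctx → α) :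
    ∃ c : Ctx, ctx0 l (par s.szv) k = k c ∧ ∀ q, c.ok s q := by
  simp only [ctx0, at0, force_eq, forceB_eq]
  refine ⟨_, rfl, fun q => ?_⟩
  obtain ⟨p0, p1, p2, p3, p4, p5⟩ := par_bits s.szv
  have a0 := (a1_of (sat_size h (j := 0) (by decide)).1 (sat_size h (j := 0) (by decide)).2
    p0).weak p0
  have a1 := (a1_of (sat_size h (j := 1) (by decide)).1 (sat_size h (j := 1) (by decide)).2
    p1).weak p1
  have a2 := (a1_of (sat_size h (j := 2) (by decide)).1 (sat_size h (j := 2) (by decide)).2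
    p2).weak p2
  have a3 := (a1_of (sat_size h (j := 3) (by decide)).1 (sat_size h (j := 3) (by decide)).2
    p3).weak p3
  have a4 := (a1_of (sat_size h (j := 4) (by decide)).1 (sat_size h (j := 4) (by decide)).2
    p4).weak p4
  have a5 := (a1_of (sat_size h (j := 5) (by decide)).1 (sat_size h (j := 5) (by decide)).2
    p5).weak p5
  exact ⟨⟨a0, a1, a2, a3, a4, a5⟩, a0.add a1, a2.add a3,
    ⟨Or.inl rfl, Or.inl rfl, Or.inl rfl, Or.inl rfl, Or.inl rfl, Or.inl rfl⟩, Or.inl rfl⟩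

/-! ### symmetries -/

def St.sw (s : St) (bl br : Bool) : St := cond br (cond bl s.swapL s).swapR (cond bl s.swapL s)

theorem St.sw_szv (s : St) (bl br : Bool) : (s.sw bl br).szv = s.szv.sw bl br := by
  cases bl <;> cases br <;> rfl

theorem St.sw_mu (s : St) (bl br : Bool) : mu (s.sw bl br) = mu s := by
  cases bl <;> cases br <;> simp only [mu, St.sw, St.swapL, St.swapR, cond_true, cond_false] <;>
    omega

theorem LW.of_sw {s : St} {bl br : Bool} (h : LW (s.sw bl br)) : LW s := by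
  cases bl <;> cases br
  · exact h
  · exact h.swapR
  · exact h.swapL
  · exact LW.swapL (s := s.swapL) h.swapR

theorem sat_pack {s : St} {a b c d e f : ℕ} (ha : a ≤ 15) (hb : b ≤ 15) (hc : c ≤ 15)
    (hd : d ≤ 15) (he : e ≤ 15) (hf : f ≤ 15) (h0 : S1 s.f s.sF a) (h1 : S1 (s.f + s.c) s.sA b)
    (h2 : S1 s.g s.sG c) (h3 : S1 (s.g + s.e) s.sW d) (h4 : S1 s.x s.sX e) (h5 : S1 s.y s.sY f) :
    Sat s (pack a b c d e f) := by
  obtain ⟨e0, e1, e2, e3, e4, e5⟩ := fld_pack ha hb hc hd he hf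
  unfold Sat
  rw [e0, e1, e2, e3, e4, e5]
  exact ⟨h0, h1, h2, h3, h4, h5⟩

theorem Sat.unsw {s : St} {g : ℕ} {bl br : Bool} (h : Sat s (swg bl br g)) :
    Sat (s.sw bl br) g := by
  have b := fld_le g
  cases bl <;> cases br <;>
    simp only [Sat, swg, swf, cd_true, cd_false, fld_pack (b _) (b _) (b _) (b _) (b _) (b _)] at h <;>
    obtain ⟨h0, h1, h2, h3, h4, h5⟩ := h
  exacts [⟨h0, h1, h2, h3, h4, h5⟩, ⟨h0, h1, h2, h3, h5, h4⟩, ⟨h2, h3, h0, h1, h4, h5⟩,
    ⟨h2, h3, h0, h1, h5, h4⟩]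

theorem KOK32 : KOK GG := ⟨32, 32, 32, 32, 32, 32, by decide⟩

theorem Sat.of_le {s : St} {y q : ℕ} (h : Sat s q) (hl : Le y q GG) : Sat s y := by
  have k : kf GG 0 = 32 ∧ kf GG 6 = 32 ∧ kf GG 12 = 32 ∧ kf GG 18 = 32 ∧ kf GG 24 = 32 ∧
    kf GG 30 = 32 := by decide
  obtain ⟨k0, k1, k2, k3, k4, k5⟩ := k
  unfold Le at hl
  rw [k0, k1, k2, k3, k4, k5] at hl
  obtain ⟨h0, h1, h2, h3, h4, h5⟩ := h
  obtain ⟨l0, l1, l2, l3, l4, l5⟩ := hl
  exact ⟨h0.imp id (by omega), h1.imp id (by omega), h2.imp id (by omega), h3.imp id (by omega),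
    h4.imp id (by omega), h5.imp id (by omega)⟩

/-! ### one key -/

/-- the data of a checker: snaps, planner, pruning flag, mirror maps -/
structure Cfg (τ : Type) where
  sn : τ → Snap
  pl : Plan τ
  pf : V → V → ℕ → Bool
  mr : Mr

noncomputable def node1 {τ : Type} (C : Cfg τ) (t : T) (lg l p : ℕ) (g : List ℕ) : Bool :=
  frc (len g) true fun m => an (an (Nat.beq (Nat.land l M15L) l)
    (an (Nat.beq (Nat.land lg M15L) lg) (tst (Nat.add l H8) lg)))
      (ctx0 l p fun c =>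
        exec C.mr t lg p (tig l p) (comp C.sn C.pf C.pl c none) g m (slt (alls m)))

noncomputable def node {τ : Type} (C : Cfg τ) (t : T) (lg l p : ℕ) (g : L) : Bool :=
  cd (Nat.beq lg 0) (node1 C t l l p (gens g)) (node1 C t lg l p (gens g))

theorem inv_win {τ : Type} {C : Cfg τ} (hsn : ∀ i, (C.sn i).Valid) (hC : C.mr.ok = true) {t : T}
    (ht : ∀ n, Tot n t) (h : allT (node C t) t 0 = true) (s : St) : InvS (Lane t) s → LW s := by
  induction hN : mu s using Nat.strong_induction_on generalizing s with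
  | _ N IH =>
  have first : ∀ s g, mu s = N → LaneN t s.szv g → Sat s g → LW s := by
    intro s g hN hg hs
    obtain ⟨lg, l, tb, ⟨hl, hm⟩, ha⟩ := allT_ex hg h
    have k := allTb_look ha hm
    obtain ⟨lg, k⟩ : ∃ lg, node1 C t lg l (par s.szv) (gens (look (par s.szv) tb)) = true := by
      unfold node at k
      cases e : Nat.beq lg 0 <;> rw [e] at k <;> exact ⟨_, k⟩
    obtain ⟨i, hi, rfl⟩ := List.getElem_of_mem hm
    unfold node1 at k
    rw [len_eq] at k
    obtain ⟨k1, k2⟩ := an_iff.1 (frc_imp k (by omega))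
    simp only [an_iff] at k1
    have o1 : LOK l := Nat.eq_of_beq_eq_true k1.1
    have o2 : LOK lg := Nat.eq_of_beq_eq_true k1.2.1
    obtain ⟨c, ec, hc⟩ := ctx0_spec hl fun c =>
      exec C.mr t lg (par s.szv) (tig l (par s.szv)) (comp C.sn C.pf C.pl c none)
        (gens (look (par s.szv) tb)) (gens (look (par s.szv) tb)).length
        (slt (alls (gens (look (par s.szv) tb)).length))
    rw [ec] at k2
    exact comp_sound hsn (fun u hu => IH _ (hN ▸ hu) u rfl) hs C.pl c none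
      (exec_sound hC ht ⟨o2, tst_le ⟨o1.sm, hl⟩ o2 k1.2.2⟩ o1 hl _ _ _ i hi k2
        (slt_bit (need_bit hi))) (hc _)
  rintro ⟨g, hg | ⟨bl, br, y, hy, rfl⟩, hs⟩
  · exact first s g hN hg hs
  · rw [← St.sw_szv] at hy
    exact (first _ y ((s.sw_mu bl br).trans hN) hy hs.unsw).of_sw

/-! ### the start -/

def gsz (i j : ℕ) : V :=
  ⟨2 * i + 1, 2 * j, 2 * j, 2 * i + 1, 2 * i + 2 * j + 1, 2 * i + 2 * j + 1⟩

def dU : V := ⟨2, 0, 0, 2, 2, 2⟩
def dV : V := ⟨0, 2, 2, 0, 2, 2⟩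

/-- the form `k` does not drop along the free directions -/
noncomputable def ray (bu bv : Bool) (k : ℕ) : Bool :=
  an (cd bu (Nat.ble (pos (bar k) dU) (pos k dU)) true)
    (cd bv (Nat.ble (pos (bar k) dV) (pos k dV)) true)

noncomputable def flatOK (l i j : ℕ) (bu bv : Bool) : Bool :=
  upto (Nat.mul 2 NF) fun k => oo (Nat.beq (ln 8 l k) 0) (an (ray bu bv k)
    (Nat.ble (Nat.add (ln 8 l k) (pos (bar k) (gsz i j))) (Nat.add 8 (pos k (gsz i j)))))

/-- the label of a start region (not trusted) -/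
noncomputable def flatL (i j : ℕ) (bu bv : Bool) : ℕ :=
  @Nat.rec (fun _ => ℕ) 0 (fun k ih => Nat.add ih (Nat.shiftLeft (cd (ray bu bv k)
    (mn 15 (Nat.sub (Nat.add 8 (pos k (gsz i j))) (pos (bar k) (gsz i j)))) 0) (Nat.mul 8 k)))
    (Nat.mul 2 NF)

theorem pos_gsz (k i j a b : ℕ) :
    pos k (gsz (i + a) (j + b)) = pos k (gsz i j) + a * pos k dU + b * pos k dV := by
  simp only [pos, gsz, dU, dV]
  ring

theorem flat_sat {l i j a b : ℕ} {bu bv : Bool} (h : flatOK l i j bu bv = true)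
    (ha : bu = false → a = 0) (hb : bv = false → b = 0) : SatL l (gsz (i + a) (j + b)) := by
  intro k hk
  have e := upto_imp h k hk
  simp only [oo_iff, an_iff, ray, Nat.beq_eq, Nat.ble_eq, Nat.add_eq] at e
  refine e.imp id fun ⟨⟨e1, e2⟩, e3⟩ => ?_
  rw [pos_gsz, pos_gsz]
  have f1 : a * pos (bar k) dU ≤ a * pos k dU := by
    cases bu
    · rw [ha rfl]; omega
    · exact Nat.mul_le_mul_left _ (Nat.le_of_ble_eq_true e1)
  have f2 : b * pos (bar k) dV ≤ b * pos k dV := by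
    cases bv
    · rw [hb rfl]; omega
    · exact Nat.mul_le_mul_left _ (Nat.le_of_ble_eq_true e2)
  omega

/-- the generator of the tight flat -/
def q0 : ℕ := pack 3 4 4 4 4 4

noncomputable def start1 (M : Mr) (t : T) (i j : ℕ) (bu bv : Bool) : Bool :=
  force (flatL i j bu bv) fun l => an (Nat.beq (Nat.land l M15L) l) (an (flatOK l i j bu bv)
    (goT M t (hitf1 [q0] 1 GG) (hitM1 [q0] 1 GG) 57 (shf (usrc (tig l 57)) V.z V.z) t (alls 1)))

/-- `i < I` exact or `i ≥ I`, and the same for `j` -/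
noncomputable def start (M : Mr) (t : T) (I J : ℕ) : Bool :=
  upto (Nat.succ I) fun i => upto (Nat.succ J) fun j => start1 M t i j (Nat.beq i I) (Nat.beq j J)

theorem start1_inv {M : Mr} (hM : M.ok = true) {t : T} (ht : ∀ n, Tot n t) {i j a b : ℕ}
    {bu bv : Bool} (h : start1 M t i j bu bv = true) (ha : bu = false → a = 0)
    (hb : bv = false → b = 0) : InvS (Lane t) (gam (i + a) (j + b)) := by
  unfold start1 at h
  rw [force_eq] at h
  obtain ⟨h1, h⟩ := an_iff.1 h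
  obtain ⟨h2, h3⟩ := an_iff.1 h
  have hl : LOK (flatL i j bu bv) := Nat.eq_of_beq_eq_true h1
  have hs := flat_sat h2 ha hb
  have hp : par (gsz (i + a) (j + b)) = 57 := by simp only [par, gsz]; omega
  rw [← hp] at h3
  obtain ⟨y, hy, hl⟩ := goT_spec hM ht (flag_le 0) (Q := fun y => Le y q0 GG)
    (fun _ k => hit1_spec (g := [q0]) KOK32 Nat.zero_lt_one k)
    (fun _ _ _ k => hitM1_spec (g := [q0]) KOK32 Nat.zero_lt_one k)
    (shf_ub (usrc_ub (tig_sm hl.sm _) (tig_sat hl hs)) ⟨rfl, rfl, rfl, rfl, rfl, rfl⟩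
      (by decide +kernel)) (ht _) (fun _ k => k) h3 (need_bit Nat.zero_lt_one)
  refine ⟨y, hy, Sat.of_le ?_ hl⟩
  refine sat_pack (by decide) (by decide) (by decide) (by decide) (by decide) (by decide)
    ?_ ?_ ?_ ?_ ?_ ?_ <;> simp only [S1, gam, off] <;> omega

/-- the main theorem of the checker -/
theorem gamma_of {τ : Type} {C : Cfg τ} (hsn : ∀ i, (C.sn i).Valid) (hC : C.mr.ok = true) {t : T}
    (ht : ∀ n, Tot n t) (h : allT (node C t) t 0 = true) {I J : ℕ}
    (hs : start C.mr t I J = true) :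
    GammaStmt := by
  intro i j
  refine inv_win hsn hC ht h _ ?_
  have k := upto_imp (upto_imp hs (min i I) (by omega)) (min j J) (by omega)
  have := start1_inv hC ht (a := i - min i I) (b := j - min j J) k
    (fun e => by have := Nat.ne_of_beq_eq_false e; omega)
    (fun e => by have := Nat.ne_of_beq_eq_false e; omega)
  rwa [show min i I + (i - min i I) = i by omega, show min j J + (j - min j J) = j by omega] at this

end Pool.Agent.MP_242484_co.On
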